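import Pool.Agent.Helper451.Reg.R1

set_option autoImplicit false
set_option linter.unusedSectionVars false
set_option linter.unusedVariables false
open Set Filter Topology

namespace Pool.Agent.Helper451.Reg
variable {X : Type*} [MetricSpace X]

/-- `X` is regular (rim-finite) -/
def Rim (X : Type*) [MetricSpace X] : Prop :=
  ∀ x : X, ∀ U : Set X, IsOpen U → x ∈ U →
    ∃ V : Set X, IsOpen V ∧ x ∈ V ∧ V ⊆ U ∧ (frontier V).Finite

/-- condition (ii) -/
def NullSeq (X : Type*) [MetricSpace X] : Prop :=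
  ∀ A : ℕ → Set X, (∀ n, IsConnected (A n)) → Pairwise (fun i j => Disjoint (A i) (A j)) →
    Tendsto (fun n => Metric.diam (A n)) atTop (𝓝 0)

theorem easy [CompactSpace X] (hreg : Rim X) : NullSeq X := by
  classical
  intro A hA hd
  rw [Metric.tendsto_atTop]
  intro ε hε
  choose V hVo hxV hVU hVf using fun x : X => hreg x (Metric.ball x (ε / 3)) Metric.isOpen_ball
    (Metric.mem_ball_self (by linarith))
  obtain ⟨t, ht⟩ := isCompact_univ.elim_finite_subcover V hVo (fun x _ => mem_iUnion.mpr ⟨x, hxV x⟩)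
  let F : Set X := ⋃ x ∈ t, frontier (V x)
  have hF : F.Finite := t.finite_toSet.biUnion (fun x _ => hVf x)
  have key : ∀ n, ε ≤ Metric.diam (A n) → ∃ z ∈ F, z ∈ A n := by
    intro n hn
    obtain ⟨a, ha⟩ := (hA n).nonempty
    have h1 := ht (mem_univ a)
    simp only [mem_iUnion, exists_prop] at h1
    obtain ⟨x, hx, hax⟩ := h1
    have h2 : ¬ A n ⊆ V x := by
      intro hsub
      have h3 : Metric.diam (A n) ≤ 2 * (ε / 3) :=
        (Metric.diam_mono (hsub.trans (hVU x)) Metric.isBounded_ball).trans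
          (Metric.diam_ball (by linarith))
      linarith
    obtain ⟨z, hz1, hz2, hz3⟩ := meets_frontier (hA n).isPreconnected (hVo x) ⟨a, ha, hax⟩ h2
    refine ⟨z, ?_, hz1⟩
    simp only [F, mem_iUnion, exists_prop]
    refine ⟨x, hx, ?_⟩
    rw [(hVo x).frontier_eq]
    exact ⟨hz2, hz3⟩
  have hfin : {n | ε ≤ Metric.diam (A n)}.Finite := by
    have : Nonempty X := ⟨(hA 0).nonempty.some⟩
    choose! z hz1 hz2 using key
    apply Set.Finite.of_finite_image (f := z)
    · apply hF.subset
      rintro _ ⟨n, hn, rfl⟩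
      exact hz1 n hn
    · intro m hm n hn hmn
      by_contra hne
      refine Set.disjoint_left.mp (hd hne) (hz2 m hm) ?_
      rw [hmn]; exact hz2 n hn
  obtain ⟨N, hN⟩ := hfin.bddAbove
  refine ⟨N + 1, ?_⟩
  intro n hn
  have h1 : ¬ ε ≤ Metric.diam (A n) := by
    intro h
    have : n ≤ N := hN h
    omega
  rw [Real.dist_eq, sub_zero, abs_of_nonneg Metric.diam_nonneg]
  exact not_le.mp h1

lemma NullSeq.null (h : NullSeq X) : Null X := by
  intro r hr A hA hd hall
  have h1 := h A hA hd
  obtain ⟨n, hn⟩ := (h1.eventually (gt_mem_nhds hr)).exists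
  exact absurd (hall n) (not_le.mpr hn)

/-- assembly of the frozen statement from the hard direction -/
theorem assemble
    (hard : ∀ (X : Type) [MetricSpace X] [CompactSpace X] [ConnectedSpace X], Null X → Rim X) :
    ∀ (X : Type) [MetricSpace X] [CompactSpace X] [ConnectedSpace X],
      ((∀ x : X, ∀ U : Set X, IsOpen U → x ∈ U →
          ∃ V : Set X, IsOpen V ∧ x ∈ V ∧ V ⊆ U ∧ (frontier V).Finite) ↔
        (∀ A : ℕ → Set X, (∀ n, IsConnected (A n)) →
          Pairwise (fun i j => Disjoint (A i) (A j)) →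
          Filter.Tendsto (fun n => Metric.diam (A n)) Filter.atTop (nhds 0))) := by
  intro X _ _ _
  constructor
  · intro h
    exact easy h
  · intro h
    exact hard X (NullSeq.null h)

end Pool.Agent.Helper451.Reg
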