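import Pool.Agent.Helper451.Reg.R2

set_option autoImplicit false
set_option linter.unusedSectionVars false
set_option linter.unusedVariables false

open Set Filter Topology unitInterval

namespace Pool.Agent.Helper451.Reg
variable {X : Type*} [MetricSpace X]

/-- (0.6): no finite set separates the small ball from the complement of `U`. -/
lemma exists_conn [CompactSpace X] [ConnectedSpace X] (hN : Null X) {x : X} {U : Set X}
    {ρ : ℝ} (hρ : 0 < ρ) (hball : Metric.closedBall x ρ ⊆ U)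
    (hno : ¬ ∃ V : Set X, IsOpen V ∧ x ∈ V ∧ V ⊆ U ∧ (frontier V).Finite)
    (F : Set X) (hF : F.Finite) :
    ∃ Q : Set X, IsPreconnected Q ∧ Q ⊆ Fᶜ ∧ (Q ∩ Metric.closedBall x ρ).Nonempty ∧
      (Q ∩ Uᶜ).Nonempty := by
  have := locConn hN
  by_contra h
  push Not at h
  apply hno
  have hFo : IsOpen Fᶜ := hF.isClosed.isOpen_compl
  set V1 : Set X := {z | z ∉ F ∧ (connectedComponentIn Fᶜ z ∩ Metric.closedBall x ρ).Nonempty}
    with hV1
  set V : Set X := V1 ∪ (F ∩ Metric.ball x ρ) with hV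
  have hVopen : IsOpen V := by
    rw [isOpen_iff_mem_nhds]
    rintro z (hz | hz)
    · have h1 : connectedComponentIn Fᶜ z ∈ 𝓝 z :=
        (hFo.connectedComponentIn).mem_nhds (mem_connectedComponentIn hz.1)
      filter_upwards [h1] with w hw
      left
      refine ⟨connectedComponentIn_subset _ _ hw, ?_⟩
      rw [← connectedComponentIn_eq hw]
      exact hz.2
    · have h1 : Metric.ball x ρ ∩ (F \ {z})ᶜ ∈ 𝓝 z := by
        apply IsOpen.mem_nhds
        · exact Metric.isOpen_ball.inter (hF.subset sdiff_subset).isClosed.isOpen_compl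
        · exact ⟨hz.2, fun h => h.2 rfl⟩
      filter_upwards [h1] with w hw
      by_cases hwF : w ∈ F
      · right; exact ⟨hwF, hw.1⟩
      · left
        exact ⟨hwF, w, mem_connectedComponentIn hwF, Metric.ball_subset_closedBall hw.1⟩
  refine ⟨V, hVopen, ?_, ?_, ?_⟩
  · by_cases hxF : x ∈ F
    · right; exact ⟨hxF, Metric.mem_ball_self hρ⟩
    · left
      exact ⟨hxF, x, mem_connectedComponentIn hxF, Metric.mem_closedBall_self hρ.le⟩
  · rintro z (hz | hz)
    · by_contra hzU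
      have := h (connectedComponentIn Fᶜ z) isPreconnected_connectedComponentIn
        (connectedComponentIn_subset _ _) hz.2
      have h2 : z ∈ connectedComponentIn Fᶜ z ∩ Uᶜ := ⟨mem_connectedComponentIn hz.1, hzU⟩
      rw [this] at h2
      exact h2
    · exact hball (Metric.ball_subset_closedBall hz.2)
  · apply hF.subset
    intro w hw
    by_contra hwF
    rw [frontier, hVopen.interior_eq] at hw
    obtain ⟨hw1, hw2⟩ := hw
    have h1 : connectedComponentIn Fᶜ w ∈ 𝓝 w :=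
      (hFo.connectedComponentIn).mem_nhds (mem_connectedComponentIn hwF)
    obtain ⟨v, hv1, hv2⟩ := mem_closure_iff_nhds.mp hw1 _ h1
    apply hw2
    left
    refine ⟨hwF, ?_⟩
    have hvF : v ∉ F := connectedComponentIn_subset _ _ hv1
    rcases hv2 with hv2 | hv2
    · rw [connectedComponentIn_eq hv1]
      exact hv2.2
    · exact absurd hv2.1 hvF

lemma ncard_biUnion_le' {α β : Type*} {S : Set α} (hS : S.Finite) (f : α → Set β) (b : ℕ)
    (hb : ∀ a ∈ S, (f a).ncard ≤ b) : (⋃ a ∈ S, f a).ncard ≤ S.ncard * b := by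
  induction S, hS using Set.Finite.induction_on with
  | empty => simp
  | @insert a s ha hs ih =>
    rw [biUnion_insert, ncard_insert_of_notMem ha hs]
    have h1 := ih (fun c hc => hb c (mem_insert_of_mem _ hc))
    have h2 := ncard_union_le (f a) (⋃ x ∈ s, f x)
    have h3 := hb a (mem_insert _ _)
    calc _ ≤ (f a).ncard + (⋃ x ∈ s, f x).ncard := h2
      _ ≤ b + s.ncard * b := by omega
      _ = (s.ncard + 1) * b := by ring

def Bdd (W : Set X) (r : ℝ) (m : ℕ) : Prop := ∀ F : Set X, F.Finite → (Big (W \ F) r).ncard ≤ m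

lemma big_sub [CompactSpace X] (hN : Null X) {r : ℝ} (hr : 0 < r) (W F1 F : Set X) :
    Big (W \ F) r ⊆ {Q | Q ∈ Big (W \ F) r ∧ (Q ∩ F1).Nonempty} ∪
      ⋃ C ∈ Big (W \ F1) r, Big (C \ F) r := by
  rintro Q hQ
  by_cases hQF : (Q ∩ F1).Nonempty
  · left; exact ⟨hQ, hQF⟩
  · right
    obtain ⟨q, hq, rfl, hd⟩ := hQ
    have hsub : connectedComponentIn (W \ F) q ⊆ W \ F1 := by
      intro z hz
      exact ⟨(connectedComponentIn_subset _ _ hz).1, fun h => hQF ⟨z, hz, h⟩⟩
    have hqm := mem_connectedComponentIn hq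
    have h1 : connectedComponentIn (W \ F) q ⊆ connectedComponentIn (W \ F1) q :=
      isPreconnected_connectedComponentIn.subset_connectedComponentIn hqm hsub
    rw [mem_iUnion₂]
    refine ⟨connectedComponentIn (W \ F1) q, ⟨q, hsub hqm, rfl, ?_⟩, q, ⟨h1 hqm, hq.2⟩, ?_, hd⟩
    · exact hd.trans (Metric.diam_mono h1 Metric.isBounded_of_compactSpace)
    · apply Subset.antisymm
      · apply isPreconnected_connectedComponentIn.subset_connectedComponentIn hqm
        intro z hz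
        exact ⟨h1 hz, (connectedComponentIn_subset _ _ hz).2⟩
      · apply connectedComponentIn_mono
        intro z hz
        exact ⟨(connectedComponentIn_subset _ _ hz.1).1, hz.2⟩

lemma bdd_step [CompactSpace X] (hN : Null X) {r : ℝ} (hr : 0 < r) (W : Set X)
    (hW : ∀ m, ¬ Bdd W r m) :
    ∃ C E : Set X, C ⊆ W ∧ (∀ m, ¬ Bdd C r m) ∧ E ⊆ W ∧ IsConnected E ∧ r ≤ Metric.diam E ∧
      Disjoint C E := by
  have h1 := hW 1
  unfold Bdd at h1
  push Not at h1
  obtain ⟨F1, hF1, hcard⟩ := h1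
  have hBfin : (Big (W \ F1) r).Finite := Big.finite hN hr
  have hdisj : ∀ C ∈ Big (W \ F1) r, ∀ D ∈ Big (W \ F1) r, C ≠ D → Disjoint C D := by
    rintro C ⟨y, hy, rfl, -⟩ D ⟨z, hz, rfl, -⟩ hne
    rcases comp_eq_or_disj (W := W \ F1) (x := y) (y := z) with h | h
    · exact absurd h hne
    · exact h
  by_cases hex : ∃ C ∈ Big (W \ F1) r, ∀ m, ¬ Bdd C r m
  · obtain ⟨C, hC, hCu⟩ := hex
    obtain ⟨E, hE, hEC⟩ : ∃ E ∈ Big (W \ F1) r, E ≠ C := by
      by_contra hno
      push Not at hno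
      have : Big (W \ F1) r ⊆ {C} := fun E hE => hno E hE
      have := ncard_le_ncard this (finite_singleton C)
      rw [ncard_singleton] at this
      omega
    refine ⟨C, E, ?_, hCu, ?_, ?_, ?_, hdisj C hC E hE hEC.symm⟩
    · obtain ⟨y, hy, rfl, -⟩ := hC
      exact (connectedComponentIn_subset _ _).trans sdiff_subset
    · obtain ⟨y, hy, rfl, -⟩ := hE
      exact (connectedComponentIn_subset _ _).trans sdiff_subset
    · obtain ⟨y, hy, rfl, -⟩ := hE
      exact isConnected_connectedComponentIn_iff.mpr hy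
    · obtain ⟨y, hy, rfl, h⟩ := hE
      exact h
  · exfalso
    push Not at hex
    obtain ⟨b, hb⟩ : ∃ b, ∀ C ∈ Big (W \ F1) r, Bdd C r b := by
      choose! m hm using hex
      refine ⟨hBfin.toFinset.sup m, fun C hC F hF => (hm C hC F hF).trans ?_⟩
      exact Finset.le_sup (f := m) (hBfin.mem_toFinset.mpr hC)
    apply hW (F1.ncard + (Big (W \ F1) r).ncard * b)
    intro F hF
    have hfin : (Big (W \ F) r).Finite := Big.finite hN hr
    have hfin2 : (⋃ C ∈ Big (W \ F1) r, Big (C \ F) r).Finite :=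
      hBfin.biUnion (fun C _ => Big.finite hN hr)
    calc (Big (W \ F) r).ncard ≤ _ := ncard_le_ncard (big_sub hN hr W F1 F)
            ((hfin.subset (fun Q hQ => hQ.1)).union hfin2)
      _ ≤ _ := ncard_union_le _ _
      _ ≤ F1.ncard + (Big (W \ F1) r).ncard * b := by
        apply Nat.add_le_add
        · have hne0 : (Big (W \ F1) r).Nonempty := by
            rw [nonempty_iff_ne_empty]
            intro h0
            rw [h0, ncard_empty] at hcard
            omega
          obtain ⟨C0, y0, hy0, -⟩ := hne0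
          have : Nonempty X := ⟨y0⟩
          choose! pt hpt using (fun (Q : Set X) (hQ : (Q ∩ F1).Nonempty) => hQ)
          apply ncard_le_ncard_of_injOn pt (fun Q hQ => (hpt Q hQ.2).2) ?_ hF1
          rintro Q ⟨hQ1, hQ2⟩ Q' ⟨hQ1', hQ2'⟩ heq
          obtain ⟨y, hy, rfl, -⟩ := hQ1
          obtain ⟨z, hz, rfl, -⟩ := hQ1'
          rcases comp_eq_or_disj (W := W \ F) (x := y) (y := z) with h | h
          · exact h
          · exfalso
            have a1 := (hpt _ hQ2).1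
            have a2 := (hpt _ hQ2').1
            rw [← heq] at a2
            exact (disjoint_left.mp h a1) a2
        · exact ncard_biUnion_le' hBfin _ _ (fun C hC => hb C hC F hF)

lemma exists_bdd [CompactSpace X] (hN : Null X) {r : ℝ} (hr : 0 < r) (W : Set X) :
    ∃ m, Bdd W r m := by
  by_contra hW
  push Not at hW
  choose! C E hC hCu hE hEc hEd hCE using (fun W hW => bdd_step (X := X) hN hr W hW)
  let w : ℕ → Set X := fun n => Nat.rec W (fun _ V => C V) n
  have hw0 : w 0 = W := rfl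
  have hws : ∀ n, w (n + 1) = C (w n) := fun n => rfl
  have hwu : ∀ n, ∀ m, ¬ Bdd (w n) r m := by
    intro n
    induction n with
    | zero => exact hW
    | succ n ih => rw [hws]; exact hCu _ ih
  have hanti : Antitone w := by
    apply antitone_nat_of_succ_le
    intro n
    rw [hws]
    exact hC _ (hwu n)
  have key : ∀ i j, i < j → Disjoint (E (w i)) (E (w j)) := by
    intro i j hij
    have h1 : E (w j) ⊆ w (i + 1) := (hE _ (hwu j)).trans (hanti hij)
    rw [hws] at h1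
    exact (hCE _ (hwu i)).symm.mono_right h1
  refine hN r hr (fun n => E (w n)) (fun n => hEc _ (hwu n)) ?_ (fun n => hEd _ (hwu n))
  intro i j hij
  rcases lt_or_gt_of_ne hij with h | h
  · exact key i j h
  · exact (key j i h).symm



/-- reachable in `k` steps through members of `K` -/
def Sk (K : Set (Set X)) (x : X) : ℕ → Set X
  | 0 => {x}
  | (k+1) => ⋃₀ {C ∈ K | (C ∩ Sk K x k).Nonempty}

lemma sk_chain (K : Set (Set X)) (x : X) : ∀ (k : ℕ) (w : X), w ∈ Sk K x k →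
    ∃ (p : ℕ → X) (R : ℕ → Set X), p 0 = x ∧ p k = w ∧
      ∀ i < k, p i ∈ R i ∧ p (i+1) ∈ R i ∧ R i ∈ K := by
  intro k
  induction k with
  | zero =>
    intro w hw
    refine ⟨fun _ => x, fun _ => ∅, rfl, ?_, fun i hi => absurd hi (Nat.not_lt_zero i)⟩
    exact (mem_singleton_iff.mp hw).symm
  | succ k ih =>
    intro w hw
    obtain ⟨C, ⟨hCK, v, hvC, hvS⟩, hwC⟩ := hw
    obtain ⟨p, R, hp0, hpk, hpR⟩ := ih v hvS
    refine ⟨fun i => if i ≤ k then p i else w, fun i => if i < k then R i else C, ?_, ?_, ?_⟩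
    · simp [hp0]
    · simp
    · intro i hi
      rcases Nat.lt_succ_iff_lt_or_eq.mp hi with h | h
      · have h1 : i ≤ k := h.le
        have h2 : i + 1 ≤ k := h
        simp only [h, h1, h2, if_true]
        exact hpR i h
      · subst h
        simp only [le_refl, if_true, lt_irrefl, if_false, Nat.not_succ_le_self, hpk]
        exact ⟨hvC, hwC, hCK⟩

lemma sk_reach {K : Set (Set X)} {Q : Set X} {x : X} {n : ℕ} (hQ : IsPreconnected Q) (hxQ : x ∈ Q)
    (hK : K.Finite) (hcard : K.ncard ≤ n) (hKo : ∀ C ∈ K, IsOpen C)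
    (hcov : Q ⊆ ⋃₀ K) (hxK : x ∈ ⋃₀ K) : ∀ y ∈ Q, y ∈ Sk K x (n + 1) := by
  have hmono1 : ∀ k, Sk K x k ⊆ Sk K x (k+1) := by
    intro k w hw
    have hwK : w ∈ ⋃₀ K := by
      cases k with
      | zero => rw [mem_singleton_iff.mp hw]; exact hxK
      | succ k =>
        obtain ⟨C, ⟨hC, -⟩, hwC⟩ := hw
        exact ⟨C, hC, hwC⟩
    obtain ⟨C, hC, hwC⟩ := hwK
    exact ⟨C, ⟨hC, w, hwC, hw⟩, hwC⟩
  have hmono : Monotone (Sk K x) := monotone_nat_of_le_succ hmono1
  set T : ℕ → Set (Set X) := fun k => {C ∈ K | (C ∩ Sk K x k).Nonempty} with hT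
  have hTK : ∀ k, T k ⊆ K := fun k => sep_subset _ _
  have hTmono : ∀ k, T k ⊆ T (k+1) := by
    rintro k C ⟨hC, v, hv1, hv2⟩
    exact ⟨hC, v, hv1, hmono1 k hv2⟩
  obtain ⟨k, hk, hstab⟩ : ∃ k ≤ n, T (k+1) = T k := by
    by_contra hno
    push Not at hno
    have : ∀ k ≤ n + 1, k ≤ (T k).ncard := by
      intro k
      induction k with
      | zero => intro _; exact Nat.zero_le _
      | succ k ih =>
        intro hk
        have h1 := ih (by omega)
        have h2 : (T k).ncard < (T (k+1)).ncard := by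
          apply ncard_lt_ncard ?_ (hK.subset (hTK _))
          exact (hTmono k).ssubset_of_ne (hno k (by omega)).symm
        omega
    have h1 := this (n+1) le_rfl
    have h2 := ncard_le_ncard (hTK (n+1)) hK
    omega
  -- S_{k+1} is closed under adjacency
  have hS1 : Sk K x (k+1) = ⋃₀ T k := rfl
  have hS2 : Sk K x (k+2) = ⋃₀ T (k+1) := rfl
  have hsub : Q ⊆ Sk K x (k+1) := by
    have hu : IsOpen (Sk K x (k+1)) := by
      rw [hS1]; exact isOpen_sUnion (fun C hC => hKo C (hTK _ hC))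
    have hv : IsOpen (⋃₀ (K \ T k)) := isOpen_sUnion (fun C hC => hKo C hC.1)
    have hdis : Disjoint (Sk K x (k+1)) (⋃₀ (K \ T k)) := by
      rw [disjoint_left]
      rintro v hv1 ⟨C, ⟨hC, hCT⟩, hvC⟩
      apply hCT
      rw [← hstab]
      exact ⟨hC, v, hvC, hv1⟩
    apply hQ.subset_left_of_subset_union hu hv hdis
    · intro q hq
      obtain ⟨C, hC, hqC⟩ := hcov hq
      by_cases h : C ∈ T k
      · left; rw [hS1]; exact ⟨C, h, hqC⟩
      · right; exact ⟨C, ⟨hC, h⟩, hqC⟩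
    · exact ⟨x, hxQ, hmono (Nat.zero_le _) (mem_singleton x)⟩
  intro y hy
  exact hmono (by omega) (hsub hy)

/-- Claim U -/
lemma exists_chain [CompactSpace X] [ConnectedSpace X] (hN : Null X) {ε : ℝ} (hε : 0 < ε) :
    ∃ N : ℕ, 2 ≤ N ∧ ∀ F : Set X, F.Finite → ∀ Q : Set X, IsPreconnected Q → Q ⊆ Fᶜ →
      ∀ x ∈ Q, ∀ y ∈ Q, ∃ (p : ℕ → X) (R : ℕ → Set X), p 0 = x ∧ p N = y ∧
        ∀ i < N, p i ∈ R i ∧ p (i+1) ∈ R i ∧ IsPreconnected (R i) ∧ R i ⊆ Fᶜ ∧
          (∀ u ∈ R i, ∀ v ∈ R i, dist u v ≤ ε) ∧ (R i ∩ Q).Nonempty := by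
  have := locConn hN
  obtain ⟨t, ht⟩ : ∃ t : Finset X, (univ : Set X) ⊆ ⋃ c ∈ t, Metric.ball c (ε / 4) := by
    obtain ⟨t, ht⟩ := isCompact_univ.elim_finite_subcover (fun c : X => Metric.ball c (ε / 4))
      (fun c => Metric.isOpen_ball) (fun c _ => mem_iUnion.mpr ⟨c, Metric.mem_ball_self (by linarith)⟩)
    exact ⟨t, ht⟩
  have h8 : 0 < ε / 8 := by linarith
  choose m hm using (fun c : X => exists_bdd hN h8 (Metric.ball c (ε / 2)))
  set b := t.sup m with hb
  set n := t.card * b with hn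
  refine ⟨n + 2, by omega, ?_⟩
  intro F hF Q hQ hQF x hx y hy
  have hcen : ∀ z : X, ∃ c ∈ t, z ∈ Metric.ball c (ε / 4) := by
    intro z
    have := ht (mem_univ z)
    rw [mem_iUnion₂] at this
    obtain ⟨c, hc, hz⟩ := this
    exact ⟨c, hc, hz⟩
  choose c hct hcz using hcen
  set C : X → Set X := fun z => connectedComponentIn (Metric.ball (c z) (ε / 2) \ F) z with hC
  have hzm : ∀ z ∈ Q, z ∈ Metric.ball (c z) (ε / 2) \ F := fun z hz =>
    ⟨Metric.ball_subset_ball (by linarith) (hcz z), hQF hz⟩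
  have hopen : ∀ z, IsOpen (C z) := fun z =>
    (Metric.isOpen_ball.sdiff hF.isClosed).connectedComponentIn
  by_cases hsmall : ∃ z ∈ Q, Metric.diam (C z) < ε / 8
  · obtain ⟨z, hz, hd⟩ := hsmall
    have hQC : Q ⊆ C z := by
      apply sub_of_no_frontier hQ (hopen z) ⟨z, hz, mem_connectedComponentIn (hzm z hz)⟩
      intro w hw hwc
      apply comp_closed_in hwc
      refine ⟨?_, hQF hw⟩
      have h1 : dist w z ≤ Metric.diam (C z) := by
        rw [← Metric.diam_closure]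
        exact diam_of_mem hwc (subset_closure (mem_connectedComponentIn (hzm z hz)))
      have h2 := hcz z
      rw [Metric.mem_ball] at h2 ⊢
      calc dist w (c z) ≤ dist w z + dist z (c z) := dist_triangle _ _ _
        _ < ε / 2 := by linarith
    refine ⟨fun i => if i = 0 then x else y, fun _ => Q, by simp, by simp, ?_⟩
    intro i hi
    refine ⟨?_, ?_, hQ, hQF, ?_, ?_⟩
    · by_cases h : i = 0 <;> simp [h, hx, hy]
    · simpa using hy
    · intro u hu v hv
      have := diam_of_mem (hQC hu) (hQC hv)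
      linarith
    · rw [inter_self]; exact ⟨x, hx⟩
  · push Not at hsmall
    set K : Set (Set X) := {D | ∃ z ∈ Q, D = C z} with hK
    have hKsub : K ⊆ ⋃ c ∈ (t : Set X), Big (Metric.ball c (ε / 2) \ F) (ε / 8) := by
      rintro D ⟨z, hz, rfl⟩
      rw [mem_iUnion₂]
      exact ⟨c z, hct z, z, hzm z hz, rfl, hsmall z hz⟩
    have hfin2 : (⋃ c ∈ (t : Set X), Big (Metric.ball c (ε / 2) \ F) (ε / 8)).Finite :=
      t.finite_toSet.biUnion (fun c _ => Big.finite hN h8)
    have hKfin : K.Finite := hfin2.subset hKsub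
    have hKcard : K.ncard ≤ n := by
      calc K.ncard ≤ _ := ncard_le_ncard hKsub hfin2
        _ ≤ (t : Set X).ncard * b := by
          apply ncard_biUnion_le' t.finite_toSet
          intro a ha
          exact (hm a F hF).trans (Finset.le_sup (f := m) ha)
        _ = n := by rw [ncard_coe_finset]
    have hcov : Q ⊆ ⋃₀ K := fun q hq => ⟨C q, ⟨q, hq, rfl⟩, mem_connectedComponentIn (hzm q hq)⟩
    have hreach := sk_reach hQ hx hKfin (hKcard.trans (Nat.le_succ n)) (by
      rintro D ⟨z, hz, rfl⟩; exact hopen z) hcov (hcov hx) y hy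
    obtain ⟨p, R, h0, h1, h2⟩ := sk_chain K x (n + 1 + 1) y hreach
    refine ⟨p, R, h0, h1, ?_⟩
    intro i hi
    obtain ⟨ha, hb', z, hz, hRz⟩ := h2 i hi
    refine ⟨ha, hb', ?_, ?_, ?_, ?_⟩
    · rw [hRz]; exact isPreconnected_connectedComponentIn
    · rw [hRz]; exact fun w hw => (connectedComponentIn_subset _ _ hw).2
    · rw [hRz]
      intro u hu v hv
      have h3 := (connectedComponentIn_subset _ _ hu).1
      have h4 := (connectedComponentIn_subset _ _ hv).1
      rw [Metric.mem_ball] at h3 h4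
      have := dist_triangle_right u v (c z)
      linarith
    · rw [hRz]; exact ⟨z, mem_connectedComponentIn (hzm z hz), hz⟩



/-- data at a level -/
structure Lev (F : Set X) (ε : ℝ) (f : ℕ → X) (R : ℕ → Set X) : Prop where
  conn : ∀ i, IsPreconnected (R i)
  sub : ∀ i, R i ⊆ Fᶜ
  left : ∀ i, f i ∈ R i
  right : ∀ i, f (i+1) ∈ R i
  diam : ∀ i, ∀ u ∈ R i, ∀ v ∈ R i, dist u v ≤ ε

/-- the chain property at scale `ε` with `N` links -/
def ChainProp (X : Type*) [MetricSpace X] (ε : ℝ) (N : ℕ) : Prop :=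
  ∀ F : Set X, F.Finite → ∀ Q : Set X, IsPreconnected Q → Q ⊆ Fᶜ →
      ∀ x ∈ Q, ∀ y ∈ Q, ∃ (p : ℕ → X) (R : ℕ → Set X), p 0 = x ∧ p N = y ∧
        ∀ i < N, p i ∈ R i ∧ p (i+1) ∈ R i ∧ IsPreconnected (R i) ∧ R i ⊆ Fᶜ ∧
          (∀ u ∈ R i, ∀ v ∈ R i, dist u v ≤ ε) ∧ (R i ∩ Q).Nonempty

lemma Lev.next {F : Set X} (hF : F.Finite) {ε ε' : ℝ} {N : ℕ} (hN : 2 ≤ N)
    (hch : ChainProp X ε' N) {f : ℕ → X} {R : ℕ → Set X} (h : Lev F ε f R) :
    ∃ (f' : ℕ → X) (R' : ℕ → Set X), Lev F ε' f' R' ∧ (∀ i, f' (N * i) = f i) ∧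
      ∀ k, (R' k ∩ R (k / N)).Nonempty := by
  have hN0 : 0 < N := by omega
  choose p S hp0 hpN hS using fun i => hch F hF (R i) (h.conn i) (h.sub i) (f i) (h.left i)
    (f (i+1)) (h.right i)
  have hlt : ∀ k, k % N < N := fun k => Nat.mod_lt _ hN0
  refine ⟨fun k => p (k / N) (k % N), fun k => S (k / N) (k % N), ?_, ?_, ?_⟩
  · refine ⟨fun k => (hS _ _ (hlt k)).2.2.1, fun k => (hS _ _ (hlt k)).2.2.2.1,
      fun k => (hS _ _ (hlt k)).1, fun k => ?_, fun k => (hS _ _ (hlt k)).2.2.2.2.1⟩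
    have hk := Nat.mod_add_div k N
    by_cases hj : k % N + 1 < N
    · obtain ⟨h1, h2⟩ := (Nat.div_mod_unique hN0 (a := k + 1) (d := k / N) (c := k % N + 1)).mpr
        ⟨by omega, hj⟩
      show p ((k + 1) / N) ((k + 1) % N) ∈ S (k / N) (k % N)
      rw [h1, h2]
      exact (hS _ _ (hlt k)).2.1
    · have hj' : k % N + 1 = N := by have := hlt k; omega
      obtain ⟨h1, h2⟩ := (Nat.div_mod_unique hN0 (a := k + 1) (d := k / N + 1) (c := 0)).mpr
        ⟨by rw [mul_add, mul_one]; omega, hN0⟩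
      show p ((k + 1) / N) ((k + 1) % N) ∈ S (k / N) (k % N)
      have h := (hS (k / N) (k % N) (hlt k)).2.1
      rw [hj', hpN] at h
      rw [h1, h2, hp0]
      exact h
  · intro i
    show p (N * i / N) (N * i % N) = f i
    rw [Nat.mul_div_cancel_left i hN0, Nat.mul_mod_right, hp0]
  · intro k
    exact (hS _ _ (hlt k)).2.2.2.2.2

/-- the whole tower for a fixed finite set `F` -/
structure Tower (F : Set X) (ε : ℕ → ℝ) (N : ℕ → ℕ) (f : ℕ → ℕ → X) (R : ℕ → ℕ → Set X) : Prop where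
  lev : ∀ m, Lev F (ε m) (f m) (R m)
  mul : ∀ m i, f (m+1) (N m * i) = f m i
  meet : ∀ m k, (R (m+1) k ∩ R m (k / N m)).Nonempty

lemma exists_tower {F : Set X} (hF : F.Finite) {ε : ℕ → ℝ} {N : ℕ → ℕ} (hN : ∀ m, 2 ≤ N m)
    (hch : ∀ m, ChainProp X (ε (m+1)) (N m)) {Q : Set X} (hQ : IsPreconnected Q) (hQF : Q ⊆ Fᶜ)
    (hd : ∀ u v : X, dist u v ≤ ε 0) {x y : X} (hx : x ∈ Q) (hy : y ∈ Q)
    (hε : ∀ m, 0 ≤ ε m) :
    ∃ (f : ℕ → ℕ → X) (R : ℕ → ℕ → Set X), Tower F ε N f R ∧ (∀ m, f m 0 = x) ∧ f 0 1 = y := by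
  have h0 : Lev F (ε 0) (fun i => if i = 0 then x else y) (fun i => if i = 0 then Q else {y}) := by
    refine ⟨?_, ?_, ?_, ?_, fun _ u _ v _ => hd u v⟩
    · intro i; by_cases h : i = 0
      · simpa [h] using hQ
      · simpa [h] using isPreconnected_singleton
    · intro i; by_cases h : i = 0
      · simpa [h] using hQF
      · simpa [h] using hQF hy
    · intro i; by_cases h : i = 0
      · simpa [h] using hx
      · simp [h]
    · intro i; by_cases h : i = 0
      · simpa [h] using hy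
      · simp [h]
  let St := fun m => {fR : (ℕ → X) × (ℕ → Set X) // Lev F (ε m) fR.1 fR.2}
  have hnext : ∀ m (s : St m), ∃ s' : St (m+1), (∀ i, s'.1.1 (N m * i) = s.1.1 i) ∧
      ∀ k, (s'.1.2 k ∩ s.1.2 (k / N m)).Nonempty := by
    intro m s
    obtain ⟨f', R', h1, h2, h3⟩ := s.2.next hF (hN m) (hch m)
    exact ⟨⟨(f', R'), h1⟩, h2, h3⟩
  choose nx hnx1 hnx2 using hnext
  let s : ∀ m, St m := fun m => Nat.rec ⟨(_, _), h0⟩ (fun m s => nx m s) m
  have hs : ∀ m, s (m+1) = nx m (s m) := fun m => rfl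
  have hmul : ∀ m i, (s (m+1)).1.1 (N m * i) = (s m).1.1 i := by
    intro m i; rw [hs]; exact hnx1 m (s m) i
  refine ⟨fun m => (s m).1.1, fun m => (s m).1.2, ⟨fun m => (s m).2, hmul, ?_⟩, ?_, ?_⟩
  · intro m k
    have := hnx2 m (s m) k
    rw [← hs] at this
    exact this
  · intro m
    induction m with
    | zero => rfl
    | succ m ih =>
      have := hmul m 0
      rw [mul_zero] at this
      show (s (m+1)).1.1 0 = x
      rw [this]; exact ih
  · rfl

/-- grid sizes -/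
def grid (N : ℕ → ℕ) : ℕ → ℕ
  | 0 => 1
  | (m+1) => grid N m * N m

lemma grid_pos {N : ℕ → ℕ} (hN : ∀ m, 2 ≤ N m) : ∀ m, 0 < grid N m
  | 0 => Nat.one_pos
  | (m+1) => Nat.mul_pos (grid_pos hN m) (by have := hN m; omega)

lemma grid_ge {N : ℕ → ℕ} (hN : ∀ m, 2 ≤ N m) : ∀ m, 2 ^ m ≤ grid N m
  | 0 => le_refl _
  | (m+1) => by
    have h1 := grid_ge hN m
    show 2 ^ (m+1) ≤ grid N m * N m
    rw [pow_succ]
    exact Nat.mul_le_mul h1 (hN m)

/-- the step function of level `m` -/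
noncomputable def stp (N : ℕ → ℕ) (f : ℕ → ℕ → X) (m : ℕ) (t : I) : X :=
  f m ⌊(t : ℝ) * grid N m⌋₊

lemma stp_succ {F : Set X} {D : ℝ} {N : ℕ → ℕ} (hN : ∀ m, 2 ≤ N m) {f : ℕ → ℕ → X}
    {R : ℕ → ℕ → Set X} (hD : 0 ≤ D) (T : Tower F (fun m => D / 2 ^ m) N f R) (m : ℕ) (t : I) :
    dist (stp N f m t) (stp N f (m+1) t) ≤ (4 * D) / 2 / 2 ^ m := by
  set k := ⌊(t : ℝ) * grid N (m+1)⌋₊ with hk
  have hN0 : (0 : ℝ) < N m := by have := hN m; exact_mod_cast (by omega : 0 < N m)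
  have hkN : k / N m = ⌊(t : ℝ) * grid N m⌋₊ := by
    rw [hk, ← Nat.floor_div_natCast]
    congr 1
    show (t : ℝ) * ((grid N m * N m : ℕ) : ℝ) / N m = _
    push_cast
    field_simp
  obtain ⟨w, hw1, hw2⟩ := T.meet m k
  have h1 := (T.lev (m+1)).diam k w hw1 _ ((T.lev (m+1)).left k)
  have h2 := (T.lev m).diam (k / N m) _ ((T.lev m).left _) w hw2
  have h3 : stp N f m t = f m (k / N m) := by rw [hkN]; rfl
  have h4 : stp N f (m+1) t = f (m+1) k := rfl
  rw [h3, h4]
  have h5 := dist_triangle (f m (k / N m)) w (f (m+1) k)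
  have h6 : D / 2 ^ (m+1) ≤ D / 2 ^ m := by
    apply div_le_div_of_nonneg_left hD (by positivity)
    exact pow_le_pow_right₀ (by norm_num) (Nat.le_succ m)
  have h7 : (4 * D) / 2 / 2 ^ m = 2 * (D / 2 ^ m) := by ring
  rw [h7]
  linarith

/-- the limit path of a tower -/
lemma exists_lim [CompactSpace X] {F : Set X} {D : ℝ} {N : ℕ → ℕ} (hN : ∀ m, 2 ≤ N m)
    {f : ℕ → ℕ → X} {R : ℕ → ℕ → Set X} (hD : 0 ≤ D)
    (T : Tower F (fun m => D / 2 ^ m) N f R) :
    ∃ l : I → X, ∀ m t, dist (stp N f m t) (l t) ≤ 4 * D / 2 ^ m := by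
  have h1 : ∀ t, CauchySeq (fun m => stp N f m t) := fun t =>
    cauchySeq_of_le_geometric_two (C := 4 * D) (fun m => stp_succ hN hD T m t)
  choose l hl using fun t => cauchySeq_tendsto_of_complete (h1 t)
  exact ⟨l, fun m t => dist_le_of_le_geometric_two_of_tendsto (fun m => stp_succ hN hD T m t)
    (hl t) m⟩

/-- the common modulus of continuity -/
def Mod (D : ℝ) (N : ℕ → ℕ) (l : I → X) : Prop :=
  ∀ m (s t : I), |(s : ℝ) - t| ≤ 1 / grid N m → dist (l s) (l t) ≤ 9 * D / 2 ^ m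

lemma mod_of_lim {F : Set X} {D : ℝ} {N : ℕ → ℕ} (hN : ∀ m, 2 ≤ N m)
    {f : ℕ → ℕ → X} {R : ℕ → ℕ → Set X} (hD : 0 ≤ D)
    (T : Tower F (fun m => D / 2 ^ m) N f R) {l : I → X}
    (hl : ∀ m t, dist (stp N f m t) (l t) ≤ 4 * D / 2 ^ m) : Mod D N l := by
  have key : ∀ m (s t : I), (s : ℝ) ≤ t → |(s : ℝ) - t| ≤ 1 / grid N m →
      dist (stp N f m s) (stp N f m t) ≤ D / 2 ^ m := by
    intro m s t hst hd
    have hg : (0 : ℝ) < grid N m := by exact_mod_cast grid_pos hN m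
    have h0 : (0:ℝ) ≤ s := s.2.1
    have h1 : (t : ℝ) * grid N m ≤ (s : ℝ) * grid N m + 1 := by
      rw [abs_sub_comm, abs_of_nonneg (by linarith)] at hd
      have := mul_le_mul_of_nonneg_right hd hg.le
      rw [one_div, inv_mul_cancel₀ hg.ne'] at this
      linarith
    have h2 : ⌊(s : ℝ) * grid N m⌋₊ ≤ ⌊(t : ℝ) * grid N m⌋₊ :=
      Nat.floor_le_floor (mul_le_mul_of_nonneg_right hst hg.le)
    have h3 : ⌊(t : ℝ) * grid N m⌋₊ ≤ ⌊(s : ℝ) * grid N m⌋₊ + 1 := by
      rw [← Nat.floor_add_one (by positivity)]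
      exact Nat.floor_le_floor h1
    unfold stp
    rcases (by omega : ⌊(t : ℝ) * grid N m⌋₊ = ⌊(s : ℝ) * grid N m⌋₊ ∨
      ⌊(t : ℝ) * grid N m⌋₊ = ⌊(s : ℝ) * grid N m⌋₊ + 1) with h | h
    · rw [h, dist_self]; positivity
    · rw [h]
      exact (T.lev m).diam _ _ ((T.lev m).left _) _ ((T.lev m).right _)
  have key2 : ∀ m (s t : I), |(s : ℝ) - t| ≤ 1 / grid N m →
      dist (stp N f m s) (stp N f m t) ≤ D / 2 ^ m := by
    intro m s t hd
    rcases le_total (s : ℝ) t with h | h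
    · exact key m s t h hd
    · rw [dist_comm]; exact key m t s h (by rwa [abs_sub_comm])
  intro m s t hd
  have h1 := key2 m s t hd
  have h2 := hl m s
  have h3 := hl m t
  have h4 := dist_triangle4 (l s) (stp N f m s) (stp N f m t) (l t)
  rw [dist_comm (l s) (stp N f m s)] at h4
  have h5 : 9 * D / 2 ^ m = 4 * D / 2 ^ m + D / 2 ^ m + 4 * D / 2 ^ m := by ring
  linarith

/-- (U) for a single point `e` -/
def UnpAt (l : I → X) (e : X) : Prop :=
  ∀ a b : I, a < b → l a ≠ e → l b ≠ e → ∀ η : ℝ, 0 < η →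
    ∃ M : Set X, IsPreconnected M ∧ M ⊆ Metric.thickening η (l '' Icc a b) ∧ e ∉ M ∧ l a ∈ M ∧ l b ∈ M

lemma exists_small_conn [LocallyConnectedSpace X] (z : X) {η : ℝ} (hη : 0 < η) :
    ∃ O : Set X, IsOpen O ∧ IsPreconnected O ∧ z ∈ O ∧ O ⊆ Metric.ball z η :=
  ⟨connectedComponentIn (Metric.ball z η) z, Metric.isOpen_ball.connectedComponentIn,
    isPreconnected_connectedComponentIn, mem_connectedComponentIn (Metric.mem_ball_self hη),
    connectedComponentIn_subset _ _⟩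

lemma tendsto_const_div_pow (C : ℝ) : Tendsto (fun m : ℕ => C / 2 ^ m) atTop (𝓝 0) := by
  have := (tendsto_pow_atTop_nhds_zero_of_lt_one (r := (1/2 : ℝ)) (by norm_num) (by norm_num)).const_mul C
  rw [mul_zero] at this
  refine this.congr (fun m => ?_)
  rw [one_div, inv_pow]; rfl

lemma exists_level (C : ℝ) {δ : ℝ} (hδ : 0 < δ) : ∃ m : ℕ, C / 2 ^ m < δ :=
  ((tendsto_const_div_pow C).eventually (gt_mem_nhds hδ)).exists

lemma unpAt_of_lim [LocallyConnectedSpace X] {F : Set X} {D : ℝ} {N : ℕ → ℕ} (hN : ∀ m, 2 ≤ N m)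
    {f : ℕ → ℕ → X} {R : ℕ → ℕ → Set X} (hD : 0 ≤ D)
    (T : Tower F (fun m => D / 2 ^ m) N f R) {l : I → X}
    (hl : ∀ m t, dist (stp N f m t) (l t) ≤ 4 * D / 2 ^ m) {e : X} (he : e ∈ F) : UnpAt l e := by
  intro a b hab hae hbe η hη
  have hda : 0 < dist (l a) e := dist_pos.mpr hae
  have hdb : 0 < dist (l b) e := dist_pos.mpr hbe
  obtain ⟨Oa, hOa1, hOa2, hOa3, hOa4⟩ := exists_small_conn (l a) (lt_min hη hda)
  obtain ⟨Ob, hOb1, hOb2, hOb3, hOb4⟩ := exists_small_conn (l b) (lt_min hη hdb)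
  obtain ⟨δa, hδa, hBa⟩ := Metric.isOpen_iff.mp hOa1 _ hOa3
  obtain ⟨δb, hδb, hBb⟩ := Metric.isOpen_iff.mp hOb1 _ hOb3
  obtain ⟨m, hm⟩ := exists_level (5 * D) (lt_min hη (lt_min hδa hδb))
  have hmη : 5 * D / 2 ^ m < η := hm.trans_le (min_le_left _ _)
  have hma : 5 * D / 2 ^ m < δa := hm.trans_le ((min_le_right _ _).trans (min_le_left _ _))
  have hmb : 5 * D / 2 ^ m < δb := hm.trans_le ((min_le_right _ _).trans (min_le_right _ _))
  have h45 : 4 * D / 2 ^ m ≤ 5 * D / 2 ^ m := by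
    apply div_le_div_of_nonneg_right (by linarith) (by positivity)
  have hg : (0 : ℝ) < grid N m := by exact_mod_cast grid_pos hN m
  set ia := ⌊(a : ℝ) * grid N m⌋₊ with hia
  set ib := ⌊(b : ℝ) * grid N m⌋₊ with hib
  have hiab : ia ≤ ib := Nat.floor_le_floor (mul_le_mul_of_nonneg_right (le_of_lt hab) hg.le)
  set C : Set X := ⋃ i ∈ Icc ia ib, R m i with hC
  have hCconn : IsPreconnected C := by
    apply IsPreconnected.biUnion_of_chain ordConnected_Icc
    · exact fun i _ => (T.lev m).conn i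
    · intro i _ _
      exact ⟨f m (i+1), (T.lev m).right i, (T.lev m).left (i+1)⟩
  have hfa : f m ia ∈ Oa := by
    apply hBa
    rw [Metric.mem_ball]
    exact (hl m a).trans_lt (h45.trans_lt hma)
  have hfb : f m ib ∈ Ob := by
    apply hBb
    rw [Metric.mem_ball]
    exact (hl m b).trans_lt (h45.trans_lt hmb)
  have hfaC : f m ia ∈ C := mem_biUnion (left_mem_Icc.mpr hiab) ((T.lev m).left ia)
  have hfbC : f m ib ∈ C := mem_biUnion (right_mem_Icc.mpr hiab) ((T.lev m).left ib)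
  refine ⟨(Oa ∪ C) ∪ Ob, ?_, ?_, ?_, Or.inl (Or.inl hOa3), Or.inr hOb3⟩
  · apply IsPreconnected.union (f m ib) (Or.inr hfbC) hfb _ hOb2
    exact IsPreconnected.union (f m ia) hfa hfaC hOa2 hCconn
  · rintro z ((hz | hz) | hz)
    · rw [Metric.mem_thickening_iff]
      exact ⟨l a, ⟨a, left_mem_Icc.mpr hab.le, rfl⟩, (hOa4 hz).trans_le (min_le_left _ _)⟩
    · rw [hC, mem_iUnion₂] at hz
      obtain ⟨i, hi, hzi⟩ := hz
      rw [Metric.mem_thickening_iff]
      have hz1 : dist z (f m i) ≤ D / 2 ^ m := (T.lev m).diam i z hzi _ ((T.lev m).left i)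
      obtain ⟨t, ht, hft⟩ : ∃ t ∈ Icc a b, dist (f m i) (l t) ≤ 4 * D / 2 ^ m := by
        rcases eq_or_lt_of_le hi.1 with h | h
        · refine ⟨a, left_mem_Icc.mpr hab.le, ?_⟩
          rw [← h]; exact hl m a
        · have h1 : (i : ℝ) ≤ (b : ℝ) * grid N m := by
            have : ib ≤ ib := le_refl _
            exact (Nat.le_floor_iff (mul_nonneg b.2.1 hg.le)).mp hi.2
          have h2 : (a : ℝ) * grid N m < i := by
            exact (Nat.floor_lt (mul_nonneg a.2.1 hg.le)).mp h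
          have h3 : (i : ℝ) / grid N m ≤ b := (div_le_iff₀ hg).mpr h1
          have h4 : (a : ℝ) < (i : ℝ) / grid N m := (lt_div_iff₀ hg).mpr h2
          have h5 : (i : ℝ) / grid N m ∈ I := ⟨by positivity, h3.trans b.2.2⟩
          refine ⟨⟨(i : ℝ) / grid N m, h5⟩, ⟨h4.le, h3⟩, ?_⟩
          have h6 := hl m ⟨(i : ℝ) / grid N m, h5⟩
          have h7 : stp N f m ⟨(i : ℝ) / grid N m, h5⟩ = f m i := by
            unfold stp
            congr 1
            show ⌊(i : ℝ) / grid N m * grid N m⌋₊ = i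
            rw [div_mul_cancel₀ _ hg.ne', Nat.floor_natCast]
          rwa [h7] at h6
      refine ⟨l t, ⟨t, ht, rfl⟩, ?_⟩
      have := dist_triangle z (f m i) (l t)
      have h9 : 5 * D / 2 ^ m = D / 2 ^ m + 4 * D / 2 ^ m := by ring
      linarith
    · rw [Metric.mem_thickening_iff]
      exact ⟨l b, ⟨b, right_mem_Icc.mpr hab.le, rfl⟩, (hOb4 hz).trans_le (min_le_left _ _)⟩
  · rintro ((hz | hz) | hz)
    · have := (Metric.mem_ball.mp (hOa4 hz)).trans_le (min_le_right _ _)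
      rw [dist_comm] at this
      exact lt_irrefl _ this
    · rw [hC, mem_iUnion₂] at hz
      obtain ⟨i, hi, hzi⟩ := hz
      exact (T.lev m).sub i hzi he
    · have := (Metric.mem_ball.mp (hOb4 hz)).trans_le (min_le_right _ _)
      rw [dist_comm] at this
      exact lt_irrefl _ this



/-- the compact family attached to a point `e` -/
def KK (D : ℝ) (N : ℕ → ℕ) (A B : Set X) (e : X) : Set (I → X) :=
  {l | Mod D N l ∧ l 0 ∈ A ∧ l 1 ∈ B ∧ UnpAt l e}

lemma isClosed_mod (D : ℝ) (N : ℕ → ℕ) : IsClosed {l : I → X | Mod D N l} := by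
  have : {l : I → X | Mod D N l} =
      ⋂ (m : ℕ) (s : I) (t : I) (_ : |(s : ℝ) - t| ≤ 1 / grid N m),
        {l : I → X | dist (l s) (l t) ≤ 9 * D / 2 ^ m} := by
    ext l
    simp only [Mod, mem_setOf_eq, mem_iInter]
  rw [this]
  refine isClosed_iInter fun m => isClosed_iInter fun s => isClosed_iInter fun t =>
    isClosed_iInter fun _ => ?_
  exact isClosed_le ((continuous_apply s).dist (continuous_apply t)) continuous_const

/-- approximation: near a point of the closure there are uniformly close members -/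
lemma unif_close {D : ℝ} {N : ℕ → ℕ} (hN : ∀ m, 2 ≤ N m) {S : Set (I → X)}
    (hS : ∀ l ∈ S, Mod D N l) {l : I → X} (hl : l ∈ closure S) {δ : ℝ} (hδ : 0 < δ) :
    ∃ μ ∈ S, ∀ t, dist (μ t) (l t) < δ := by
  have hlm : Mod D N l := by
    have : closure S ⊆ {l : I → X | Mod D N l} := closure_minimal hS (isClosed_mod D N)
    exact this hl
  obtain ⟨m, hm⟩ := exists_level (9 * D) (show 0 < δ / 3 by linarith)
  have hg : (0 : ℝ) < grid N m := by exact_mod_cast grid_pos hN m
  have hmem : ∀ i : Fin (grid N m + 1), ((i : ℕ) : ℝ) / grid N m ∈ I := by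
    intro i
    refine ⟨by positivity, (div_le_one hg).mpr ?_⟩
    exact_mod_cast Nat.lt_succ_iff.mp i.2
  set τ : Fin (grid N m + 1) → I := fun i => ⟨((i : ℕ) : ℝ) / grid N m, hmem i⟩ with hτ
  have hopen : IsOpen (⋂ i : Fin (grid N m + 1), {μ : I → X | dist (μ (τ i)) (l (τ i)) < δ / 3}) := by
    apply isOpen_iInter_of_finite
    intro i
    exact isOpen_lt ((continuous_apply (τ i)).dist continuous_const) continuous_const
  obtain ⟨μ, hμ1, hμ2⟩ := mem_closure_iff.mp hl _ hopen (by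
    rw [mem_iInter]; intro i; show dist _ _ < _; rw [dist_self]; linarith)
  refine ⟨μ, hμ2, fun t => ?_⟩
  rw [mem_iInter] at hμ1
  have hfl : ⌊(t : ℝ) * grid N m⌋₊ < grid N m + 1 := by
    rw [Nat.lt_succ_iff]
    apply Nat.floor_le_of_le
    have := t.2.2
    nlinarith
  have h1 := hμ1 ⟨_, hfl⟩
  have hdist : |(t : ℝ) - (τ ⟨_, hfl⟩ : ℝ)| ≤ 1 / grid N m := by
    have h2 : (τ ⟨_, hfl⟩ : ℝ) = (⌊(t : ℝ) * grid N m⌋₊ : ℝ) / grid N m := rfl
    have h3 : (⌊(t : ℝ) * grid N m⌋₊ : ℝ) ≤ (t : ℝ) * grid N m :=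
      Nat.floor_le (mul_nonneg t.2.1 hg.le)
    have h4 : (t : ℝ) * grid N m < ⌊(t : ℝ) * grid N m⌋₊ + 1 := Nat.lt_floor_add_one _
    have h5 : (t : ℝ) - (⌊(t : ℝ) * grid N m⌋₊ : ℝ) / grid N m =
        ((t : ℝ) * grid N m - ⌊(t : ℝ) * grid N m⌋₊) / grid N m := by
      field_simp
    rw [h2, h5, abs_of_nonneg (div_nonneg (by linarith) hg.le)]
    exact div_le_div_of_nonneg_right (by linarith) hg.le
  have h6 := (hS μ hμ2) m t _ hdist
  have h7 := hlm m t _ hdist
  have h8 := dist_triangle4 (μ t) (μ (τ ⟨_, hfl⟩)) (l (τ ⟨_, hfl⟩)) (l t)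
  rw [dist_comm (l (τ ⟨_, hfl⟩)) (l t)] at h8
  have h9 : dist (μ (τ ⟨_, hfl⟩)) (l (τ ⟨_, hfl⟩)) < δ / 3 := h1
  linarith

lemma isClosed_KK [LocallyConnectedSpace X] {D : ℝ} {N : ℕ → ℕ} (hN : ∀ m, 2 ≤ N m)
    {A B : Set X} (hA : IsClosed A) (hB : IsClosed B) (e : X) : IsClosed (KK D N A B e) := by
  apply isClosed_of_closure_subset
  intro l hl
  refine ⟨?_, ?_, ?_, ?_⟩
  · have : closure (KK D N A B e) ⊆ {l : I → X | Mod D N l} :=
      closure_minimal (fun l hl => hl.1) (isClosed_mod D N)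
    exact this hl
  · have : closure (KK D N A B e) ⊆ {l : I → X | l 0 ∈ A} :=
      closure_minimal (fun l hl => hl.2.1) (hA.preimage (continuous_apply 0))
    exact this hl
  · have : closure (KK D N A B e) ⊆ {l : I → X | l 1 ∈ B} :=
      closure_minimal (fun l hl => hl.2.2.1) (hB.preimage (continuous_apply 1))
    exact this hl
  · intro a b hab hae hbe η hη
    have hda : 0 < dist (l a) e := dist_pos.mpr hae
    have hdb : 0 < dist (l b) e := dist_pos.mpr hbe
    obtain ⟨Oa, hOa1, hOa2, hOa3, hOa4⟩ := exists_small_conn (l a) (lt_min hη hda)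
    obtain ⟨Ob, hOb1, hOb2, hOb3, hOb4⟩ := exists_small_conn (l b) (lt_min hη hdb)
    obtain ⟨δa, hδa, hBa⟩ := Metric.isOpen_iff.mp hOa1 _ hOa3
    obtain ⟨δb, hδb, hBb⟩ := Metric.isOpen_iff.mp hOb1 _ hOb3
    have hδ : 0 < min (η / 2) (min δa δb) := lt_min (by linarith) (lt_min hδa hδb)
    obtain ⟨μ, hμ, hclose⟩ := unif_close hN (fun l hl => hl.1) hl hδ
    have hμa : μ a ∈ Oa := hBa ((hclose a).trans_le ((min_le_right _ _).trans (min_le_left _ _)))
    have hμb : μ b ∈ Ob := hBb ((hclose b).trans_le ((min_le_right _ _).trans (min_le_right _ _)))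
    have heOa : e ∉ Oa := by
      intro hz
      have := (Metric.mem_ball.mp (hOa4 hz)).trans_le (min_le_right _ _)
      rw [dist_comm] at this
      exact lt_irrefl _ this
    have heOb : e ∉ Ob := by
      intro hz
      have := (Metric.mem_ball.mp (hOb4 hz)).trans_le (min_le_right _ _)
      rw [dist_comm] at this
      exact lt_irrefl _ this
    obtain ⟨M, hM1, hM2, hM3, hM4, hM5⟩ := hμ.2.2.2 a b hab (fun h => heOa (h ▸ hμa))
      (fun h => heOb (h ▸ hμb)) (η / 2) (by linarith)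
    refine ⟨(Oa ∪ M) ∪ Ob, ?_, ?_, ?_, Or.inl (Or.inl hOa3), Or.inr hOb3⟩
    · apply IsPreconnected.union (μ b) (Or.inr hM5) hμb _ hOb2
      exact IsPreconnected.union (μ a) hμa hM4 hOa2 hM1
    · rintro z ((hz | hz) | hz)
      · rw [Metric.mem_thickening_iff]
        exact ⟨l a, ⟨a, left_mem_Icc.mpr hab.le, rfl⟩, (hOa4 hz).trans_le (min_le_left _ _)⟩
      · obtain ⟨_, ⟨t, ht, rfl⟩, hzt⟩ := Metric.mem_thickening_iff.mp (hM2 hz)
        rw [Metric.mem_thickening_iff]
        refine ⟨l t, ⟨t, ht, rfl⟩, ?_⟩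
        have h1 := (hclose t).trans_le (min_le_left _ _)
        have h2 := dist_triangle z (μ t) (l t)
        linarith
      · rw [Metric.mem_thickening_iff]
        exact ⟨l b, ⟨b, right_mem_Icc.mpr hab.le, rfl⟩, (hOb4 hz).trans_le (min_le_left _ _)⟩
    · rintro ((hz | hz) | hz)
      · exact heOa hz
      · exact hM3 hz
      · exact heOb hz

lemma continuous_of_mod {D : ℝ} {N : ℕ → ℕ} (hN : ∀ m, 2 ≤ N m) {l : I → X} (h : Mod D N l) :
    Continuous l := by
  rw [Metric.continuous_iff]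
  intro s ε hε
  obtain ⟨m, hm⟩ := exists_level (9 * D) hε
  have hg : (0 : ℝ) < grid N m := by exact_mod_cast grid_pos hN m
  refine ⟨1 / grid N m, by positivity, fun t ht => ?_⟩
  exact (h m t s (by rw [Subtype.dist_eq, Real.dist_eq] at ht; exact ht.le)).trans_lt hm

lemma tower_last {F : Set X} {ε : ℕ → ℝ} {N : ℕ → ℕ} {f : ℕ → ℕ → X} {R : ℕ → ℕ → Set X}
    (T : Tower F ε N f R) : ∀ m, f m (grid N m) = f 0 1
  | 0 => rfl
  | (m+1) => by
    have h1 := T.mul m (grid N m)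
    show f (m+1) (grid N m * N m) = f 0 1
    rw [mul_comm, h1]
    exact tower_last T m

lemma eq_of_dist_le {x y : X} {D : ℝ} (h : ∀ m : ℕ, dist x y ≤ 4 * D / 2 ^ m) : x = y := by
  by_contra hne
  obtain ⟨m, hm⟩ := exists_level (4 * D) (dist_pos.mpr hne)
  exact absurd (h m) (not_le.mpr hm)

theorem exists_unp [CompactSpace X] [ConnectedSpace X] (hN : Null X) {x : X} {U : Set X}
    (hU : IsOpen U) (hx : x ∈ U)
    (hno : ¬ ∃ V : Set X, IsOpen V ∧ x ∈ V ∧ V ⊆ U ∧ (frontier V).Finite) :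
    ∃ l : I → X, Continuous l ∧ l 0 ≠ l 1 ∧ Unp l := by
  have := locConn hN
  obtain ⟨r, hr, hball⟩ := Metric.isOpen_iff.mp hU x hx
  set ρ := r / 2 with hρ
  have hρ0 : 0 < ρ := by linarith
  have hcb : Metric.closedBall x ρ ⊆ U :=
    (Metric.closedBall_subset_ball (by linarith)).trans hball
  set D := Metric.diam (univ : Set X) + 1 with hD
  have hD0 : 0 < D := by
    have := Metric.diam_nonneg (s := (univ : Set X))
    linarith
  have hDd : ∀ u v : X, dist u v ≤ D := by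
    intro u v
    have := Metric.dist_le_diam_of_mem (Metric.isBounded_of_compactSpace (s := (univ : Set X)))
      (mem_univ u) (mem_univ v)
    linarith
  choose N hN2 hNch using fun m : ℕ => exists_chain (X := X) hN
    (show 0 < D / 2 ^ (m+1) by positivity)
  have hch : ∀ m, ChainProp X (D / 2 ^ (m+1)) (N m) := hNch
  have hne : (⋂ e : X, KK D N (Metric.closedBall x ρ) Uᶜ e).Nonempty := by
    apply CompactSpace.iInter_nonempty
    · intro e
      exact isClosed_KK hN2 Metric.isClosed_closedBall hU.isClosed_compl e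
    · intro s
      obtain ⟨Q, hQ, hQF, ⟨x0, hx0, hx0b⟩, ⟨y0, hy0, hy0U⟩⟩ :=
        exists_conn hN hρ0 hcb hno (s : Set X) s.finite_toSet
      obtain ⟨f, R, T, hf0, hf1⟩ := exists_tower (ε := fun m => D / 2 ^ m) s.finite_toSet hN2 hch
        hQ hQF (by simpa using hDd) hx0 hy0 (fun m => by positivity)
      obtain ⟨l, hl⟩ := exists_lim hN2 hD0.le T
      refine ⟨l, ?_⟩
      rw [mem_iInter₂]
      intro e he
      refine ⟨mod_of_lim hN2 hD0.le T hl, ?_, ?_, unpAt_of_lim hN2 hD0.le T hl he⟩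
      · have : x0 = l 0 := by
          apply eq_of_dist_le (D := D)
          intro m
          have h1 := hl m 0
          have h2 : stp N f m 0 = x0 := by
            unfold stp
            have : ⌊((0 : I) : ℝ) * grid N m⌋₊ = 0 := by simp
            rw [this]; exact hf0 m
          rwa [h2] at h1
        rw [← this]; exact hx0b
      · have : y0 = l 1 := by
          apply eq_of_dist_le (D := D)
          intro m
          have h1 := hl m 1
          have h2 : stp N f m 1 = y0 := by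
            unfold stp
            have : ⌊((1 : I) : ℝ) * grid N m⌋₊ = grid N m := by simp
            rw [this, tower_last T m]; exact hf1
          rwa [h2] at h1
        rw [← this]; exact hy0U
  obtain ⟨l, hl⟩ := hne
  rw [mem_iInter] at hl
  refine ⟨l, continuous_of_mod hN2 (hl x).1, ?_, ?_⟩
  · intro h
    apply (hl x).2.2.1
    rw [← h]
    exact hcb (hl x).2.1
  · intro a b hab e hae hbe η hη
    exact (hl e).2.2.2 a b hab hae hbe η hη


end Pool.Agent.Helper451.Reg
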