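import Pool.Agent.Helper451.Reg.R2

set_option autoImplicit false
set_option linter.unusedSectionVars false
set_option linter.unusedVariables false
open Set Filter Topology unitInterval

namespace Pool.Agent.Helper451.Reg

section bern
open Cardinal
universe u

/-- an injective choice function for a family of at most `κ` sets of cardinality at least `κ` -/
lemma exists_transversal {ι α : Type u} (S : ι → Set α) (κ : Cardinal.{u})
    (hι : #ι ≤ κ) (hκ : 0 < κ) (hS : ∀ i, κ ≤ #(S i)) :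
    ∃ f : ι → α, Function.Injective f ∧ ∀ i, f i ∈ S i := by
  classical
  obtain ⟨r, wo, hr⟩ := Cardinal.exists_ord_eq ι
  have wf : WellFounded r := wo.wf
  have hne : ∀ i, (S i).Nonempty := by
    intro i
    have h1 : (0 : Cardinal) < #(S i) := lt_of_lt_of_le hκ (hS i)
    rw [← Set.nonempty_coe_sort]
    exact Cardinal.mk_ne_zero_iff.mp (ne_of_gt h1)
  let F : ∀ i : ι, (∀ j : ι, r j i → α) → α := fun i ih =>
    if h : ∃ x ∈ S i, ∀ (j : ι) (hj : r j i), x ≠ ih j hj then h.choose else (hne i).some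
  let f : ι → α := wf.fix F
  have hf : ∀ i, f i = F i (fun j _ => f j) := fun i => wf.fix_eq F i
  have key : ∀ i, f i ∈ S i ∧ ∀ j, r j i → f i ≠ f j := by
    intro i
    have hex : ∃ x ∈ S i, ∀ (j : ι) (hj : r j i), x ≠ (fun j _ => f j) j hj := by
      by_contra hno
      push Not at hno
      have hsub : S i ⊆ f '' {j | r j i} := by
        intro x hx
        obtain ⟨j, hj, hxj⟩ := hno x hx
        exact ⟨j, hj, hxj.symm⟩
      have h1 : #(S i) ≤ #{j | r j i} := (Cardinal.mk_le_mk_of_subset hsub).trans Cardinal.mk_image_le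
      have h2 : #{j | r j i} < #ι := by
        have := Cardinal.card_typein_lt (r := r) i hr
        rwa [Ordinal.card_typein] at this
      exact absurd (h1.trans_lt (h2.trans_le (hι.trans (hS i)))) (lt_irrefl _)
    rw [hf i]
    have hF : F i (fun j _ => f j) = hex.choose := by
      simp only [F]
      rw [dif_pos hex]
    rw [hF]
    exact hex.choose_spec
  refine ⟨f, ?_, fun i => (key i).1⟩
  intro i j hij
  by_contra hne'
  rcases trichotomous_of r i j with h | h | h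
  · exact (key j).2 i h hij.symm
  · exact hne' h
  · exact (key i).2 j h hij

/-- there are at most continuum many open sets in a second countable space -/
lemma mk_opens_le (X : Type u) [TopologicalSpace X] [SecondCountableTopology X] :
    #{S : Set X | IsClosed S} ≤ 𝔠 := by
  obtain ⟨b, hbc, -, hb⟩ := TopologicalSpace.exists_countable_basis X
  have hinj : Function.Injective (fun S : {S : Set X | IsClosed S} =>
      ({t : b | (t : Set X) ⊆ (S : Set X)ᶜ} : Set b)) := by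
    intro S T hST
    apply Subtype.ext
    have h1 : ∀ A : Set X, IsClosed A → Aᶜ = ⋃ t ∈ {t : b | (t : Set X) ⊆ Aᶜ}, (t : Set X) := by
      intro A hA
      ext x
      simp only [mem_iUnion, exists_prop, Set.mem_ofPred_eq]
      constructor
      · intro hx
        obtain ⟨t, htb, hxt, htA⟩ := hb.exists_subset_of_mem_open hx hA.isOpen_compl
        exact ⟨⟨t, htb⟩, htA, hxt⟩
      · rintro ⟨t, ht, hxt⟩
        exact ht hxt
    have h2 : ({t : b | (t : Set X) ⊆ (S : Set X)ᶜ} : Set b) = {t : b | (t : Set X) ⊆ (T : Set X)ᶜ} := hST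
    have h3 : (S : Set X)ᶜ = (T : Set X)ᶜ := by
      rw [h1 _ S.2, h1 _ T.2, h2]
    exact compl_injective h3
  have h1 := Cardinal.mk_le_of_injective hinj
  refine h1.trans ?_
  rw [Cardinal.mk_set]
  have h2 : #b ≤ ℵ₀ := Cardinal.mk_le_aleph0_iff.mpr hbc.to_subtype
  calc (2 : Cardinal) ^ #b ≤ 2 ^ ℵ₀ := Cardinal.power_le_power_left two_ne_zero h2
    _ = 𝔠 := Cardinal.two_power_aleph0

lemma continuum_le_diff {X : Type u} [TopologicalSpace X] [PolishSpace X] {S D : Set X}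
    (hS : IsClosed S) (hSu : ¬ S.Countable) (hD : D.Countable) : 𝔠 ≤ #(S \ D : Set X) := by
  obtain ⟨f, hfS, -, hf⟩ := hS.exists_nat_bool_injection_of_not_countable hSu
  have h1 : #(range f) = 𝔠 := by
    have := Cardinal.mk_range_eq_of_injective hf
    have h2 : Cardinal.lift.{u} #(ℕ → Bool) = Cardinal.lift.{0} #(range f) := this.symm
    rw [Cardinal.lift_id'.{0, u}] at h2
    rw [← h2]
    simp
  have h3 : range f ⊆ (S \ D) ∪ D := by
    intro x hx
    by_cases hxD : x ∈ D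
    · exact Or.inr hxD
    · exact Or.inl ⟨hfS hx, hxD⟩
  have h4 : 𝔠 ≤ #(S \ D : Set X) + #D := by
    rw [← h1]
    exact (Cardinal.mk_le_mk_of_subset h3).trans (Cardinal.mk_union_le _ _)
  by_contra hlt
  rw [not_le] at hlt
  have h5 : #D < 𝔠 := lt_of_le_of_lt (Cardinal.mk_le_aleph0_iff.mpr hD.to_subtype) Cardinal.aleph0_lt_continuum
  exact absurd (Cardinal.add_lt_of_lt Cardinal.aleph0_le_continuum hlt h5) (not_lt.mpr h4)

/-- countably many disjoint Bernstein sets avoiding a countable set -/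
lemma bernstein (X : Type u) [TopologicalSpace X] [PolishSpace X] (D : Set X) (hD : D.Countable) :
    ∃ B : ℕ → Set X, Pairwise (fun i j => Disjoint (B i) (B j)) ∧ (∀ k, Disjoint (B k) D) ∧
      ∀ k, ∀ S : Set X, IsClosed S → ¬ S.Countable → (B k ∩ S).Nonempty := by
  let ι : Type u := {S : Set X // IsClosed S ∧ ¬ S.Countable} × ULift.{u} ℕ
  have hι : #ι ≤ 𝔠 := by
    have h1 : #{S : Set X // IsClosed S ∧ ¬ S.Countable} ≤ 𝔠 := by
      refine le_trans ?_ (mk_opens_le X)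
      exact Cardinal.mk_le_mk_of_subset (fun S hS => hS.1)
    have h2 : #(ULift.{u} ℕ) ≤ 𝔠 := by
      have : #(ULift.{u} ℕ) = ℵ₀ := by simp
      rw [this]; exact Cardinal.aleph0_le_continuum
    calc #ι = #{S : Set X // IsClosed S ∧ ¬ S.Countable} * #(ULift.{u} ℕ) := by
            simp [ι, Cardinal.mk_prod]
      _ ≤ 𝔠 * 𝔠 := mul_le_mul' h1 h2
      _ = 𝔠 := Cardinal.continuum_mul_self
  obtain ⟨f, hf, hfS⟩ := exists_transversal (fun i : ι => (i.1 : Set X) \ D) 𝔠 hι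
    Cardinal.continuum_pos (fun i => continuum_le_diff i.1.2.1 i.1.2.2 hD)
  refine ⟨fun k => {x | ∃ S, x = f (S, ⟨k⟩)}, ?_, ?_, ?_⟩
  · intro i j hij
    refine Set.disjoint_left.mpr ?_
    rintro x ⟨S, rfl⟩ ⟨T, hT⟩
    have := hf hT
    exact hij (congrArg (fun z => z.2.down) this)
  · intro k
    rw [Set.disjoint_left]
    rintro x ⟨S, rfl⟩
    exact (hfS (S, ⟨k⟩)).2
  · intro k S hS hSu
    exact ⟨f (⟨S, hS, hSu⟩, ⟨k⟩), ⟨_, rfl⟩, (hfS (⟨S, hS, hSu⟩, ⟨k⟩)).1⟩


end bern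

variable {X : Type*} [MetricSpace X]

lemma Chain.gmono {l : I → X} {G G' : Set (Set X)} {e : X} {J : Set I} (h : G ⊆ G') {s t : I}
    (hc : Chain l G e J s t) : Chain l G' e J s t := by
  refine Relation.ReflTransGen.mono ?_ _ _ hc
  rintro a b ⟨ha, hb, h1 | ⟨g, hg, h1, h2⟩⟩
  · exact ⟨ha, hb, Or.inl h1⟩
  · exact ⟨ha, hb, Or.inr ⟨g, h hg, h1, h2⟩⟩

lemma Chain.nhds {l : I → X} (hc : Continuous l) {G : Set (Set X)} {e : X} {J : Set I} {s t : I}
    (h : Chain l G e J s t) : ∀ᶠ e' in 𝓝 e, Chain l G e' J s t := by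
  induction h with
  | refl => exact Filter.Eventually.of_forall (fun _ => Relation.ReflTransGen.refl)
  | @tail b c _ hbc ih =>
    obtain ⟨hb, hc', h1 | h1⟩ := hbc
    · have hcomp : IsCompact (l '' uIcc b c) := isCompact_uIcc.image hc
      have hne : e ∉ l '' uIcc b c := by
        rintro ⟨u, hu, hue⟩
        exact h1.2 u hu hue
      filter_upwards [ih, hcomp.isClosed.isOpen_compl.mem_nhds hne] with e' h2 h3
      refine Relation.ReflTransGen.tail h2 ⟨hb, hc', Or.inl ⟨h1.1, ?_⟩⟩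
      intro u hu hue
      exact h3 ⟨u, hu, hue⟩
    · filter_upwards [ih] with e' h2
      exact Relation.ReflTransGen.tail h2 ⟨hb, hc', Or.inr h1⟩

/-- what is chosen at one stage -/
def Good (l : I → X) (H : Set X → Prop) (Γ : Set X) (G : Set (Set X)) : Prop :=
  G.Finite ∧ (∀ g ∈ G, IsConnected g ∧ IsCompact g ∧ (g ∩ range l).Finite ∧
    (g ∩ range l).Nonempty ∧ Disjoint g Γ) ∧ (∀ Γ' : Set X, H Γ' → H (Γ' ∪ ⋃₀ G))

lemma stage [CompactSpace X] (l : I → X) (hc : Continuous l) (H : Set X → Prop)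
    (hch : ∀ Γ : Set X, H Γ → ∀ J : Set I, IsOpen J → IsPreconnected J → ∀ a ∈ J, ∀ b ∈ J,
      ∀ e : X, l a ≠ e → l b ≠ e →
      ∃ G : Set (Set X), G.Finite ∧
        (∀ g ∈ G, IsConnected g ∧ IsCompact g ∧ (g ∩ range l).Finite ∧ (g ∩ range l).Nonempty ∧
          Disjoint g Γ) ∧
        (∀ Γ' : Set X, H Γ' → H (Γ' ∪ ⋃₀ G)) ∧ Chain l G e J a b)
    (Γ : Set X) (hΓ : H Γ) (J : Set I) (hJ : IsOpen J) (hJc : IsPreconnected J)
    (a : I) (ha : a ∈ J) (b : I) (hb : b ∈ J) (r : ℝ) (hr : 0 < r) :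
    ∃ G : Set (Set X), Good l H Γ G ∧ ∀ e : X, r ≤ dist e (l a) → r ≤ dist e (l b) →
      Chain l G e J a b := by
  classical
  let K : Set X := {e | r ≤ dist e (l a)} ∩ {e | r ≤ dist e (l b)}
  have hK : IsCompact K := by
    apply IsClosed.isCompact
    apply IsClosed.inter
    · exact isClosed_le continuous_const (continuous_id.dist continuous_const)
    · exact isClosed_le continuous_const (continuous_id.dist continuous_const)
  have hne : ∀ e ∈ K, l a ≠ e ∧ l b ≠ e := by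
    rintro e ⟨h1, h2⟩
    refine ⟨?_, ?_⟩
    · intro h; rw [← h] at h1; simp at h1; linarith
    · intro h; rw [← h] at h2; simp at h2; linarith
  have hex : ∀ e : X, ∃ G : Set (Set X), Good l H Γ G ∧ (e ∈ K → Chain l G e J a b) := by
    intro e
    by_cases he : e ∈ K
    · obtain ⟨G, h1, h2, h3, h4⟩ := hch Γ hΓ J hJ hJc a ha b hb e (hne e he).1 (hne e he).2
      exact ⟨G, ⟨h1, h2, h3⟩, fun _ => h4⟩
    · exact ⟨∅, ⟨finite_empty, by simp, by simp⟩, fun h => absurd h he⟩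
  choose G hG1 hG2 using hex
  obtain ⟨t, htK, ht⟩ := hK.elim_nhds_subcover (fun e => {e' | Chain l (G e) e' J a b})
    (fun e he => (hG2 e he).nhds hc)
  refine ⟨⋃ e ∈ t, G e, ⟨?_, ?_, ?_⟩, ?_⟩
  · exact t.finite_toSet.biUnion (fun e _ => (hG1 e).1)
  · intro g hg
    simp only [mem_iUnion, exists_prop] at hg
    obtain ⟨e, he, hge⟩ := hg
    exact (hG1 e).2.1 g hge
  · have : ∀ s : Finset X, ∀ Γ' : Set X, H Γ' → H (Γ' ∪ ⋃₀ (⋃ e ∈ s, G e)) := by
      intro s
      induction s using Finset.induction_on with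
      | empty => intro Γ' h; simpa using h
      | insert x s hx ih =>
        intro Γ' h
        have h1 := (hG1 x).2.2 _ (ih Γ' h)
        have h2 : Γ' ∪ ⋃₀ (⋃ e ∈ insert x s, G e) = (Γ' ∪ ⋃₀ (⋃ e ∈ s, G e)) ∪ ⋃₀ (G x) := by
          rw [Finset.set_biUnion_insert, sUnion_union, union_comm (⋃₀ G x), union_assoc]
        rw [h2]; exact h1
    exact this t
  · intro e h1 h2
    have h3 := ht (show e ∈ K from ⟨h1, h2⟩)
    simp only [mem_iUnion, exists_prop] at h3
    obtain ⟨x, hx, hxe⟩ := h3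
    exact Chain.gmono (by intro g hg; simp only [mem_iUnion, exists_prop]; exact ⟨x, hx, hg⟩) hxe



/-- rational open intervals of `I` -/
def JJ (p q : ℚ) : Set I := {t | (p : ℝ) < (t : ℝ) ∧ (t : ℝ) < (q : ℝ)}

lemma JJ_open (p q : ℚ) : IsOpen (JJ p q) := by
  apply IsOpen.inter
  · exact isOpen_lt continuous_const continuous_subtype_val
  · exact isOpen_lt continuous_subtype_val continuous_const

lemma JJ_conn (p q : ℚ) : IsPreconnected (JJ p q) := by
  apply Set.OrdConnected.isPreconnected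
  constructor
  intro s hs t ht u hu
  refine ⟨lt_of_lt_of_le hs.1 ?_, lt_of_le_of_lt ?_ ht.2⟩
  · exact_mod_cast hu.1
  · exact_mod_cast hu.2

lemma exists_JJ {O : Set I} (hO : IsOpen O) {z : I} (hz : z ∈ O) : ∃ p q : ℚ, z ∈ JJ p q ∧ JJ p q ⊆ O := by
  obtain ⟨r, hr, hrO⟩ := Metric.isOpen_iff.mp hO z hz
  obtain ⟨p, hp1, hp2⟩ := exists_rat_btwn (show (z : ℝ) - r < z by linarith)
  obtain ⟨q, hq1, hq2⟩ := exists_rat_btwn (show (z : ℝ) < z + r by linarith)
  refine ⟨p, q, ⟨hp2, hq1⟩, ?_⟩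
  intro t ht
  apply hrO
  rw [Metric.mem_ball, Subtype.dist_eq, Real.dist_eq, abs_lt]
  constructor <;> linarith [ht.1, ht.2]

/-- images of nonempty open sets of times are uncountable -/
lemma Light.not_countable {l : I → X} (hc : Continuous l) (hl : Light l) {O : Set I} (hO : IsOpen O)
    (hne : O.Nonempty) : ¬ (l '' O).Countable := by
  intro hcount
  obtain ⟨z, hz⟩ := hne
  obtain ⟨p, q, hzJ, hJO⟩ := exists_JJ hO hz
  obtain ⟨s, hs, hsz⟩ := hl (JJ p q) (JJ_open p q) ⟨z, hzJ⟩ (l z)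
  have h1 : (l '' JJ p q).Countable := hcount.mono (image_mono hJO)
  have h2 := h1.isTotallyDisconnected
  have h3 := h2 (l '' JJ p q) subset_rfl ((JJ_conn p q).image l hc.continuousOn)
  exact hsz (h3 ⟨s, hs, rfl⟩ ⟨z, hzJ, rfl⟩)

/-- the colour argument -/
lemma connected_of_chains [CompactSpace X] (l : I → X) (hc : Continuous l) (hl : Light l)
    (D : Set I) (hD : Dense D) (𝓖 : Set (Set X)) (B : Set X)
    (hBL : B ⊆ range l)
    (hB : ∀ S : Set X, IsClosed S → ¬ (S ∩ range l).Countable → (B ∩ S).Nonempty)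
    (hg : ∀ g ∈ 𝓖, IsPreconnected g ∧ (g ∩ range l).Nonempty)
    (hch : ∀ p q : ℚ, ∀ a ∈ D, ∀ b ∈ D, a ∈ JJ p q → b ∈ JJ p q → ∀ e : X, l a ≠ e → l b ≠ e →
      Chain l 𝓖 e (JJ p q) a b) :
    IsPreconnected (B ∪ ⋃₀ 𝓖) := by
  rw [isPreconnected_iff_subset_of_disjoint]
  intro u v hu hv hsub hdis
  by_contra hcon
  push Not at hcon
  obtain ⟨hnu, hnv⟩ := hcon
  set C : Set X := B ∪ ⋃₀ 𝓖 with hC
  -- separate by disjoint open sets
  have h1 : Disjoint (closure (C ∩ u)) (C ∩ v) := by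
    rw [Set.disjoint_left]
    rintro x hx ⟨hxC, hxv⟩
    obtain ⟨y, hyv, hyC, hyu⟩ := mem_closure_iff.mp hx v hv hxv
    have : y ∈ C ∩ (u ∩ v) := ⟨hyC, hyu, hyv⟩
    rw [hdis] at this; exact this
  have h2 : Disjoint (C ∩ u) (closure (C ∩ v)) := by
    rw [Set.disjoint_left]
    rintro x ⟨hxC, hxu⟩ hx
    obtain ⟨y, hyu, hyC, hyv⟩ := mem_closure_iff.mp hx u hu hxu
    have : y ∈ C ∩ (u ∩ v) := ⟨hyC, hyu, hyv⟩
    rw [hdis] at this; exact this
  have h3 : SeparatedNhds (C ∩ u) (C ∩ v) := by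
    rw [separatedNhds_iff_disjoint]
    exact CompletelyNormalSpace.completely_normal h1 h2
  obtain ⟨U, V, hU, hV, hCU, hCV, hUV⟩ := h3
  have hcov : C ⊆ U ∪ V := by
    intro x hx
    rcases hsub hx with h | h
    · exact Or.inl (hCU ⟨hx, h⟩)
    · exact Or.inr (hCV ⟨hx, h⟩)
  have hCUne : (C ∩ U).Nonempty := by
    obtain ⟨x, hx, hxv⟩ := not_subset.mp hnv
    exact ⟨x, hx, hCU ⟨hx, (hsub hx).resolve_right hxv⟩⟩
  have hCVne : (C ∩ V).Nonempty := by
    obtain ⟨x, hx, hxu⟩ := not_subset.mp hnu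
    exact ⟨x, hx, hCV ⟨hx, (hsub hx).resolve_left hxu⟩⟩
  -- members of `𝓖` have one colour
  have hgU : ∀ g ∈ 𝓖, (g ∩ U).Nonempty → g ⊆ U := by
    intro g hgm hne
    have hgC : g ⊆ U ∪ V := (subset_sUnion_of_mem hgm).trans (subset_union_right.trans hcov)
    apply (hg g hgm).1.subset_left_of_subset_union hU hV hUV hgC hne
  have hgV : ∀ g ∈ 𝓖, (g ∩ V).Nonempty → g ⊆ V := by
    intro g hgm hne
    have hgC : g ⊆ U ∪ V := (subset_sUnion_of_mem hgm).trans (subset_union_right.trans hcov)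
    apply (hg g hgm).1.subset_right_of_subset_union hU hV hUV hgC hne
  -- both colours occur on the path
  have key : ∀ W : Set X, (C ∩ W).Nonempty → (∀ g ∈ 𝓖, (g ∩ W).Nonempty → g ⊆ W) →
      (l ⁻¹' W).Nonempty := by
    rintro W ⟨x, hxC, hxW⟩ hW
    rcases hxC with h | ⟨g, hgm, hxg⟩
    · obtain ⟨s, rfl⟩ := hBL h
      exact ⟨s, hxW⟩
    · obtain ⟨y, hyg, s, rfl⟩ := (hg g hgm).2
      exact ⟨s, hW g hgm ⟨x, hxg, hxW⟩ hyg⟩
  have hlU := key U hCUne hgU
  have hlV := key V hCVne hgV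
  have hlUo : IsOpen (l ⁻¹' U) := hU.preimage hc
  have hlVo : IsOpen (l ⁻¹' V) := hV.preimage hc
  -- the separator is countable on the path
  set S : Set X := (U ∪ V)ᶜ with hS
  have hScl : IsClosed S := (hU.union hV).isClosed_compl
  have hScount : (S ∩ range l).Countable := by
    by_contra hun
    obtain ⟨x, hxB, hxS⟩ := hB S hScl hun
    exact hxS (hcov (Or.inl hxB))
  -- closures of the two colours cover
  have hclos : ∀ s : I, s ∈ closure (l ⁻¹' U) ∪ closure (l ⁻¹' V) := by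
    intro s
    rw [← closure_union, mem_closure_iff]
    intro O hO hsO
    by_contra hno
    have h4 : l '' O ⊆ S ∩ range l := by
      rintro _ ⟨t, ht, rfl⟩
      refine ⟨?_, t, rfl⟩
      intro hx
      exact hno ⟨t, ht, hx⟩
    exact hl.not_countable hc hO ⟨s, hsO⟩ (hScount.mono h4)
  set Z : Set I := closure (l ⁻¹' U) ∩ closure (l ⁻¹' V) with hZ
  have hZcl : IsClosed Z := isClosed_closure.inter isClosed_closure
  have hZne : Z.Nonempty := by
    by_contra hno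
    have h5 := isPreconnected_closed_iff.mp (isPreconnected_univ (α := I)) (closure (l ⁻¹' U))
      (closure (l ⁻¹' V)) isClosed_closure isClosed_closure (fun s _ => hclos s)
      (by obtain ⟨s, hs⟩ := hlU; exact ⟨s, mem_univ _, subset_closure hs⟩)
      (by obtain ⟨s, hs⟩ := hlV; exact ⟨s, mem_univ _, subset_closure hs⟩)
    obtain ⟨s, -, hs⟩ := h5
    exact hno ⟨s, hs⟩
  have hUVcl : ∀ s, s ∈ l ⁻¹' U → s ∉ closure (l ⁻¹' V) := by
    intro s hs hs'
    obtain ⟨t, ht1, ht2⟩ := mem_closure_iff.mp hs' _ hlUo hs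
    exact Set.disjoint_left.mp hUV ht1 ht2
  have hVUcl : ∀ s, s ∈ l ⁻¹' V → s ∉ closure (l ⁻¹' U) := by
    intro s hs hs'
    obtain ⟨t, ht1, ht2⟩ := mem_closure_iff.mp hs' _ hlVo hs
    exact Set.disjoint_left.mp hUV ht2 ht1
  have hZS : ∀ s ∈ Z, l s ∈ S ∩ range l := by
    rintro s ⟨hs1, hs2⟩
    refine ⟨?_, s, rfl⟩
    rintro (h | h)
    · exact hUVcl s h hs2
    · exact hVUcl s h hs1
  -- Baire
  obtain ⟨e, O, hO, heS, hOZ, hOe⟩ : ∃ (e : X) (O : Set I), IsOpen O ∧ e ∈ S ∧ (O ∩ Z).Nonempty ∧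
      ∀ s ∈ O ∩ Z, l s = e := by
    have : CompactSpace Z := isCompact_iff_compactSpace.mp hZcl.isCompact
    have : Nonempty Z := hZne.to_subtype
    have : Countable (S ∩ range l : Set X) := hScount.to_subtype
    obtain ⟨e, he⟩ := nonempty_interior_of_iUnion_of_closed
      (f := fun e : (S ∩ range l : Set X) => {s : Z | l s = e})
      (fun e => isClosed_eq (hc.comp continuous_subtype_val) continuous_const)
      (by
        apply eq_univ_of_forall
        intro s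
        rw [mem_iUnion]
        exact ⟨⟨l s, hZS s s.2⟩, rfl⟩)
    obtain ⟨s, hs⟩ := he
    obtain ⟨O, hO, hOs⟩ := isOpen_induced_iff.mp (isOpen_interior
      (s := {s : Z | l s = e}))
    refine ⟨e, O, hO, e.2.1, ⟨s, ?_, s.2⟩, ?_⟩
    · have : s ∈ (Subtype.val ⁻¹' O : Set Z) := by rw [hOs]; exact hs
      exact this
    · rintro t ⟨htO, htZ⟩
      have : (⟨t, htZ⟩ : Z) ∈ (Subtype.val ⁻¹' O : Set Z) := htO
      rw [hOs] at this
      have h := interior_subset this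
      exact h
  obtain ⟨z, hzO, hzZ⟩ := hOZ
  obtain ⟨p, q, hzJ, hJO⟩ := exists_JJ hO hzO
  obtain ⟨a, haJ, haU⟩ := mem_closure_iff.mp hzZ.1 _ (JJ_open p q) hzJ
  obtain ⟨a, ⟨haJ, haU⟩, haD⟩ := hD.inter_open_nonempty _ ((JJ_open p q).inter hlUo) ⟨a, haJ, haU⟩
  obtain ⟨b, hbJ, hbV⟩ := mem_closure_iff.mp hzZ.2 _ (JJ_open p q) hzJ
  obtain ⟨b, ⟨hbJ, hbV⟩, hbD⟩ := hD.inter_open_nonempty _ ((JJ_open p q).inter hlVo) ⟨b, hbJ, hbV⟩
  have hae : l a ≠ e := by
    intro h; apply heS; left; rw [← h]; exact haU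
  have hbe : l b ≠ e := by
    intro h; apply heS; right; rw [← h]; exact hbV
  have hchain := hch p q a haD b hbD haJ hbJ e hae hbe
  -- the colour is constant along the chain
  have hcol : b ∉ closure (l ⁻¹' V) := by
    clear hbV hbD hbe hbJ
    induction hchain with
    | refl => exact hUVcl a haU
    | @tail c d _ hcd ih =>
      obtain ⟨hcJ, hdJ, ⟨hsub', hne⟩ | ⟨g, hgm, h6, h7⟩⟩ := hcd
      · intro hd
        -- the interval misses `Z`
        have hmiss : ∀ t ∈ uIcc c d, t ∉ Z := by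
          intro t ht htZ
          exact hne t ht (hOe t ⟨hJO (hsub' ht), htZ⟩)
        have h8 := isPreconnected_closed_iff.mp (isPreconnected_uIcc (a := c) (b := d))
          (closure (l ⁻¹' U)) (closure (l ⁻¹' V)) isClosed_closure isClosed_closure
          (fun s _ => hclos s) ⟨c, left_mem_uIcc, (hclos c).resolve_right ih⟩
          ⟨d, right_mem_uIcc, hd⟩
        obtain ⟨t, ht, htZ⟩ := h8
        exact hmiss t ht htZ
      · have hcU : l c ∈ U := by
          have h9 : l c ∈ U ∪ V := hcov (Or.inr ⟨g, hgm, h6⟩)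
          rcases h9 with h | h
          · exact h
          · exact absurd (subset_closure (show c ∈ l ⁻¹' V from h)) ih
        exact hUVcl d (hgU g hgm ⟨l c, h6, hcU⟩ h7)
  exact hcol (subset_closure hbV)

theorem part3 [CompactSpace X] (l : I → X) (hc : Continuous l) (hl : Light l) (H : Set X → Prop)
    (hH0 : H ∅)
    (hch : ∀ Γ : Set X, H Γ → ∀ J : Set I, IsOpen J → IsPreconnected J → ∀ a ∈ J, ∀ b ∈ J,
      ∀ e : X, l a ≠ e → l b ≠ e →
      ∃ G : Set (Set X), G.Finite ∧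
        (∀ g ∈ G, IsConnected g ∧ IsCompact g ∧ (g ∩ range l).Finite ∧ (g ∩ range l).Nonempty ∧
          Disjoint g Γ) ∧
        (∀ Γ' : Set X, H Γ' → H (Γ' ∪ ⋃₀ G)) ∧ Chain l G e J a b) :
    ¬ Null X := by
  classical
  intro hN
  obtain ⟨D, hDc, hDd⟩ := TopologicalSpace.exists_countable_dense I
  -- tasks: class, times, interval, radius
  let T : Type := ℕ × D × D × (ℚ × ℚ) × ℕ
  have : Countable D := hDc.to_subtype
  have hDne : Nonempty D := by
    obtain ⟨x, hx⟩ := hDd.nonempty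
    exact ⟨⟨x, hx⟩⟩
  have : Nonempty T := ⟨⟨0, hDne.some, hDne.some, (0, 0), 0⟩⟩
  obtain ⟨τ, hτ⟩ := exists_surjective_nat T
  have hst : ∀ (Γ : {Γ : Set X // H Γ}) (t : T), ∃ G : Set (Set X), Good l H Γ.1 G ∧
      ((t.2.1 : I) ∈ JJ t.2.2.2.1.1 t.2.2.2.1.2 → (t.2.2.1 : I) ∈ JJ t.2.2.2.1.1 t.2.2.2.1.2 →
        ∀ e : X, 1 / ((t.2.2.2.2 : ℝ) + 1) ≤ dist e (l t.2.1) →
          1 / ((t.2.2.2.2 : ℝ) + 1) ≤ dist e (l t.2.2.1) →
          Chain l G e (JJ t.2.2.2.1.1 t.2.2.2.1.2) t.2.1 t.2.2.1) := by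
    intro Γ t
    by_cases h1 : (t.2.1 : I) ∈ JJ t.2.2.2.1.1 t.2.2.2.1.2
    · by_cases h2 : (t.2.2.1 : I) ∈ JJ t.2.2.2.1.1 t.2.2.2.1.2
      · obtain ⟨G, hG1, hG2⟩ := stage l hc H hch Γ.1 Γ.2 _ (JJ_open _ _) (JJ_conn _ _) _ h1 _ h2
          (1 / ((t.2.2.2.2 : ℝ) + 1)) (by positivity)
        exact ⟨G, hG1, fun _ _ => hG2⟩
      · exact ⟨∅, ⟨finite_empty, by simp, by simp⟩, fun _ h => absurd h h2⟩
    · exact ⟨∅, ⟨finite_empty, by simp, by simp⟩, fun h => absurd h h1⟩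
  choose G hG1 hG2 using hst
  -- the recursion
  let st : ℕ → {Γ : Set X // H Γ} := fun n => Nat.rec ⟨∅, hH0⟩
    (fun n Γ => ⟨Γ.1 ∪ ⋃₀ (G Γ (τ n)), (hG1 Γ (τ n)).2.2 _ Γ.2⟩) n
  have hst0 : (st 0).1 = ∅ := rfl
  have hstS : ∀ n, (st (n + 1)).1 = (st n).1 ∪ ⋃₀ (G (st n) (τ n)) := fun n => rfl
  have hmono : ∀ m n, m ≤ n → (st m).1 ⊆ (st n).1 := by
    intro m n hmn
    induction n, hmn using Nat.le_induction with
    | base => exact subset_rfl
    | succ n _ ih => rw [hstS]; exact ih.trans subset_union_left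
  let 𝓖 : ℕ → Set (Set X) := fun n => G (st n) (τ n)
  have h𝓖 : ∀ n, ∀ g ∈ 𝓖 n, IsConnected g ∧ IsCompact g ∧ (g ∩ range l).Finite ∧
      (g ∩ range l).Nonempty ∧ Disjoint g (st n).1 := fun n => (hG1 (st n) (τ n)).2.1
  have hdis : ∀ m n, m < n → ∀ g ∈ 𝓖 m, ∀ g' ∈ 𝓖 n, Disjoint g g' := by
    intro m n hmn g hg g' hg'
    have h1 : g ⊆ (st n).1 := by
      refine Subset.trans ?_ (hmono (m + 1) n hmn)
      rw [hstS]
      exact (subset_sUnion_of_mem hg).trans subset_union_right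
    exact ((h𝓖 n g' hg').2.2.2.2.mono_right h1).symm
  -- Bernstein sets
  let A : Set X := ⋃ n, ⋃ g ∈ 𝓖 n, (g ∩ range l)
  have hA : A.Countable := by
    apply countable_iUnion
    intro n
    apply ((hG1 (st n) (τ n)).1.countable).biUnion
    intro g hg
    exact (h𝓖 n g hg).2.2.1.countable
  obtain ⟨B, hB1, hB2, hB3⟩ := bernstein X A hA
  have hLc : IsCompact (range l) := isCompact_range hc
  let B' : ℕ → Set X := fun k => B k ∩ range l
  have hB'3 : ∀ k, ∀ S : Set X, IsClosed S → ¬ (S ∩ range l).Countable → (B' k ∩ S).Nonempty := by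
    intro k S hS hun
    obtain ⟨x, hx1, hx2, hx3⟩ := hB3 k _ (hS.inter hLc.isClosed) hun
    exact ⟨x, ⟨hx1, hx3⟩, hx2⟩
  -- the disjoint connected sets
  let 𝓚 : ℕ → Set (Set X) := fun k => ⋃ n ∈ {n | (τ n).1 = k}, 𝓖 n
  let C : ℕ → Set X := fun k => B' k ∪ ⋃₀ (𝓚 k)
  have hconn : ∀ k, IsPreconnected (C k) := by
    intro k
    apply connected_of_chains l hc hl D hDd (𝓚 k) (B' k) inter_subset_right (hB'3 k)
    · intro g hg
      simp only [𝓚, mem_iUnion, exists_prop] at hg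
      obtain ⟨n, -, hgn⟩ := hg
      exact ⟨(h𝓖 n g hgn).1.isPreconnected, (h𝓖 n g hgn).2.2.2.1⟩
    · intro p q a haD b hbD haJ hbJ e hae hbe
      have h1 : 0 < dist e (l a) := dist_pos.mpr (Ne.symm hae)
      have h2 : 0 < dist e (l b) := dist_pos.mpr (Ne.symm hbe)
      obtain ⟨j, hj⟩ := exists_nat_one_div_lt (lt_min h1 h2)
      obtain ⟨n, hn⟩ := hτ (k, ⟨a, haD⟩, ⟨b, hbD⟩, (p, q), j)
      have h3 := hG2 (st n) (τ n)
      rw [hn] at h3
      have h4 := h3 haJ hbJ e ((hj.le).trans (min_le_left _ _)) ((hj.le).trans (min_le_right _ _))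
      refine Chain.gmono ?_ h4
      intro g hg
      simp only [𝓚, mem_iUnion, exists_prop]
      refine ⟨n, ?_, ?_⟩
      · show (τ n).1 = k
        rw [hn]
      · show g ∈ G (st n) (τ n)
        rw [hn]; exact hg
  -- density of the Bernstein sets
  have hdense : ∀ k (s : I) (ε : ℝ), 0 < ε → ∃ x ∈ B' k, dist x (l s) ≤ ε := by
    intro k s ε hε
    have h1 : ¬ (Metric.closedBall (l s) ε ∩ range l).Countable := by
      intro hcount
      have hO : IsOpen (l ⁻¹' Metric.ball (l s) ε) := Metric.isOpen_ball.preimage hc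
      refine hl.not_countable hc hO ⟨s, Metric.mem_ball_self hε⟩ (hcount.mono ?_)
      rintro _ ⟨t, ht, rfl⟩
      exact ⟨Metric.ball_subset_closedBall ht, t, rfl⟩
    obtain ⟨x, hx1, hx2⟩ := hB'3 k _ Metric.isClosed_closedBall h1
    exact ⟨x, hx1, hx2⟩
  obtain ⟨s1, -, hs1⟩ := hl univ isOpen_univ univ_nonempty (l 0)
  have hpos : 0 < dist (l s1) (l 0) := dist_pos.mpr hs1
  refine hN (dist (l s1) (l 0) / 2) (by linarith) C ?_ ?_ ?_
  · intro k
    refine ⟨?_, hconn k⟩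
    obtain ⟨x, hx, -⟩ := hdense k 0 1 one_pos
    exact ⟨x, Or.inl hx⟩
  · intro i j hij
    refine Set.disjoint_left.mpr ?_
    have hBA : ∀ k, ∀ x ∈ B' k, ∀ n, ∀ g ∈ 𝓖 n, x ∉ g := by
      intro k x hx n g hg hxg
      refine Set.disjoint_left.mp (hB2 k) hx.1 ?_
      simp only [A, mem_iUnion, exists_prop]
      exact ⟨n, g, hg, hxg, hx.2⟩
    rintro x (hx | ⟨g, hg, hxg⟩) (hx' | ⟨g', hg', hxg'⟩)
    · exact Set.disjoint_left.mp (hB1 hij) hx.1 hx'.1
    · simp only [𝓚, mem_iUnion, exists_prop] at hg'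
      obtain ⟨n, -, hgn⟩ := hg'
      exact hBA i x hx n g' hgn hxg'
    · simp only [𝓚, mem_iUnion, exists_prop] at hg
      obtain ⟨n, -, hgn⟩ := hg
      exact hBA j x hx' n g hgn hxg
    · simp only [𝓚, mem_iUnion, exists_prop] at hg hg'
      obtain ⟨n, hn, hgn⟩ := hg
      obtain ⟨n', hn', hgn'⟩ := hg'
      have hne : n ≠ n' := by
        rintro rfl
        apply hij
        have h1 : (τ n).1 = i := hn
        have h2 : (τ n).1 = j := hn'
        rw [← h1, h2]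
      rcases lt_or_gt_of_ne hne with h | h
      · exact Set.disjoint_left.mp (hdis n n' h g hgn g' hgn') hxg hxg'
      · exact Set.disjoint_left.mp (hdis n' n h g' hgn' g hgn) hxg' hxg
  · intro k
    obtain ⟨x, hx, hx'⟩ := hdense k s1 (dist (l s1) (l 0) / 4) (by linarith)
    obtain ⟨y, hy, hy'⟩ := hdense k 0 (dist (l s1) (l 0) / 4) (by linarith)
    have h1 : dist x y ≤ Metric.diam (C k) := diam_of_mem (Or.inl hx) (Or.inl hy)
    have h2 := dist_triangle4 (l s1) x y (l 0)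
    rw [dist_comm (l s1) x] at h2
    linarith

end Pool.Agent.Helper451.Reg
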