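import Pool.Agent.Helper451.Reg.R2

set_option autoImplicit false
open Set Filter Topology unitInterval

namespace Pool.Agent.Helper451.Reg
variable {X : Type*} [MetricSpace X]

namespace Rep

/-- running oscillation after time `u` -/
noncomputable def g (l : I → X) (u s : I) : ℝ := dist (l (max s u)) (l u)

noncomputable def R (l : I → X) (u t : I) : ℝ := sSup ((fun s => g l u (min s t)) '' univ)

variable {l : I → X}

theorem g_cont (hc : Continuous l) (u : I) : Continuous (g l u) := by
  unfold g
  exact (hc.comp (continuous_id.max continuous_const)).dist continuous_const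

theorem R_cont (hc : Continuous l) (u : I) : Continuous (R l u) := by
  unfold R
  apply IsCompact.continuous_sSup isCompact_univ (f := fun t s => g l u (min s t))
  exact (g_cont hc u).comp (continuous_snd.min continuous_fst)

theorem bddR (hc : Continuous l) (u t : I) :
    BddAbove ((fun s => g l u (min s t)) '' univ) :=
  (isCompact_univ.image ((g_cont hc u).comp (continuous_id.min continuous_const))).bddAbove

theorem le_R (hc : Continuous l) {u s t : I} (hst : s ≤ t) : g l u s ≤ R l u t := by
  apply le_csSup (bddR hc u t)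
  exact ⟨s, mem_univ _, by simp [min_eq_left hst]⟩

theorem R_le {u t : I} {B : ℝ} (h : ∀ s ≤ t, g l u s ≤ B) : R l u t ≤ B := by
  apply csSup_le (univ_nonempty.image _)
  rintro _ ⟨s, -, rfl⟩
  exact h _ (min_le_right _ _)

theorem g_nonneg (u s : I) : 0 ≤ g l u s := dist_nonneg

theorem R_mono (hc : Continuous l) (u : I) : Monotone (R l u) := by
  intro t t' htt'
  exact R_le fun s hs => le_R hc (hs.trans htt')

theorem R_nonneg (hc : Continuous l) (u t : I) : 0 ≤ R l u t :=
  (g_nonneg u t).trans (le_R hc le_rfl)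

theorem R_eq_zero (hc : Continuous l) {u t : I} (h : t ≤ u) : R l u t = 0 := by
  apply le_antisymm _ (R_nonneg hc u t)
  apply R_le
  intro s hs
  unfold g
  rw [max_eq_right (hs.trans h), dist_self]

theorem R_const (hc : Continuous l) {u s t : I} (hst : s ≤ t) (h : ∀ w ∈ Icc s t, l w = l s) :
    R l u t = R l u s := by
  apply le_antisymm _ (R_mono hc u hst)
  apply R_le
  intro w hw
  rcases le_total w s with h1 | h1
  · exact le_R hc h1
  · rcases le_total u s with h2 | h2
    · have : g l u w = g l u s := by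
        unfold g
        rw [max_eq_left (h2.trans h1), max_eq_left h2, h w ⟨h1, hw⟩]
      rw [this]
      exact le_R hc le_rfl
    · rw [R_eq_zero hc h2]
      unfold g
      rcases le_total u w with h3 | h3
      · rw [max_eq_left h3, h w ⟨h1, hw⟩, h u ⟨h2, h3.trans hw⟩, dist_self]
      · rw [max_eq_right h3, dist_self]

noncomputable def P (l : I → X) (t : I) : ℝ := ∑' n : ℕ, (1 / 2 : ℝ) ^ n * R l (TopologicalSpace.denseSeq I n) t

theorem exists_bound (hc : Continuous l) : ∃ B, 0 ≤ B ∧ ∀ u t, R l u t ≤ B := by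
  have hb : Bornology.IsBounded (range l) := (isCompact_range hc).isBounded
  refine ⟨Metric.diam (range l), Metric.diam_nonneg, ?_⟩
  intro u t
  apply R_le
  intro s _
  exact Metric.dist_le_diam_of_mem hb (mem_range_self _) (mem_range_self _)

theorem summ (hc : Continuous l) (t : I) :
    Summable fun n : ℕ => (1 / 2 : ℝ) ^ n * R l (TopologicalSpace.denseSeq I n) t := by
  obtain ⟨B, hB0, hB⟩ := exists_bound hc
  apply Summable.of_nonneg_of_le (f := fun n : ℕ => (1 / 2 : ℝ) ^ n * B)
  · intro n
    exact mul_nonneg (by positivity) (R_nonneg hc _ _)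
  · intro n
    exact mul_le_mul_of_nonneg_left (hB _ _) (by positivity)
  · exact (summable_geometric_of_lt_one (by norm_num) (by norm_num)).mul_right B

theorem P_cont (hc : Continuous l) : Continuous (P l) := by
  obtain ⟨B, hB0, hB⟩ := exists_bound hc
  unfold P
  apply continuous_tsum (u := fun n : ℕ => (1 / 2 : ℝ) ^ n * B)
  · intro n
    exact continuous_const.mul (R_cont hc _)
  · exact (summable_geometric_of_lt_one (by norm_num) (by norm_num)).mul_right B
  · intro n t
    rw [Real.norm_eq_abs, abs_of_nonneg (mul_nonneg (by positivity) (R_nonneg hc _ _))]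
    exact mul_le_mul_of_nonneg_left (hB _ _) (by positivity)

theorem P_mono (hc : Continuous l) : Monotone (P l) := by
  intro s t hst
  apply (summ hc s).tsum_le_tsum _ (summ hc t)
  intro n
  exact mul_le_mul_of_nonneg_left (R_mono hc _ hst) (by positivity)

theorem P_const (hc : Continuous l) {s t : I} (hst : s ≤ t) (h : ∀ w ∈ Icc s t, l w = l s) :
    P l t = P l s := by
  unfold P
  congr 1
  ext n
  rw [R_const hc hst h]

theorem P_lt (hc : Continuous l) {s t : I} (hst : s ≤ t) (h : ∃ w ∈ Icc s t, l w ≠ l s) :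
    P l s < P l t := by
  obtain ⟨v, hv, hne⟩ := h
  have hsv : s < v := lt_of_le_of_ne hv.1 (fun h => hne (by rw [h]))
  have hd : 0 < dist (l v) (l s) := dist_pos.2 hne
  have hnb : {w : I | dist (l w) (l s) < dist (l v) (l s)} ∈ 𝓝 s := by
    have : Tendsto (fun w => dist (l w) (l s)) (𝓝 s) (𝓝 (dist (l s) (l s))) :=
      (hc.dist continuous_const).tendsto s
    rw [dist_self] at this
    exact this.eventually (gt_mem_nhds hd)
  have hnb2 : {w : I | dist (l w) (l s) < dist (l v) (l s)} ∩ Iio v ∈ 𝓝 s :=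
    inter_mem hnb (Iio_mem_nhds hsv)
  obtain ⟨b, hb, hbsub⟩ := exists_Ico_subset_of_mem_nhds hnb2 ⟨v, hsv⟩
  have hne2 : (Ioo s b).Nonempty := nonempty_Ioo.2 hb
  obtain ⟨u, hu, n, hn⟩ : ∃ u ∈ Ioo s b, u ∈ range (TopologicalSpace.denseSeq I) := by
    obtain ⟨i, hi⟩ := (TopologicalSpace.denseRange_denseSeq I).exists_mem_open isOpen_Ioo hne2
    exact ⟨_, hi, i, rfl⟩
  have hu2 := hbsub ⟨hu.1.le, hu.2⟩
  have hlu : l v ≠ l u := by
    intro h
    have := hu2.1
    rw [mem_ofPred_eq, ← h] at this
    exact lt_irrefl _ this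
  have hlt : R l u s < R l u t := by
    rw [R_eq_zero hc hu.1.le]
    have h1 : g l u v ≤ R l u t := le_R hc hv.2
    have h2 : 0 < g l u v := by
      unfold g
      rw [max_eq_left (le_of_lt hu2.2)]
      exact dist_pos.2 hlu
    linarith
  apply (summ hc s).tsum_lt_tsum (i := n) _ _ (summ hc t)
  · intro k
    exact mul_le_mul_of_nonneg_left (R_mono hc _ hst) (by positivity)
  · rw [hn]
    exact mul_lt_mul_of_pos_left hlt (by positivity)

end Rep

open Reg.Rep in
/-- PART 1b: reparametrisation -/
theorem reparam (l : I → X) (hc : Continuous l) (h01 : l 0 ≠ l 1) :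
    ∃ (m : I → X) (p : I → I), Continuous m ∧ Continuous p ∧ Monotone p ∧ Function.Surjective p ∧
      (∀ t, l t = m (p t)) ∧ Light m := by
  have hP0 : P l 0 = 0 := by
    unfold P
    have : ∀ n : ℕ, (1 / 2 : ℝ) ^ n * R l (TopologicalSpace.denseSeq I n) 0 = 0 := by
      intro n
      rw [R_eq_zero hc unitInterval.nonneg', mul_zero]
    exact (tsum_congr this).trans tsum_zero
  have hP1 : 0 < P l 1 := by
    rw [← hP0]
    exact P_lt hc unitInterval.nonneg' ⟨1, ⟨unitInterval.nonneg', le_rfl⟩, h01.symm⟩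
  have hmono := P_mono hc
  have hnn : ∀ t, 0 ≤ P l t := fun t => by rw [← hP0]; exact hmono unitInterval.nonneg'
  have hle : ∀ t, P l t ≤ P l 1 := fun t => hmono unitInterval.le_one'
  let p : I → I := fun t => ⟨P l t / P l 1, div_nonneg (hnn t) hP1.le, (div_le_one hP1).2 (hle t)⟩
  have hpc : Continuous p := ((P_cont hc).div_const _).subtype_mk _
  have hpm : Monotone p := fun s t hst => by
    change P l s / P l 1 ≤ P l t / P l 1
    exact div_le_div_of_nonneg_right (hmono hst) hP1.le
  have hp0 : p 0 = 0 := Subtype.ext (by change P l 0 / P l 1 = 0; rw [hP0, zero_div])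
  have hp1 : p 1 = 1 := Subtype.ext (by change P l 1 / P l 1 = 1; exact div_self hP1.ne')
  have hps : Function.Surjective p := by
    intro y
    have := intermediate_value_univ (0 : I) 1 hpc
    rw [hp0, hp1] at this
    exact this ⟨unitInterval.nonneg', unitInterval.le_one'⟩
  have hkey : ∀ s t : I, s ≤ t → p s = p t → ∀ w ∈ Icc s t, l w = l s := by
    intro s t hst hpst
    by_contra hcon
    push Not at hcon
    obtain ⟨w, hw, hne⟩ := hcon
    have h1 := P_lt hc hst ⟨w, hw, hne⟩
    have h2 : P l s / P l 1 = P l t / P l 1 := congrArg Subtype.val hpst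
    rw [div_left_inj' hP1.ne'] at h2
    linarith
  have hwd : ∀ s t : I, p s = p t → l s = l t := by
    intro s t h
    rcases le_total s t with h1 | h1
    · exact (hkey s t h1 h t ⟨h1, le_rfl⟩).symm
    · exact hkey t s h1 h.symm s ⟨h1, le_rfl⟩
  let m : I → X := fun y => l (Function.surjInv hps y)
  have hm : ∀ t, l t = m (p t) := fun t => hwd _ _ (Function.surjInv_eq hps (p t)).symm
  have hmc : Continuous m := by
    have hq : IsQuotientMap p := hpc.isClosedMap.isQuotientMap hpc hps
    rw [hq.continuous_iff]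
    have : m ∘ p = l := by ext t; exact (hm t).symm
    rw [this]
    exact hc
  refine ⟨m, p, hmc, hpc, hpm, hps, hm, ?_⟩
  intro O hO hne e
  by_contra hcon
  push Not at hcon
  obtain ⟨y, hy⟩ := hne
  -- two points of O with an interval between them
  obtain ⟨a, b, hab, hsub⟩ : ∃ a b : I, a < b ∧ Icc a b ⊆ O := by
    have hOn : O ∈ 𝓝 y := hO.mem_nhds hy
    rcases lt_or_ge y 1 with h1 | h1
    · obtain ⟨b, hb, hbsub⟩ := exists_Ico_subset_of_mem_nhds hOn ⟨1, h1⟩
      obtain ⟨c, hc1, hc2⟩ := exists_between hb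
      exact ⟨y, c, hc1, fun z hz => hbsub ⟨hz.1, lt_of_le_of_lt hz.2 hc2⟩⟩
    · have hy0 : (0 : I) < y := lt_of_lt_of_le zero_lt_one h1
      obtain ⟨b, hb, hbsub⟩ := exists_Ioc_subset_of_mem_nhds hOn ⟨0, hy0⟩
      obtain ⟨c, hc1, hc2⟩ := exists_between hb
      exact ⟨c, y, hc2, fun z hz => hbsub ⟨lt_of_lt_of_le hc1 hz.1, hz.2⟩⟩
  obtain ⟨s, hs⟩ := hps a
  obtain ⟨t, ht⟩ := hps b
  have hst : s ≤ t := by
    by_contra h
    push Not at h
    have := hpm h.le
    rw [hs, ht] at this
    exact absurd hab (not_lt.2 this)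
  have hconst : ∀ w ∈ Icc s t, l w = l s := by
    intro w hw
    have h1 : p w ∈ Icc a b := by
      rw [← hs, ← ht]
      exact ⟨hpm hw.1, hpm hw.2⟩
    have h2 : p s ∈ Icc a b := by
      rw [hs]
      exact ⟨le_rfl, hab.le⟩
    rw [hm w, hm s, hcon _ (hsub h1), hcon _ (hsub h2)]
  have h3 := P_const hc hst hconst
  have h4 : p s = p t := Subtype.ext (by
    change P l s / P l 1 = P l t / P l 1
    rw [h3])
  rw [hs, ht] at h4
  exact absurd h4 hab.ne

end Pool.Agent.Helper451.Reg
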