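import Pool.Agent.Helper451.Reg.R9
import Pool.Agent.Helper451.Reg.P1
import Pool.Agent.Helper451.Reg.P3
import Pool.Agent.Helper451.Reg.Rp
import Pool.Agent.Helper451.Reg.Ez

set_option autoImplicit false
open Set Filter Topology unitInterval

namespace Pool.Agent.Helper451.Reg

theorem hard (X : Type) [MetricSpace X] [CompactSpace X] [ConnectedSpace X] (hN : Null X) : Rim X := by
  have : LocallyConnectedSpace X := locConn hN
  intro x U hU hx
  by_contra hno
  obtain ⟨l0, hc0, h01, hU0⟩ := exists_unp hN hU hx hno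
  obtain ⟨l1, p, hc1, hp, hpm, hps, hlm, hl1⟩ := reparam l0 hc0 h01
  have hU1 : Unp l1 := Unp.reparam hp hpm hps hlm hU0
  have h01' : l1 0 ≠ l1 1 := by
    have hp0 : p 0 = 0 := by
      obtain ⟨t, ht⟩ := hps 0
      have h := hpm (show (0 : I) ≤ t from unitInterval.nonneg')
      rw [ht] at h
      exact le_antisymm h unitInterval.nonneg'
    have hp1 : p 1 = 1 := by
      obtain ⟨t, ht⟩ := hps 1
      have h := hpm (show t ≤ (1 : I) from unitInterval.le_one')
      rw [ht] at h
      exact le_antisymm unitInterval.le_one' h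
    rw [hlm, hlm, hp0, hp1] at h01
    exact h01
  obtain ⟨m, hm, hml, hH, hS⟩ := good_path_of (fun l hc h => reparam l hc h) hc1 hl1 hU1 h01'
  exact part3 m hm hml (H m) hH (fun Γ hΓ J hJ hJc a ha b hb e hae hbe =>
    chain_lemma hN hm hml hS hΓ hJ hJc ha hb hae hbe) hN

theorem final :
    ∀ (X : Type) [MetricSpace X] [CompactSpace X] [ConnectedSpace X],
      ((∀ x : X, ∀ U : Set X, IsOpen U → x ∈ U →
          ∃ V : Set X, IsOpen V ∧ x ∈ V ∧ V ⊆ U ∧ (frontier V).Finite) ↔
        (∀ A : ℕ → Set X, (∀ n, IsConnected (A n)) →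
          Pairwise (fun i j => Disjoint (A i) (A j)) →
          Filter.Tendsto (fun n => Metric.diam (A n)) Filter.atTop (nhds 0))) :=
  assemble hard

end Pool.Agent.Helper451.Reg
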