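import Mathlib

set_option autoImplicit false
set_option linter.unusedSectionVars false
set_option linter.unusedVariables false

open Set Filter Topology

namespace Pool.Agent.Helper451.Reg

/-- boundary bumping -/
lemma bump {X : Type*} [TopologicalSpace X] [T2Space X] {C U : Set X} (hC : IsCompact C)
    (hconn : IsPreconnected C) (hU : IsOpen U) {x : X} (hxC : x ∈ C) (hxU : x ∈ U)
    (hCU : ¬ C ⊆ U) :
    ∃ D : Set X, IsCompact D ∧ IsPreconnected D ∧ D ⊆ C ∧ D ⊆ closure U ∧ x ∈ D ∧ ¬ D ⊆ U := by
  set K : Set X := C ∩ closure U with hK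
  have hKc : IsCompact K := hC.inter_right isClosed_closure
  have hxK : x ∈ K := ⟨hxC, subset_closure hxU⟩
  have : CompactSpace K := isCompact_iff_compactSpace.mp hKc
  let x' : K := ⟨x, hxK⟩
  refine ⟨Subtype.val '' connectedComponent x', ?_, ?_, ?_, ?_, ?_, ?_⟩
  · exact (isClosed_connectedComponent.isCompact).image continuous_subtype_val
  · exact isPreconnected_connectedComponent.image _ continuous_subtype_val.continuousOn
  · rintro _ ⟨y, -, rfl⟩; exact y.2.1
  · rintro _ ⟨y, -, rfl⟩; exact y.2.2
  · exact ⟨x', mem_connectedComponent, rfl⟩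
  · intro hsub
    have h1 : connectedComponent x' ⊆ (Subtype.val ⁻¹' U : Set K) := by
      intro y hy; exact hsub ⟨y, hy, rfl⟩
    rw [connectedComponent_eq_iInter_isClopen] at h1
    have hopen : IsOpen (Subtype.val ⁻¹' U : Set K) := hU.preimage continuous_subtype_val
    obtain ⟨Z, hZ, hZx, hZU⟩ : ∃ Z : Set K, IsClopen Z ∧ x' ∈ Z ∧ Z ⊆ Subtype.val ⁻¹' U := by
      have hcomp : IsCompact ((Subtype.val ⁻¹' U : Set K)ᶜ) := hopen.isClosed_compl.isCompact
      by_contra hno
      push Not at hno
      let ι := { Z : Set K // IsClopen Z ∧ x' ∈ Z }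
      have hne : Nonempty ι := ⟨⟨univ, isClopen_univ, mem_univ _⟩⟩
      have hdir : Directed (· ⊇ ·) (fun Z : ι => (Z : Set K)) := by
        intro Z1 Z2
        exact ⟨⟨Z1.1 ∩ Z2.1, Z1.2.1.inter Z2.2.1, Z1.2.2, Z2.2.2⟩, inter_subset_left, inter_subset_right⟩
      have hcl : ∀ Z : ι, IsClosed (Z : Set K) := fun Z => Z.2.1.isClosed
      have hne2 : (⋂ Z : ι, ((Z : Set K) ∩ (Subtype.val ⁻¹' U : Set K)ᶜ)).Nonempty := by
        apply IsCompact.nonempty_iInter_of_directed_nonempty_isCompact_isClosed
        · intro Z1 Z2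
          refine ⟨⟨Z1.1 ∩ Z2.1, Z1.2.1.inter Z2.2.1, Z1.2.2, Z2.2.2⟩, ?_, ?_⟩
          · rintro y ⟨hy1, hy2⟩; exact ⟨hy1.1, hy2⟩
          · rintro y ⟨hy1, hy2⟩; exact ⟨hy1.2, hy2⟩
        · intro Z
          obtain ⟨y, hy, hyU⟩ := Set.not_subset.mp (hno Z.1 Z.2.1 Z.2.2)
          exact ⟨y, hy, hyU⟩
        · intro Z; exact ((hcl Z).inter hopen.isClosed_compl).isCompact
        · intro Z; exact (hcl Z).inter hopen.isClosed_compl
      obtain ⟨y, hy⟩ := hne2
      rw [mem_iInter] at hy
      have hyU : y ∈ (Subtype.val ⁻¹' U : Set K) := by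
        apply h1
        rw [mem_iInter]
        intro Z
        exact (hy ⟨Z.1, Z.2.1, Z.2.2⟩).1
      exact (hy ⟨univ, isClopen_univ, mem_univ _⟩).2 hyU
    obtain ⟨O, hO, hOZ⟩ := isOpen_induced_iff.mp hZ.isOpen
    have hZc : IsClosed (Subtype.val '' Z : Set X) :=
      (hZ.isClosed.isCompact.image continuous_subtype_val).isClosed
    have hcov : C ⊆ (Subtype.val '' Z) ∪ (O ∩ U)ᶜ := by
      intro y hy
      by_cases hyO : y ∈ O ∩ U
      · left
        refine ⟨⟨y, hy, subset_closure hyO.2⟩, ?_, rfl⟩
        rw [← hOZ]; exact hyO.1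
      · right; exact hyO
    obtain ⟨w, hwC, hwU⟩ := Set.not_subset.mp hCU
    have := (isPreconnected_closed_iff.mp hconn) _ _ hZc (hO.inter hU).isClosed_compl hcov
      ⟨x, hxC, x', hZx, rfl⟩ ⟨w, hwC, fun h => hwU h.2⟩
    obtain ⟨y, hyC, ⟨y', hy'Z, rfl⟩, hyO⟩ := this
    apply hyO
    refine ⟨?_, hZU hy'Z⟩
    have : y' ∈ (Subtype.val ⁻¹' O : Set K) := by rw [hOZ]; exact hy'Z
    exact this

/-- condition (ii) in a convenient form -/
def Null (X : Type*) [MetricSpace X] : Prop :=
  ∀ r : ℝ, 0 < r → ∀ A : ℕ → Set X, (∀ n, IsConnected (A n)) →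
    Pairwise (fun i j => Disjoint (A i) (A j)) → ¬ ∀ n, r ≤ Metric.diam (A n)

section comps
variable {X : Type*} [TopologicalSpace X]

lemma comp_closed_in {W : Set X} {x z : X} (hz : z ∈ closure (connectedComponentIn W x)) (hzW : z ∈ W) :
    z ∈ connectedComponentIn W x := by
  by_cases hx : x ∈ W
  · have h1 : IsPreconnected (connectedComponentIn W x ∪ {z}) := by
      apply isPreconnected_connectedComponentIn.subset_closure (t := connectedComponentIn W x ∪ {z})
        subset_union_left
      rintro y (hy | hy)
      · exact subset_closure hy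
      · rw [mem_singleton_iff] at hy; rw [hy]; exact hz
    have h2 := h1.subset_connectedComponentIn (x := x) (F := W)
      (Or.inl (mem_connectedComponentIn hx)) (by
        rintro y (hy | hy)
        · exact connectedComponentIn_subset _ _ hy
        · rw [mem_singleton_iff] at hy; rw [hy]; exact hzW)
    exact h2 (Or.inr rfl)
  · rw [connectedComponentIn_eq_empty hx] at hz; simp at hz

lemma comp_eq_or_disj {W : Set X} {x y : X} :
    connectedComponentIn W x = connectedComponentIn W y ∨
      Disjoint (connectedComponentIn W x) (connectedComponentIn W y) := by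
  by_cases h : Disjoint (connectedComponentIn W x) (connectedComponentIn W y)
  · exact Or.inr h
  · left
    rw [not_disjoint_iff] at h
    obtain ⟨z, h1, h2⟩ := h
    rw [connectedComponentIn_eq h1, connectedComponentIn_eq h2]

/-- a connected set meeting an open set whose boundary it misses is contained in it -/
lemma sub_of_no_frontier {Q C : Set X} (hQ : IsPreconnected Q) (hC : IsOpen C)
    (hne : (Q ∩ C).Nonempty) (h : ∀ z ∈ Q, z ∈ closure C → z ∈ C) : Q ⊆ C := by
  intro q hq
  by_contra hqC
  have := hQ C (closure C)ᶜ hC isClosed_closure.isOpen_compl (by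
    intro z hz
    by_cases h1 : z ∈ closure C
    · exact Or.inl (h z hz h1)
    · exact Or.inr h1) hne ⟨q, hq, fun hc => hqC (h q hq hc)⟩
  obtain ⟨z, -, hz1, hz2⟩ := this
  exact hz2 (subset_closure hz1)

lemma meets_frontier {Q C : Set X} (hQ : IsPreconnected Q) (hC : IsOpen C)
    (hne : (Q ∩ C).Nonempty) (hn : ¬ Q ⊆ C) : ∃ z ∈ Q, z ∈ closure C ∧ z ∉ C := by
  by_contra hno
  push Not at hno
  exact hn (sub_of_no_frontier hQ hC hne hno)

end comps

variable {X : Type*} [MetricSpace X]

lemma Null.finite (hN : Null X) {r : ℝ} (hr : 0 < r) {K : Set (Set X)}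
    (hc : ∀ C ∈ K, IsConnected C) (hd : ∀ C ∈ K, ∀ D ∈ K, C ≠ D → Disjoint C D)
    (hdiam : ∀ C ∈ K, r ≤ Metric.diam C) : K.Finite := by
  by_contra hinf
  have hinf' : K.Infinite := hinf
  let f := hinf'.natEmbedding
  refine hN r hr (fun n => (f n : Set X)) (fun n => hc _ (f n).2) ?_ (fun n => hdiam _ (f n).2)
  intro i j hij
  apply hd _ (f i).2 _ (f j).2
  intro h
  exact hij (f.injective (Subtype.ext h))

/-- components with large diameter -/
def Big (W : Set X) (r : ℝ) : Set (Set X) :=
  {C | ∃ x ∈ W, C = connectedComponentIn W x ∧ r ≤ Metric.diam C}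

lemma Big.finite (hN : Null X) {W : Set X} {r : ℝ} (hr : 0 < r) : (Big W r).Finite := by
  apply hN.finite hr
  · rintro C ⟨x, hx, rfl, -⟩
    exact isConnected_connectedComponentIn_iff.mpr hx
  · rintro C ⟨x, hx, rfl, -⟩ D ⟨y, hy, rfl, -⟩ hne
    rcases comp_eq_or_disj (W := W) (x := x) (y := y) with h | h
    · exact absurd h hne
    · exact h
  · rintro C ⟨x, hx, rfl, h⟩; exact h

lemma diam_of_mem [CompactSpace X] {C : Set X} {x y : X} (hx : x ∈ C) (hy : y ∈ C) : dist x y ≤ Metric.diam C :=
  Metric.dist_le_diam_of_mem (Metric.isBounded_of_compactSpace) hx hy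

lemma locConn [CompactSpace X] [ConnectedSpace X] (hN : Null X) : LocallyConnectedSpace X := by
  have key : ∀ (x : X) (r : ℝ), 0 < r → connectedComponentIn (Metric.closedBall x r) x ∈ 𝓝 x := by
    intro x r hr
    have hxb : x ∈ Metric.closedBall x r := Metric.mem_closedBall_self hr.le
    by_cases huniv : (univ : Set X) ⊆ Metric.ball x r
    · have : connectedComponentIn (Metric.closedBall x r) x = univ := by
        apply eq_univ_of_univ_subset
        apply isPreconnected_univ.subset_connectedComponentIn (mem_univ x)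
        exact huniv.trans Metric.ball_subset_closedBall
      rw [this]; exact univ_mem
    · set K : Set (Set X) := {C | ∃ y ∈ Metric.ball x (r / 2), C = connectedComponentIn (Metric.closedBall x r) y} with hK
      have hsub : Metric.ball x (r/2) ⊆ Metric.closedBall x r :=
        (Metric.ball_subset_ball (by linarith)).trans Metric.ball_subset_closedBall
      have hfin : K.Finite := by
        apply hN.finite (r := r / 2) (by linarith)
        · rintro C ⟨y, hy, rfl⟩
          exact isConnected_connectedComponentIn_iff.mpr (hsub hy)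
        · rintro C ⟨y, hy, rfl⟩ D ⟨z, hz, rfl⟩ hne
          rcases comp_eq_or_disj (W := Metric.closedBall x r) (x := y) (y := z) with h | h
          · exact absurd h hne
          · exact h
        · rintro C ⟨y, hy, rfl⟩
          obtain ⟨D, hD1, hD2, -, hD3, hD4, hD5⟩ := bump (X := X) isCompact_univ isPreconnected_univ
            (Metric.isOpen_ball (x := x) (ε := r)) (mem_univ y)
            (Metric.ball_subset_ball (by linarith : r / 2 ≤ r) hy) huniv
          obtain ⟨z, hz, hzr⟩ := not_subset.mp hD5
          have hDC : D ⊆ connectedComponentIn (Metric.closedBall x r) y := by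
            apply hD2.subset_connectedComponentIn hD4
            exact hD3.trans Metric.closure_ball_subset_closedBall
          have h1 : dist z y ≤ Metric.diam (connectedComponentIn (Metric.closedBall x r) y) :=
            diam_of_mem (hDC hz) (hDC hD4)
          have h2 : r ≤ dist z x := by
            rw [Metric.mem_ball, not_lt] at hzr; exact hzr
          have h3 : dist y x < r / 2 := hy
          have h4 := dist_triangle z y x
          linarith
      -- the union of the members not containing x is closed
      have hcl : IsClosed (⋃ C ∈ {C ∈ K | x ∉ C}, C) := by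
        apply (hfin.subset (sep_subset _ _)).isClosed_biUnion
        rintro C ⟨⟨y, hy, rfl⟩, -⟩
        exact isClosed_of_closure_subset (fun z hz => comp_closed_in hz (by
          have : z ∈ closure (Metric.closedBall x r) := closure_mono (connectedComponentIn_subset _ _) hz
          rwa [Metric.isClosed_closedBall.closure_eq] at this))
      have hx : x ∉ (⋃ C ∈ {C ∈ K | x ∉ C}, C) := by
        rw [mem_iUnion₂]
        rintro ⟨C, hC, hxC⟩
        exact hC.2 hxC
      filter_upwards [hcl.isOpen_compl.mem_nhds hx, Metric.ball_mem_nhds x (half_pos hr)] with y hy1 hy2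
      have h1 : connectedComponentIn (Metric.closedBall x r) y ∈ K := ⟨y, hy2, rfl⟩
      have h2 : x ∈ connectedComponentIn (Metric.closedBall x r) y := by
        by_contra h
        exact hy1 (mem_biUnion (⟨h1, h⟩ : _ ∈ {C ∈ K | x ∉ C}) (mem_connectedComponentIn (hsub hy2)))
      rw [← connectedComponentIn_eq h2]
      exact mem_connectedComponentIn (hsub hy2)
  rw [locallyConnectedSpace_iff_connectedComponentIn_open]
  intro F hF x hx
  rw [isOpen_iff_mem_nhds]
  intro y hy
  have hyF := connectedComponentIn_subset _ _ hy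
  obtain ⟨r, hr, hrF⟩ := Metric.isOpen_iff.mp hF y hyF
  have h1 := key y (r / 2) (by linarith)
  apply mem_of_superset h1
  rw [connectedComponentIn_eq hy]
  apply isPreconnected_connectedComponentIn.subset_connectedComponentIn
  · exact mem_connectedComponentIn (Metric.mem_closedBall_self (by linarith))
  · exact (connectedComponentIn_subset _ _).trans
      ((Metric.closedBall_subset_ball (by linarith)).trans hrF)

end Pool.Agent.Helper451.Reg
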