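import Pool.Agent.Helper451.Reg.R1

set_option autoImplicit false
set_option linter.unusedSectionVars false
set_option linter.unusedVariables false

open Set Filter Topology unitInterval

namespace Pool.Agent.Helper451.Reg
variable {X : Type*} [MetricSpace X]

/-- condition (U) -/
def Unp (l : I → X) : Prop :=
  ∀ a b : I, a < b → ∀ e : X, l a ≠ e → l b ≠ e → ∀ η : ℝ, 0 < η →
    ∃ M : Set X, IsPreconnected M ∧ M ⊆ Metric.thickening η (l '' Icc a b) ∧ e ∉ M ∧ l a ∈ M ∧ l b ∈ M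

/-- not constant on any non-empty open set -/
def Light (l : I → X) : Prop :=
  ∀ O : Set I, IsOpen O → O.Nonempty → ∀ e : X, ∃ s ∈ O, l s ≠ e

/-- one step of a chain -/
def Step (l : I → X) (G : Set (Set X)) (e : X) (J : Set I) (s t : I) : Prop :=
  s ∈ J ∧ t ∈ J ∧ ((uIcc s t ⊆ J ∧ ∀ u ∈ uIcc s t, l u ≠ e) ∨ ∃ g ∈ G, l s ∈ g ∧ l t ∈ g)

def Chain (l : I → X) (G : Set (Set X)) (e : X) (J : Set I) : I → I → Prop :=
  Relation.ReflTransGen (Step l G e J)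

/-- local version at all points -/
def L1 (l : I → X) : Prop := ∀ (t : I) (r : ℝ), 0 < r → ∃ M : Set X, IsPreconnected M ∧
  M ⊆ Metric.ball (l t) r \ {l t} ∧ ∀ᶠ s in 𝓝 t, l s ≠ l t → l s ∈ M

def H (l : I → X) (Γ : Set X) : Prop := IsClosed Γ ∧ ∀ (t : I) (r : ℝ), 0 < r → ∃ M : Set X,
  IsPreconnected M ∧ M ⊆ Metric.ball (l t) r \ {l t} ∧ Disjoint M Γ ∧ ∀ᶠ s in 𝓝 t, l s ≠ l t → l s ∈ M

def Safe (l : I → X) (g : Set X) : Prop :=
  IsClosed g ∧ (g ∩ range l).Finite ∧ ∀ Γ, H l Γ → H l (Γ ∪ g)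

/-- the germ component -/
def Dc (l : I → X) (r : ℝ) (t : I) : Set X :=
  {x | ∀ᶠ s in 𝓝 t, l s ≠ l t → x ∈ connectedComponentIn (Metric.ball (l t) r \ {l t}) (l s)}

lemma H_empty {l : I → X} (h : L1 l) : H l ∅ := by
  refine ⟨isClosed_empty, fun t r hr => ?_⟩
  obtain ⟨M, h1, h2, h3⟩ := h t r hr
  exact ⟨M, h1, h2, disjoint_empty M, h3⟩

lemma H.L1 {l : I → X} {Γ : Set X} (h : H l Γ) : L1 l := by
  intro t r hr
  obtain ⟨M, h1, h2, h3, h4⟩ := h.2 t r hr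
  exact ⟨M, h1, h2, h4⟩

section germ
variable {l : I → X}

lemma Light.freq (hl : Light l) (t : I) (e : X) : ∃ᶠ s in 𝓝 t, l s ≠ e := by
  rw [frequently_iff]
  intro U hU
  obtain ⟨O, hO, hOo, hOt⟩ := mem_nhds_iff.mp hU
  obtain ⟨s, hs, hne⟩ := hl O hOo ⟨t, hOt⟩ e
  exact ⟨s, hO hs, hne⟩

lemma Dc_spec (h1 : L1 l) (hl : Light l) (t : I) {r : ℝ} (hr : 0 < r) :
    ∃ M : Set X, IsPreconnected M ∧ M ⊆ Metric.ball (l t) r \ {l t} ∧ M.Nonempty ∧
      (∀ᶠ s in 𝓝 t, l s ≠ l t → l s ∈ M) ∧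
      ∀ x ∈ M, Dc l r t = connectedComponentIn (Metric.ball (l t) r \ {l t}) x := by
  obtain ⟨M, hM1, hM2, hM3⟩ := h1 t r hr
  obtain ⟨s0, hs0, hs0M⟩ := ((hl.freq t (l t)).and_eventually hM3).exists
  refine ⟨M, hM1, hM2, ⟨l s0, hs0M hs0⟩, hM3, ?_⟩
  intro x hx
  have hsub : M ⊆ connectedComponentIn (Metric.ball (l t) r \ {l t}) x :=
    hM1.subset_connectedComponentIn hx hM2
  ext y
  constructor
  · intro hy
    obtain ⟨s, hs, hs1, hs2⟩ := ((hl.freq t (l t)).and_eventually (hM3.and hy)).exists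
    have h3 := hsub (hs1 hs)
    rw [connectedComponentIn_eq h3]
    exact hs2 hs
  · intro hy
    show ∀ᶠ s in 𝓝 t, l s ≠ l t → y ∈ connectedComponentIn (Metric.ball (l t) r \ {l t}) (l s)
    filter_upwards [hM3] with s hs hne
    rw [← connectedComponentIn_eq (hsub (hs hne))]
    exact hy

lemma Dc_sub (h1 : L1 l) (hl : Light l) (t : I) {r : ℝ} (hr : 0 < r) :
    Dc l r t ⊆ Metric.ball (l t) r \ {l t} := by
  obtain ⟨M, -, -, ⟨x, hx⟩, -, h⟩ := Dc_spec h1 hl t hr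
  rw [h x hx]; exact connectedComponentIn_subset _ _

lemma Dc_preconn (h1 : L1 l) (hl : Light l) (t : I) {r : ℝ} (hr : 0 < r) :
    IsPreconnected (Dc l r t) := by
  obtain ⟨M, -, -, ⟨x, hx⟩, -, h⟩ := Dc_spec h1 hl t hr
  rw [h x hx]; exact isPreconnected_connectedComponentIn

lemma Dc_open [LocallyConnectedSpace X] (h1 : L1 l) (hl : Light l) (t : I) {r : ℝ} (hr : 0 < r) :
    IsOpen (Dc l r t) := by
  obtain ⟨M, -, -, ⟨x, hx⟩, -, h⟩ := Dc_spec h1 hl t hr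
  rw [h x hx]
  exact (Metric.isOpen_ball.sdiff isClosed_singleton).connectedComponentIn

lemma Dc_mem (h1 : L1 l) (hl : Light l) (t : I) {r : ℝ} (hr : 0 < r) :
    ∀ᶠ s in 𝓝 t, l s ≠ l t → l s ∈ Dc l r t := by
  obtain ⟨M, hM1, hM2, ⟨x, hx⟩, h3, h⟩ := Dc_spec h1 hl t hr
  filter_upwards [h3] with s hs hne
  rw [h x hx]
  exact hM1.subset_connectedComponentIn hx hM2 (hs hne)

/-- a connected set in the punctured ball meeting the germ component is inside it -/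
lemma sub_Dc (h1 : L1 l) (hl : Light l) (t : I) {r : ℝ} (hr : 0 < r) {M : Set X}
    (hM : IsPreconnected M) (hs : M ⊆ Metric.ball (l t) r \ {l t}) (hne : (M ∩ Dc l r t).Nonempty) :
    M ⊆ Dc l r t := by
  obtain ⟨M', -, -, ⟨x, hx⟩, -, h⟩ := Dc_spec h1 hl t hr
  obtain ⟨y, hyM, hyD⟩ := hne
  rw [h x hx] at hyD ⊢
  rw [connectedComponentIn_eq hyD]
  exact hM.subset_connectedComponentIn hyM hs

lemma Dc_mono (h1 : L1 l) (hl : Light l) (t : I) {r r' : ℝ} (hr : 0 < r) (hrr : r ≤ r') :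
    Dc l r t ⊆ Dc l r' t := by
  apply sub_Dc h1 hl t (lt_of_lt_of_le hr hrr) (Dc_preconn h1 hl t hr)
  · exact (Dc_sub h1 hl t hr).trans (sdiff_subset_sdiff_left (Metric.ball_subset_ball hrr))
  · obtain ⟨s, hs, h2, h3⟩ := ((hl.freq t (l t)).and_eventually
      ((Dc_mem h1 hl t hr).and (Dc_mem h1 hl t (lt_of_lt_of_le hr hrr)))).exists
    exact ⟨l s, h2 hs, h3 hs⟩

/-- nearby times over the same point have the same germ component of a given size -/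
lemma Dc_eq_near (h1 : L1 l) (hl : Light l) (t : I) {r : ℝ} (hr : 0 < r) :
    ∀ᶠ s in 𝓝 t, l s = l t → Dc l r s = Dc l r t := by
  have h := (Dc_mem h1 hl t hr).eventually_nhds
  filter_upwards [h] with s hs hst
  obtain ⟨u, hu, h2, h3⟩ := ((hl.freq s (l t)).and_eventually
      (hs.and (Dc_mem h1 hl s hr))).exists
  have h4 := h2 hu
  have h5 := h3 (by rw [hst]; exact hu)
  apply Subset.antisymm
  · apply sub_Dc h1 hl t hr (Dc_preconn h1 hl s hr)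
    · have := Dc_sub h1 hl s hr; rwa [hst] at this
    · exact ⟨l u, h5, h4⟩
  · apply sub_Dc h1 hl s hr (Dc_preconn h1 hl t hr)
    · have := Dc_sub h1 hl t hr; rwa [← hst] at this
    · exact ⟨l u, h4, h5⟩

end germ

def Sep (l : I → X) : Prop := ∀ s t : I, s ≠ t → l s = l t → ∃ r : ℝ, 0 < r ∧ Disjoint (Dc l r s) (Dc l r t)

def Loc (l : I → X) : Prop := ∀ t : I, ∀ O ∈ 𝓝 t, ∃ r : ℝ, 0 < r ∧ ∀ s, l s ∈ Dc l r t → s ∈ O

lemma Sep.loc {l : I → X} (hc : Continuous l) (h1 : L1 l) (hl : Light l) (hs : Sep l) : Loc l := by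
  intro t O hO
  by_contra hno
  push Not at hno
  obtain ⟨U, hUO, hU, htU⟩ := mem_nhds_iff.mp hO
  have h2 : ∀ n : ℕ, ∃ s, l s ∈ Dc l (1 / ((n : ℝ) + 1)) t ∧ s ∈ Uᶜ := by
    intro n
    obtain ⟨s, hs1, hs2⟩ := hno (1 / ((n : ℝ) + 1)) (by positivity)
    exact ⟨s, hs1, fun h => hs2 (hUO h)⟩
  choose s hs1 hs2 using h2
  obtain ⟨t', ht', φ, hφ, hlim⟩ := hU.isClosed_compl.isCompact.tendsto_subseq hs2
  have hne : t' ≠ t := fun h => ht' (h ▸ htU)
  have hlt : l t' = l t := by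
    have h3 : Tendsto (fun n => l (s (φ n))) atTop (𝓝 (l t')) := (hc.tendsto t').comp hlim
    have h4 : Tendsto (fun n => l (s (φ n))) atTop (𝓝 (l t)) := by
      rw [tendsto_iff_dist_tendsto_zero]
      apply squeeze_zero (fun _ => dist_nonneg) (g := fun n => 1 / (((φ n : ℕ) : ℝ) + 1))
      · intro n
        exact (Dc_sub h1 hl t (by positivity) (hs1 (φ n))).1.le
      · exact tendsto_one_div_add_atTop_nhds_zero_nat.comp hφ.tendsto_atTop
    exact tendsto_nhds_unique h3 h4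
  obtain ⟨r, hr, hdis⟩ := hs t' t hne hlt
  have h5 := hlim.eventually (Dc_mem h1 hl t' hr)
  have h6 : ∀ᶠ n in atTop, 1 / (((φ n : ℕ) : ℝ) + 1) < r :=
    (tendsto_one_div_add_atTop_nhds_zero_nat.comp hφ.tendsto_atTop).eventually (gt_mem_nhds hr)
  obtain ⟨n, hn1, hn2⟩ := (h5.and h6).exists
  have h7 : l (s (φ n)) ∈ Dc l r t := Dc_mono h1 hl t (by positivity) hn2.le (hs1 (φ n))
  have h8 : l (s (φ n)) ≠ l t' := by
    rw [hlt]; exact (Dc_sub h1 hl t hr h7).2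
  exact (disjoint_left.mp hdis) (hn1 h8) h7

/-- local constancy principle -/
lemma local_const {l : I → X} (hl : Light l) {J : Set I} (hJ : IsOpen J) (hJc : IsPreconnected J)
    (e : X) (R : I → I → Prop) (hsym : ∀ s t, R s t → R t s) (htr : ∀ s t u, R s t → R t u → R s u)
    (hloc : ∀ τ ∈ J, ∃ O ∈ 𝓝 τ, ∀ s ∈ O, ∀ s' ∈ O, s ∈ J → s' ∈ J → l s ≠ e → l s' ≠ e → R s s')
    {a b : I} (ha : a ∈ J) (hb : b ∈ J) (hae : l a ≠ e) (hbe : l b ≠ e) : R a b := by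
  set u : Set I := {τ | ∀ᶠ t in 𝓝 τ, t ∈ J → l t ≠ e → R a t} with hu
  set v : Set I := {τ | ∀ᶠ t in 𝓝 τ, t ∈ J → l t ≠ e → ¬ R a t} with hv
  have huo : IsOpen u := by
    rw [isOpen_iff_mem_nhds]
    intro τ hτ
    exact (Eventually.eventually_nhds hτ)
  have hvo : IsOpen v := by
    rw [isOpen_iff_mem_nhds]
    intro τ hτ
    exact (Eventually.eventually_nhds hτ)
  have hcov : J ⊆ u ∪ v := by
    intro τ hτ
    obtain ⟨O, hO, hR⟩ := hloc τ hτ
    have hOJ : O ∩ J ∈ 𝓝 τ := inter_mem hO (hJ.mem_nhds hτ)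
    obtain ⟨t0, ht0, ht1⟩ := ((hl.freq τ e).and_eventually hOJ).exists
    by_cases hR0 : R a t0
    · left
      filter_upwards [hOJ] with t ht htJ hte
      exact htr _ _ _ hR0 (hR t0 ht1.1 t ht.1 ht1.2 htJ ht0 hte)
    · right
      filter_upwards [hOJ] with t ht htJ hte hRt
      exact hR0 (htr _ _ _ hRt (hR t ht.1 t0 ht1.1 htJ ht1.2 hte ht0))
  have haa : R a a := by
    obtain ⟨O, hO, hR⟩ := hloc a ha
    exact hR a (mem_of_mem_nhds hO) a (mem_of_mem_nhds hO) ha ha hae hae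
  have hau : a ∈ u := by
    rcases hcov ha with h | h
    · exact h
    · exact absurd haa (h.self_of_nhds ha hae)
  by_contra hRab
  have hbv : b ∈ v := by
    rcases hcov hb with h | h
    · exact absurd (h.self_of_nhds hb hbe) hRab
    · exact h
  obtain ⟨τ, hτJ, hτu, hτv⟩ := hJc u v huo hvo hcov ⟨a, ha, hau⟩ ⟨b, hb, hbv⟩
  obtain ⟨t0, ht0, ht1, ht2, ht3⟩ := ((hl.freq τ e).and_eventually
    (hτu.and (hτv.and (hJ.mem_nhds hτJ)))).exists
  exact ht2 ht3 ht0 (ht1 ht3 ht0)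

end Pool.Agent.Helper451.Reg
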