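import Pool.Agent.Helper451.Reg.R2

set_option autoImplicit false
set_option linter.unusedSectionVars false
set_option linter.unusedVariables false

open Set Filter Topology unitInterval

namespace Pool.Agent.Helper451.Reg
variable {X : Type*} [MetricSpace X] {l : I → X}

def Harmless (l : I → X) (g : Set X) (t : I) : Prop := ∃ r : ℝ, 0 < r ∧ Disjoint g (Dc l r t)

lemma harmless_of_not_mem (h1 : L1 l) (hl : Light l) {g : Set X} (hg : IsClosed g) {t : I}
    (ht : l t ∉ g) : Harmless l g t := by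
  obtain ⟨r, hr, hrg⟩ := Metric.isOpen_iff.mp hg.isOpen_compl (l t) ht
  refine ⟨r, hr, ?_⟩
  rw [disjoint_left]
  intro x hx hxD
  exact hrg (Dc_sub h1 hl t hr hxD).1 hx

lemma harmless_at (hl : Light l) {Γ g : Set X} (hH : H l Γ) {t : I} (hh : Harmless l g t)
    {r : ℝ} (hr : 0 < r) : ∃ M : Set X, IsPreconnected M ∧ M ⊆ Metric.ball (l t) r \ {l t} ∧
      Disjoint M (Γ ∪ g) ∧ ∀ᶠ s in 𝓝 t, l s ≠ l t → l s ∈ M := by
  obtain ⟨r0, hr0, hd⟩ := hh
  obtain ⟨M, h1, h2, h3, h4⟩ := hH.2 t (min r r0) (lt_min hr hr0)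
  have hL := hH.L1
  refine ⟨M, h1, h2.trans (sdiff_subset_sdiff_left (Metric.ball_subset_ball (min_le_left _ _))), ?_, h4⟩
  rw [disjoint_union_right]
  refine ⟨h3, ?_⟩
  have hsub : M ⊆ Dc l (min r r0) t := by
    apply sub_Dc hL hl t (lt_min hr hr0) h1 h2
    obtain ⟨s, hs, h5, h6⟩ := ((hl.freq t (l t)).and_eventually
      (h4.and (Dc_mem hL hl t (lt_min hr hr0)))).exists
    exact ⟨l s, h5 hs, h6 hs⟩
  exact (hd.mono_right (hsub.trans (Dc_mono hL hl t (lt_min hr hr0) (min_le_right _ _)))).symm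

lemma safe_of_harmless (hl : Light l) {g : Set X} (hg : IsClosed g) (hfin : (g ∩ range l).Finite)
    (hh : ∀ t, Harmless l g t) : Safe l g :=
  ⟨hg, hfin, fun Γ hΓ => ⟨hΓ.1.union hg, fun t r hr => harmless_at hl hΓ (hh t) hr⟩⟩

lemma safe_singleton (h1 : L1 l) (hl : Light l) (x : X) : Safe l {x} := by
  apply safe_of_harmless hl isClosed_singleton ((finite_singleton x).inter_of_left _)
  intro t
  by_cases h : l t = x
  · refine ⟨1, one_pos, ?_⟩
    rw [disjoint_singleton_left]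
    intro hx
    exact (Dc_sub h1 hl t one_pos hx).2 h.symm
  · exact harmless_of_not_mem h1 hl isClosed_singleton h

lemma safe_off (h1 : L1 l) (hl : Light l) {g : Set X} (hg : IsClosed g) (hd : Disjoint g (range l)) :
    Safe l g := by
  apply safe_of_harmless hl hg
  · rw [disjoint_iff_inter_eq_empty.mp hd]; exact finite_empty
  · intro t
    exact harmless_of_not_mem h1 hl hg (fun h => disjoint_left.mp hd h ⟨t, rfl⟩)

lemma Safe.union {g g' : Set X} (h : Safe l g) (h' : Safe l g') : Safe l (g ∪ g') := by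
  refine ⟨h.1.union h'.1, ?_, fun Γ hΓ => ?_⟩
  · rw [union_inter_distrib_right]; exact h.2.1.union h'.2.1
  · rw [← union_assoc]; exact h'.2.2 _ (h.2.2 _ hΓ)

lemma ball_ordConnected (p : I) (r : ℝ) : (Metric.ball p r).OrdConnected := by
  constructor
  rintro a ha b hb c ⟨hac, hcb⟩
  rw [Metric.mem_ball, Subtype.dist_eq, Real.dist_eq, abs_lt] at *
  have h1 : (a : ℝ) ≤ c := hac
  have h2 : (c : ℝ) ≤ b := hcb
  constructor <;> linarith [ha.1, ha.2, hb.1, hb.2]

/-- Lemma T -/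
lemma lemmaT [LocallyConnectedSpace X] (hc : Continuous l) (h1 : L1 l) (hl : Light l) (hloc : Loc l)
    {g : Set X} (hg : IsClosed g) (hfin : (g ∩ range l).Finite) {p : I}
    (hh : ∀ t, t ≠ p → Harmless l g t) {r0 : ℝ} (hr0 : 0 < r0) {V : Set X} (hV : IsOpen V)
    (hVL : Disjoint V (range l)) (hgV : g ∩ Dc l r0 p ⊆ V)
    (hside : (∀ y ∈ Dc l r0 p, y ∈ closure V → y ∉ V → y ∈ l '' Ioi p) ∨
      (∀ y ∈ Dc l r0 p, y ∈ closure V → y ∉ V → y ∈ l '' Iio p)) : Safe l g := by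
  refine ⟨hg, hfin, fun Γ hΓ => ⟨hΓ.1.union hg, fun t r hr => ?_⟩⟩
  by_cases htp : t ≠ p
  · exact harmless_at hl hΓ (hh t htp) hr
  rw [not_not] at htp
  subst htp
  set r1 := min r r0 with hr1
  have hr1p : 0 < r1 := lt_min hr hr0
  obtain ⟨M0, hM1, hM2, hM3, hM4⟩ := hΓ.2 t r1 hr1p
  -- near t only the point l t can be in g
  have hga : ∀ᶠ s in 𝓝 t, l s ∈ g → l s = l t := by
    have hcl : IsClosed (l ⁻¹' ((g ∩ range l) \ {l t})) :=
      ((hfin.subset sdiff_subset).isClosed).preimage hc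
    have hnm : t ∉ l ⁻¹' ((g ∩ range l) \ {l t}) := fun h => h.2 rfl
    filter_upwards [hcl.isOpen_compl.mem_nhds hnm] with s hs hsg
    by_contra hne
    exact hs ⟨⟨hsg, s, rfl⟩, hne⟩
  obtain ⟨δ, hδ, hN⟩ := Metric.eventually_nhds_iff_ball.mp (hM4.and hga)
  set N := Metric.ball t δ with hNdef
  set W0 : Set X := Metric.ball (l t) r1 \ ({l t} ∪ (Γ ∪ g)) with hW0
  have hW0o : IsOpen W0 :=
    Metric.isOpen_ball.sdiff (isClosed_singleton.union (hΓ.1.union hg))
  have hW0mem : ∀ s ∈ N, l s ≠ l t → l s ∈ W0 := by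
    intro s hs hne
    have h2 := (hN s hs).1 hne
    refine ⟨(hM2 h2).1, ?_⟩
    rintro (h | h | h)
    · exact hne h
    · exact disjoint_left.mp hM3 h2 h
    · exact hne ((hN s hs).2 h)
  have side : ∀ S : Set I, IsOpen S → t ∉ S → (N ∩ S).OrdConnected → ∀ a ∈ N ∩ S, ∀ b ∈ N ∩ S,
      l a ≠ l t → l b ≠ l t → l b ∈ connectedComponentIn W0 (l a) := by
    intro S hS htS hord a ha b hb hae hbe
    have key := local_const (l := l) hl (J := N ∩ S) (Metric.isOpen_ball.inter hS) hord.isPreconnected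
      (l t) (fun a b => l a ∈ W0 ∧ l b ∈ W0 ∧ l b ∈ connectedComponentIn W0 (l a))
      (by
        rintro a b ⟨h1, h2, h3⟩
        refine ⟨h2, h1, ?_⟩
        rw [← connectedComponentIn_eq h3]
        exact mem_connectedComponentIn h1)
      (by
        rintro a b c ⟨h1, h2, h3⟩ ⟨h4, h5, h6⟩
        refine ⟨h1, h5, ?_⟩
        rw [connectedComponentIn_eq h3]; exact h6)
      (by
        rintro τ ⟨hτN, hτS⟩
        by_cases hτ : l τ = l t
        · have hτt : τ ≠ t := fun h => htS (h ▸ hτS)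
          obtain ⟨M, h2, h3, h4, h5⟩ := harmless_at hl hΓ (hh τ hτt) hr1p
          refine ⟨_, h5, fun s hs s' hs' hsJ hsJ' hne hne' => ?_⟩
          have hMW : M ⊆ W0 := by
            intro y hy
            have h6 := h3 hy
            rw [hτ] at h6
            refine ⟨h6.1, ?_⟩
            rintro (h | h)
            · exact h6.2 h
            · exact disjoint_left.mp h4 hy h
          have h7 : l s ∈ M := hs (by rw [hτ]; exact hne)
          have h8 : l s' ∈ M := hs' (by rw [hτ]; exact hne')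
          exact ⟨hMW h7, hMW h8, h2.subset_connectedComponentIn h7 hMW h8⟩
        · have hτW := hW0mem τ hτN hτ
          have hCo : IsOpen (connectedComponentIn W0 (l τ)) := hW0o.connectedComponentIn
          refine ⟨l ⁻¹' (connectedComponentIn W0 (l τ)),
            hc.continuousAt.preimage_mem_nhds (hCo.mem_nhds (mem_connectedComponentIn hτW)), ?_⟩
          intro s hs s' hs' _ _ _ _
          refine ⟨connectedComponentIn_subset _ _ hs, connectedComponentIn_subset _ _ hs', ?_⟩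
          rw [← connectedComponentIn_eq hs]; exact hs')
      ha hb hae hbe
    exact key.2.2
  have hordR : (N ∩ Ioi t).OrdConnected := (ball_ordConnected t δ).inter ordConnected_Ioi
  have hordL : (N ∩ Iio t).OrdConnected := (ball_ordConnected t δ).inter ordConnected_Iio
  have accR : ∀ b ∈ N ∩ Ioi t, ∀ U ∈ 𝓝 t, ∃ s ∈ U, s ∈ N ∩ Ioi t := by
    intro b hb U hU
    have hne : (𝓝[>] t).NeBot := nhdsGT_neBot_of_exists_gt ⟨b, hb.2⟩
    have h5 : ∀ᶠ s in 𝓝[>] t, s ∈ U ∩ N :=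
      mem_nhdsWithin_of_mem_nhds (inter_mem hU (Metric.ball_mem_nhds t hδ))
    obtain ⟨s, h6, h7⟩ := (h5.and self_mem_nhdsWithin).exists
    exact ⟨s, h6.1, h6.2, h7⟩
  have accL : ∀ b ∈ N ∩ Iio t, ∀ U ∈ 𝓝 t, ∃ s ∈ U, s ∈ N ∩ Iio t := by
    intro b hb U hU
    have hne : (𝓝[<] t).NeBot := nhdsLT_neBot_of_exists_lt ⟨b, hb.2⟩
    have h5 : ∀ᶠ s in 𝓝[<] t, s ∈ U ∩ N :=
      mem_nhdsWithin_of_mem_nhds (inter_mem hU (Metric.ball_mem_nhds t hδ))
    obtain ⟨s, h6, h7⟩ := (h5.and self_mem_nhdsWithin).exists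
    exact ⟨s, h6.1, h6.2, h7⟩
  -- generic argument
  have gen : ∀ S S' : Set I, IsOpen S → IsOpen S' → t ∉ S → t ∉ S' → (N ∩ S).OrdConnected →
      (N ∩ S').OrdConnected →
      (∀ b ∈ N ∩ S, ∀ U ∈ 𝓝 t, ∃ s ∈ U, s ∈ N ∩ S) → (∀ b ∈ N ∩ S', ∀ U ∈ 𝓝 t, ∃ s ∈ U, s ∈ N ∩ S') →
      (∀ y ∈ Dc l r0 t, y ∈ closure V → y ∉ V → y ∈ l '' S') →
      ∀ a ∈ N ∩ S, ∀ b ∈ N ∩ S', l a ≠ l t → l b ≠ l t →
      l b ∈ connectedComponentIn W0 (l a) := by
    intro S S' hS hS' htS htS' hoS hoS' hacc hacc' hside a ha b hb hae hbe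
    by_contra hcon
    obtain ⟨r2, hr2, hr2loc⟩ := hloc t N (Metric.ball_mem_nhds t hδ)
    set r3 := min r1 r2 with hr3
    have hr3p : 0 < r3 := lt_min hr1p hr2
    obtain ⟨M2, hA1, hA2, hA3, hA4⟩ := hΓ.2 t r3 hr3p
    have hM2D : M2 ⊆ Dc l r3 t := by
      apply sub_Dc h1 hl t hr3p hA1 hA2
      obtain ⟨s, hs, h5, h6⟩ := ((hl.freq t (l t)).and_eventually
        (hA4.and (Dc_mem h1 hl t hr3p))).exists
      exact ⟨l s, h5 hs, h6 hs⟩
    have hmk : ∀ S : Set I, IsOpen S → (∀ U ∈ 𝓝 t, ∃ s ∈ U, s ∈ N ∩ S) →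
        ∃ s ∈ N ∩ S, l s ≠ l t ∧ l s ∈ M2 := by
      intro S hS hacc
      obtain ⟨U, hUs, hUo, htU⟩ := mem_nhds_iff.mp hA4
      obtain ⟨s, hsU, hsN⟩ := hacc U (hUo.mem_nhds htU)
      obtain ⟨s', hs', hne⟩ := hl (U ∩ (N ∩ S)) (hUo.inter (Metric.isOpen_ball.inter hS))
        ⟨s, hsU, hsN⟩ (l t)
      exact ⟨s', hs'.2, hne, hUs hs'.1 hne⟩
    obtain ⟨s1, hs1, hs1e, hs1M⟩ := hmk S hS (hacc a ha)
    obtain ⟨s2, hs2, hs2e, hs2M⟩ := hmk S' hS' (hacc' b hb)
    set W2 : Set X := Metric.ball (l t) r3 \ ({l t} ∪ (Γ ∪ g)) with hW2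
    have hW2o : IsOpen W2 :=
      Metric.isOpen_ball.sdiff (isClosed_singleton.union (hΓ.1.union hg))
    have hW2W0 : W2 ⊆ W0 := sdiff_subset_sdiff_left (Metric.ball_subset_ball (min_le_left _ _))
    have hs1W2 : l s1 ∈ W2 := ⟨(hA2 hs1M).1, (hW0mem s1 hs1.1 hs1e).2⟩
    set P := connectedComponentIn W2 (l s1) with hP
    have hPo : IsOpen P := hW2o.connectedComponentIn
    have hPW2 : P ⊆ W2 := connectedComponentIn_subset _ _
    have hPc : IsPreconnected P := isPreconnected_connectedComponentIn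
    have hs1P : l s1 ∈ P := mem_connectedComponentIn hs1W2
    -- P inside the big component of the left side
    have hPbig : P ⊆ connectedComponentIn W0 (l a) := by
      have h3 : l s1 ∈ connectedComponentIn W0 (l a) := side S hS htS hoS a ha s1 hs1 hae hs1e
      rw [connectedComponentIn_eq h3]
      exact hPc.subset_connectedComponentIn hs1P (hPW2.trans hW2W0)
    have hnoS' : ∀ s ∈ N ∩ S', l s ≠ l t → l s ∉ P := by
      intro s hs hse hsP
      apply hcon
      rw [connectedComponentIn_eq (hPbig hsP)]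
      exact side S' hS' htS' hoS' s hs b hb hse hbe
    have hnsub : ¬ M2 ⊆ P := fun h => hnoS' s2 hs2 hs2e (h hs2M)
    obtain ⟨z, hzM, hzcl, hzP⟩ := meets_frontier hA1 hPo ⟨l s1, hs1M, hs1P⟩ hnsub
    have hPD : P ⊆ Dc l r3 t := by
      apply sub_Dc h1 hl t hr3p hPc
      · intro y hy
        have := hPW2 hy
        exact ⟨this.1, fun h => this.2 (Or.inl h)⟩
      · exact ⟨l s1, hs1P, hM2D hs1M⟩
    have hD30 : Dc l r3 t ⊆ Dc l r0 t :=
      Dc_mono h1 hl t hr3p ((min_le_left _ _).trans (min_le_right _ _))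
    have hzg : z ∈ g := by
      by_contra hzg
      apply hzP
      apply comp_closed_in hzcl
      refine ⟨(hA2 hzM).1, ?_⟩
      rintro (h | h | h)
      · exact (hA2 hzM).2 h
      · exact disjoint_left.mp hA3 hzM h
      · exact hzg h
    have hzV : z ∈ V := hgV ⟨hzg, hD30 (hM2D hzM)⟩
    obtain ⟨w, hwV, hwP⟩ := mem_closure_iff.mp hzcl V hV hzV
    have hPnV : ¬ P ⊆ V := fun h => disjoint_left.mp hVL (h hs1P) ⟨s1, rfl⟩
    obtain ⟨y, hyP, hycl, hyV⟩ := meets_frontier hPc hV ⟨w, hwP, hwV⟩ hPnV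
    obtain ⟨s, hsS', hsy⟩ := hside y (hD30 (hPD hyP)) hycl hyV
    have hsN : s ∈ N := by
      apply hr2loc
      rw [hsy]
      exact Dc_mono h1 hl t hr3p (min_le_right _ _) (hPD hyP)
    have hyt : y ≠ l t := (Dc_sub h1 hl t hr3p (hPD hyP)).2
    exact hnoS' s ⟨hsN, hsS'⟩ (by rw [hsy]; exact hyt) (by rw [hsy]; exact hyP)
  -- symmetric version of membership
  have symm : ∀ x y, x ∈ W0 → y ∈ connectedComponentIn W0 x → x ∈ connectedComponentIn W0 y := by
    intro x y hx hy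
    rw [← connectedComponentIn_eq hy]; exact mem_connectedComponentIn hx
  have both : ∀ a ∈ N ∩ Iio t, ∀ b ∈ N ∩ Ioi t, l a ≠ l t → l b ≠ l t →
      l b ∈ connectedComponentIn W0 (l a) := by
    intro a ha b hb hae hbe
    rcases hside with hside | hside
    · exact gen (Iio t) (Ioi t) isOpen_Iio isOpen_Ioi (lt_irrefl t) (lt_irrefl t) hordL hordR accL accR
        hside a ha b hb hae hbe
    · apply symm _ _ (hW0mem b hb.1 hbe)
      exact gen (Ioi t) (Iio t) isOpen_Ioi isOpen_Iio (lt_irrefl t) (lt_irrefl t) hordR hordL accR accL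
        hside b hb a ha hbe hae
  -- conclusion
  obtain ⟨s0, hs0N, hs0e⟩ : ∃ s0 ∈ N, l s0 ≠ l t := hl N Metric.isOpen_ball ⟨t, Metric.mem_ball_self hδ⟩ (l t)
  refine ⟨connectedComponentIn W0 (l s0), isPreconnected_connectedComponentIn, ?_, ?_, ?_⟩
  · intro y hy
    have h2 := connectedComponentIn_subset _ _ hy
    refine ⟨Metric.ball_subset_ball (min_le_left _ _) h2.1, fun h => h2.2 (Or.inl h)⟩
  · rw [disjoint_left]
    intro y hy h
    exact (connectedComponentIn_subset _ _ hy).2 (Or.inr h)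
  · filter_upwards [Metric.ball_mem_nhds t hδ] with s hs hse
    have hst : s ≠ t := fun h => hse (by rw [h])
    have hs0t : s0 ≠ t := fun h => hs0e (by rw [h])
    rcases lt_or_gt_of_ne hst with h | h <;> rcases lt_or_gt_of_ne hs0t with h' | h'
    · exact side (Iio t) isOpen_Iio (lt_irrefl t) hordL s0 ⟨hs0N, h'⟩ s ⟨hs, h⟩ hs0e hse
    · apply symm _ _ (hW0mem s hs hse)
      exact both s ⟨hs, h⟩ s0 ⟨hs0N, h'⟩ hse hs0e
    · exact both s0 ⟨hs0N, h'⟩ s ⟨hs, h⟩ hs0e hse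
    · exact side (Ioi t) isOpen_Ioi (lt_irrefl t) hordR s0 ⟨hs0N, h'⟩ s ⟨hs, h⟩ hs0e hse

end Pool.Agent.Helper451.Reg
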