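import Pool.Agent.Helper451.Reg.R3

set_option autoImplicit false
set_option linter.unusedSectionVars false
set_option linter.unusedVariables false

open Set Filter Topology unitInterval

namespace Pool.Agent.Helper451.Reg
variable {X : Type*} [MetricSpace X]

/-- two points of an open connected set lie in a compact connected subset -/
lemma exists_cc [CompactSpace X] [LocallyConnectedSpace X] {W : Set X} (hW : IsOpen W)
    (hWc : IsPreconnected W) {x y : X} (hx : x ∈ W) (hy : y ∈ W) :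
    ∃ K : Set X, IsCompact K ∧ IsPreconnected K ∧ K ⊆ W ∧ x ∈ K ∧ y ∈ K := by
  let R : X → X → Prop := fun x y => ∃ K : Set X, IsCompact K ∧ IsPreconnected K ∧ K ⊆ W ∧ x ∈ K ∧ y ∈ K
  have hsym : ∀ x y, R x y → R y x := by
    rintro x y ⟨K, h1, h2, h3, h4, h5⟩; exact ⟨K, h1, h2, h3, h5, h4⟩
  have htr : ∀ x y z, R x y → R y z → R x z := by
    rintro x y z ⟨K, h1, h2, h3, h4, h5⟩ ⟨K', h1', h2', h3', h4', h5'⟩
    exact ⟨K ∪ K', h1.union h1', h2.union y h5 h4' h2', union_subset h3 h3', Or.inl h4, Or.inr h5'⟩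
  have hloc : ∀ z ∈ W, ∃ C : Set X, IsOpen C ∧ z ∈ C ∧ ∀ w ∈ C, R z w := by
    intro z hz
    obtain ⟨r, hr, hrW⟩ := Metric.isOpen_iff.mp hW z hz
    have hzb : z ∈ Metric.ball z (r / 2) := Metric.mem_ball_self (by linarith)
    refine ⟨connectedComponentIn (Metric.ball z (r / 2)) z, Metric.isOpen_ball.connectedComponentIn,
      mem_connectedComponentIn hzb, ?_⟩
    intro w hw
    refine ⟨closure (connectedComponentIn (Metric.ball z (r / 2)) z), isClosed_closure.isCompact,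
      isPreconnected_connectedComponentIn.closure, ?_, subset_closure (mem_connectedComponentIn hzb),
      subset_closure hw⟩
    refine (closure_mono (connectedComponentIn_subset _ _)).trans ?_
    exact Metric.closure_ball_subset_closedBall.trans ((Metric.closedBall_subset_ball (by linarith)).trans hrW)
  set u : Set X := {z | z ∈ W ∧ R x z} with hu
  have huo : IsOpen u := by
    rw [isOpen_iff_mem_nhds]
    rintro z ⟨hz, hRz⟩
    obtain ⟨C, hC, hzC, hCR⟩ := hloc z hz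
    filter_upwards [hC.mem_nhds hzC, hW.mem_nhds hz] with w hw hwW
    exact ⟨hwW, htr _ _ _ hRz (hCR w hw)⟩
  have hsub : W ⊆ u := by
    apply sub_of_no_frontier hWc huo
    · obtain ⟨C, hC, hzC, hCR⟩ := hloc x hx
      exact ⟨x, hx, hx, hCR x hzC⟩
    · intro z hz hzcl
      obtain ⟨C, hC, hzC, hCR⟩ := hloc z hz
      obtain ⟨w, hwC, hwu⟩ := mem_closure_iff.mp hzcl C hC hzC
      exact ⟨hz, htr _ _ _ hwu.2 (hsym _ _ (hCR w hwC))⟩
  exact (hsub hy).2

/-- one approach step -/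
lemma approach [CompactSpace X] [LocallyConnectedSpace X] (hN : Null X) {V : Set X} (hV : IsOpen V)
    (hVc : IsPreconnected V) {x : X} {E : ℕ → Set X} (hE : Antitone E)
    (hEb : ∀ n, E n ⊆ Metric.ball x (1 / ((n : ℝ) + 1))) (hVE : ∀ n, (V ∩ E n).Nonempty) {r : ℝ}
    (hr : 0 < r) :
    ∃ W : Set X, IsOpen W ∧ IsPreconnected W ∧ W ⊆ V ∩ Metric.ball x r ∧ ∀ n, (W ∩ E n).Nonempty := by
  by_cases hsub : V ⊆ Metric.ball x r
  · exact ⟨V, hV, hVc, subset_inter subset_rfl hsub, hVE⟩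
  set W0 := V ∩ Metric.ball x r with hW0
  have hW0o : IsOpen W0 := hV.inter Metric.isOpen_ball
  have hbig : ∀ z ∈ W0, z ∈ Metric.ball x (r / 2) → connectedComponentIn W0 z ∈ Big W0 (r / 2) := by
    intro z hz hzb
    refine ⟨z, hz, rfl, ?_⟩
    have hnot : ¬ V ⊆ connectedComponentIn W0 z := fun h => hsub (h.trans
      ((connectedComponentIn_subset _ _).trans inter_subset_right))
    obtain ⟨y, hyV, hycl, hyn⟩ := meets_frontier hVc (hW0o.connectedComponentIn (x := z))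
      ⟨z, hz.1, mem_connectedComponentIn hz⟩ hnot
    have hyb : y ∉ Metric.ball x r := fun h => hyn (comp_closed_in hycl ⟨hyV, h⟩)
    rw [← Metric.diam_closure]
    have h1 := diam_of_mem hycl (subset_closure (mem_connectedComponentIn hz) :
      z ∈ closure (connectedComponentIn W0 z))
    rw [Metric.mem_ball, not_lt] at hyb
    have h2 := dist_triangle y z x
    have h3 : dist z x < r / 2 := hzb
    linarith
  have hfin : (Big W0 (r / 2)).Finite := Big.finite hN (by linarith)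
  -- pigeonhole
  by_contra hno
  push Not at hno
  have h1 : ∀ C ∈ Big W0 (r / 2), ∃ n, C ∩ E n = ∅ := by
    rintro C ⟨z, hz, rfl, -⟩
    exact hno _ hW0o.connectedComponentIn isPreconnected_connectedComponentIn
      (connectedComponentIn_subset _ _)
  choose! f hf using h1
  obtain ⟨m, hm⟩ : ∃ m : ℕ, ∀ C ∈ Big W0 (r / 2), f C ≤ m := by
    obtain ⟨m, hm⟩ := (hfin.image f).bddAbove
    exact ⟨m, fun C hC => hm ⟨C, hC, rfl⟩⟩
  obtain ⟨k, hk⟩ := exists_nat_one_div_lt (half_pos hr)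
  obtain ⟨z, hzV, hzE⟩ := hVE (max m k)
  have hzk := hEb _ (hE (le_max_right m k) hzE)
  have hzb : z ∈ Metric.ball x (r / 2) := Metric.ball_subset_ball hk.le hzk
  have hzW : z ∈ W0 := ⟨hzV, Metric.ball_subset_ball (by linarith) hzb⟩
  have hB := hbig z hzW hzb
  have h2 := hf _ hB
  have h3 : z ∈ connectedComponentIn W0 z ∩ E (f (connectedComponentIn W0 z)) :=
    ⟨mem_connectedComponentIn hzW, hE ((hm _ hB).trans (le_max_left m k)) hzE⟩
  rw [h2] at h3
  exact h3

/-- accessibility -/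
lemma access [CompactSpace X] [LocallyConnectedSpace X] (hN : Null X) {V : Set X} (hV : IsOpen V)
    (hVc : IsPreconnected V) {x : X} (hxV : x ∉ V) {E : ℕ → Set X} (hE : Antitone E)
    (hEb : ∀ n, E n ⊆ Metric.ball x (1 / ((n : ℝ) + 1))) (hVE : ∀ n, (V ∩ E n).Nonempty) :
    ∃ g : Set X, IsCompact g ∧ IsPreconnected g ∧ g ⊆ V ∪ {x} ∧ x ∈ g ∧ (g ∩ V).Nonempty ∧
      ∀ n : ℕ, ∃ ρ : ℝ, 0 < ρ ∧ ∃ W : Set X, IsPreconnected W ∧ W ⊆ V ∩ Metric.ball x (1 / ((n : ℝ) + 1)) ∧
        (W ∩ E n).Nonempty ∧ g ∩ Metric.ball x ρ ⊆ W ∪ {x} := by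
  have step : ∀ (W : {W : Set X // IsOpen W ∧ IsPreconnected W ∧ ∀ n, (W ∩ E n).Nonempty}) (n : ℕ),
      ∃ W' : {W : Set X // IsOpen W ∧ IsPreconnected W ∧ ∀ n, (W ∩ E n).Nonempty},
        W'.1 ⊆ W.1 ∩ Metric.ball x (1 / ((n : ℝ) + 1)) := by
    intro W n
    obtain ⟨W', h1, h2, h3, h4⟩ := approach hN W.2.1 W.2.2.1 hE hEb W.2.2.2
      (r := 1 / ((n : ℝ) + 1)) (by positivity)
    exact ⟨⟨W', h1, h2, h4⟩, h3⟩
  choose f hf using step
  let Ws : ℕ → {W : Set X // IsOpen W ∧ IsPreconnected W ∧ ∀ n, (W ∩ E n).Nonempty} :=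
    fun n => Nat.rec (f ⟨V, hV, hVc, hVE⟩ 0) (fun n W => f W (n + 1)) n
  have hW0 : (Ws 0).1 ⊆ V ∩ Metric.ball x (1 / (((0 : ℕ) : ℝ) + 1)) := hf _ _
  have hWs : ∀ n, (Ws (n + 1)).1 ⊆ (Ws n).1 ∩ Metric.ball x (1 / (((n + 1 : ℕ) : ℝ) + 1)) :=
    fun n => hf _ _
  have hanti : Antitone (fun n => (Ws n).1) :=
    antitone_nat_of_succ_le (fun n => (hWs n).trans inter_subset_left)
  have hWV : ∀ n, (Ws n).1 ⊆ V := fun n => (hanti (Nat.zero_le n)).trans (hW0.trans inter_subset_left)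
  have hWb : ∀ n, (Ws n).1 ⊆ Metric.ball x (1 / ((n : ℝ) + 1)) := by
    intro n
    cases n with
    | zero => exact hW0.trans inter_subset_right
    | succ n => exact (hWs n).trans inter_subset_right
  have hpt : ∀ n, ∃ y, y ∈ (Ws n).1 := fun n => (by
    obtain ⟨y, hy, -⟩ := (Ws n).2.2.2 0; exact ⟨y, hy⟩)
  choose y hy using hpt
  have hK : ∀ n, ∃ K : Set X, IsCompact K ∧ IsPreconnected K ∧ K ⊆ (Ws n).1 ∧ y n ∈ K ∧ y (n + 1) ∈ K :=
    fun n => exists_cc (Ws n).2.1 (Ws n).2.2.1 (hy n) (hanti (Nat.le_succ n) (hy (n + 1)))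
  choose K hK1 hK2 hK3 hK4 hK5 using hK
  have hUc : IsPreconnected (⋃ n, K n) := by
    apply IsPreconnected.iUnion_of_chain hK2
    intro n
    exact ⟨y (n + 1), hK5 n, hK4 (n + 1)⟩
  have hylim : Tendsto y atTop (𝓝 x) := by
    rw [tendsto_iff_dist_tendsto_zero]
    apply squeeze_zero (fun _ => dist_nonneg) (g := fun n : ℕ => 1 / ((n : ℝ) + 1))
    · intro n; exact (hWb n (hy n)).le
    · exact tendsto_one_div_add_atTop_nhds_zero_nat
  have hxcl : x ∈ closure (⋃ n, K n) :=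
    mem_closure_of_tendsto hylim (Eventually.of_forall fun n => mem_iUnion.mpr ⟨n, hK4 n⟩)
  have hKx : ∀ n, x ∉ K n := fun n h => hxV (hWV n (hK3 n h))
  refine ⟨(⋃ n, K n) ∪ {x}, ?_, ?_, ?_, Or.inr rfl, ?_, ?_⟩
  · apply IsClosed.isCompact
    rw [← isOpen_compl_iff, isOpen_iff_mem_nhds]
    intro z hz
    have hzx : z ≠ x := fun h => hz (Or.inr h)
    have hd : 0 < dist z x := dist_pos.mpr hzx
    obtain ⟨k, hk⟩ := exists_nat_one_div_lt (half_pos hd)
    have hfin : IsClosed (⋃ n ∈ Finset.range k, K n) :=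
      isClosed_biUnion_finset (fun n _ => (hK1 n).isClosed)
    have hzf : z ∉ (⋃ n ∈ Finset.range k, K n) := by
      intro h
      rw [mem_iUnion₂] at h
      obtain ⟨n, -, hn⟩ := h
      exact hz (Or.inl (mem_iUnion.mpr ⟨n, hn⟩))
    filter_upwards [hfin.isOpen_compl.mem_nhds hzf, Metric.ball_mem_nhds z (half_pos hd)] with w hw1 hw2
    rintro (h | h)
    · obtain ⟨n, hn⟩ := mem_iUnion.mp h
      by_cases hnk : n < k
      · exact hw1 (mem_iUnion₂.mpr ⟨n, Finset.mem_range.mpr hnk, hn⟩)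
      · push Not at hnk
        have h5 : dist w x < 1 / ((n : ℝ) + 1) := hWb n (hK3 n hn)
        have h6 : (1 : ℝ) / ((n : ℝ) + 1) ≤ 1 / ((k : ℝ) + 1) := by
          apply one_div_le_one_div_of_le (by positivity)
          have : (k : ℝ) ≤ n := by exact_mod_cast hnk
          linarith
        have h7 : dist w z < dist z x / 2 := hw2
        have h8 := dist_triangle z w x
        rw [dist_comm z w] at h8
        linarith
    · rw [mem_singleton_iff] at h
      have h7 : dist w z < dist z x / 2 := hw2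
      rw [h, dist_comm] at h7
      linarith
  · apply hUc.subset_closure subset_union_left
    rintro z (hz | hz)
    · exact subset_closure hz
    · rw [mem_singleton_iff] at hz; rw [hz]; exact hxcl
  · rintro z (hz | hz)
    · obtain ⟨n, hn⟩ := mem_iUnion.mp hz
      exact Or.inl (hWV n (hK3 n hn))
    · exact Or.inr hz
  · exact ⟨y 0, Or.inl (mem_iUnion.mpr ⟨0, hK4 0⟩), hWV 0 (hy 0)⟩
  · intro n
    have hfin : IsClosed (⋃ m ∈ Finset.range n, K m) :=
      isClosed_biUnion_finset (fun m _ => (hK1 m).isClosed)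
    have hxf : x ∉ (⋃ m ∈ Finset.range n, K m) := by
      intro h
      rw [mem_iUnion₂] at h
      obtain ⟨m, -, hm⟩ := h
      exact hKx m hm
    obtain ⟨ρ, hρ, hρ2⟩ := Metric.isOpen_iff.mp hfin.isOpen_compl x hxf
    refine ⟨ρ, hρ, (Ws n).1, (Ws n).2.2.1, subset_inter (hWV n) (hWb n), (Ws n).2.2.2 n, ?_⟩
    rintro z ⟨hz | hz, hzb⟩
    · left
      obtain ⟨m, hm⟩ := mem_iUnion.mp hz
      by_cases hmn : m < n
      · exact absurd (mem_iUnion₂.mpr ⟨m, Finset.mem_range.mpr hmn, hm⟩) (hρ2 hzb)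
      · push Not at hmn
        exact hanti hmn (hK3 m hm)
    · exact Or.inr hz

/-- times at which `V` approaches along the germ -/
def Ad (l : I → X) (V : Set X) : Set I := {t | ∀ r : ℝ, 0 < r → (V ∩ Dc l r t).Nonempty}

variable {l : I → X}

lemma Ad_closure (h1 : L1 l) (hl : Light l) {V : Set X} {t : I} (ht : t ∈ Ad l V) : l t ∈ closure V := by
  rw [Metric.mem_closure_iff]
  intro r hr
  obtain ⟨x, hx, hxD⟩ := ht r hr
  refine ⟨x, hx, ?_⟩
  rw [dist_comm]; exact (Dc_sub h1 hl t hr hxD).1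

lemma isClosed_Ad [LocallyConnectedSpace X] (h1 : L1 l) (hl : Light l) (V : Set X) :
    IsClosed (Ad l V) := by
  rw [← isOpen_compl_iff, isOpen_iff_mem_nhds]
  intro t ht
  have : ∃ r : ℝ, 0 < r ∧ V ∩ Dc l r t = ∅ := by
    by_contra hno
    push Not at hno
    exact ht (fun r hr => hno r hr)
  obtain ⟨r, hr, hVr⟩ := this
  filter_upwards [Dc_mem h1 hl t hr, Dc_eq_near h1 hl t hr] with s hs1 hs2 hsA
  by_cases hst : l s = l t
  · have h2 := hsA r hr
    rw [hs2 hst, hVr] at h2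
    exact not_nonempty_empty h2
  · have h3 := hs1 hst
    obtain ⟨ρ, hρ, hρD⟩ := Metric.isOpen_iff.mp (Dc_open h1 hl t hr) _ h3
    obtain ⟨x, hx1, hx2⟩ := hsA ρ hρ
    have : x ∈ V ∩ Dc l r t := ⟨hx1, hρD (Dc_sub h1 hl s hρ hx2).1⟩
    rw [hVr] at this
    exact this

/-- small connected sets close to L -/
lemma small_near [CompactSpace X] [LocallyConnectedSpace X] (hN : Null X) {L : Set X} (hL : IsClosed L)
    {ε : ℝ} (hε : 0 < ε) : ∃ η : ℝ, 0 < η ∧ ∀ W : Set X, IsPreconnected W →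
      W ⊆ Metric.thickening η L \ L → Metric.diam W < ε := by
  by_contra hno
  push Not at hno
  have step : ∀ η : ℝ, 0 < η → ∃ K : Set X, IsCompact K ∧ IsConnected K ∧ K ⊆ Metric.thickening η L \ L ∧
      ε / 2 ≤ Metric.diam K := by
    intro η hη
    obtain ⟨W, hW1, hW2, hW3⟩ := hno η hη
    have h1 : ∃ x ∈ W, ∃ y ∈ W, ε / 2 ≤ dist x y := by
      by_contra hcon
      push Not at hcon
      have := Metric.diam_le_of_forall_dist_le (s := W) (C := ε / 2) (by linarith)
        (fun x hx y hy => (hcon x hx y hy).le)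
      linarith
    obtain ⟨x, hx, y, hy, hxy⟩ := h1
    have hO : IsOpen (Metric.thickening η L \ L) := Metric.isOpen_thickening.sdiff hL
    have hWC : W ⊆ connectedComponentIn (Metric.thickening η L \ L) x :=
      hW1.subset_connectedComponentIn hx hW2
    obtain ⟨K, hK1, hK2, hK3, hK4, hK5⟩ := exists_cc hO.connectedComponentIn
      isPreconnected_connectedComponentIn (hWC hx) (hWC hy)
    refine ⟨K, hK1, ⟨⟨x, hK4⟩, hK2⟩, hK3.trans (connectedComponentIn_subset _ _), ?_⟩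
    exact hxy.trans (diam_of_mem hK4 hK5)
  -- recursion
  let S := {K : Set X // IsCompact K ∧ IsConnected K ∧ Disjoint K L ∧ ε / 2 ≤ Metric.diam K}
  have next : ∀ A : Set X, IsCompact A → Disjoint A L → ∃ K : S, Disjoint A K.1 := by
    intro A hA hAL
    obtain ⟨δ, hδ, hδd⟩ : ∃ δ : ℝ, 0 < δ ∧ Disjoint A (Metric.thickening δ L) := by
      obtain ⟨δ, hδ, h⟩ := hAL.exists_thickenings hA hL
      exact ⟨δ, hδ, h.mono_left (Metric.self_subset_thickening hδ A)⟩
    obtain ⟨K, hK1, hK2, hK3, hK4⟩ := step δ hδ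
    refine ⟨⟨K, hK1, hK2, ?_, hK4⟩, hδd.mono_right (hK3.trans sdiff_subset)⟩
    rw [disjoint_left]; intro x hx hxL; exact (hK3 hx).2 hxL
  have hne : Nonempty S := ⟨(next ∅ isCompact_empty disjoint_bot_left).choose⟩
  choose! nx hnx using next
  let A : ℕ → {A : Set X // IsCompact A ∧ Disjoint A L} := fun n =>
    Nat.rec ⟨∅, isCompact_empty, disjoint_bot_left⟩
      (fun n A => ⟨A.1 ∪ (nx A.1).1, A.2.1.union (nx A.1).2.1, A.2.2.union_left (nx A.1).2.2.2.1⟩) n
  have hA : ∀ n, (A (n + 1)).1 = (A n).1 ∪ (nx (A n).1).1 := fun n => rfl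
  have hmono : Monotone (fun n => (A n).1) := monotone_nat_of_le_succ (fun n => by
    rw [hA n]; exact subset_union_left)
  refine hN (ε / 2) (by linarith) (fun n => (nx (A n).1).1) (fun n => (nx (A n).1).2.2.1) ?_
    (fun n => (nx (A n).1).2.2.2.2)
  have key : ∀ i j, i < j → Disjoint (nx (A i).1).1 (nx (A j).1).1 := by
    intro i j hij
    have h1 : (nx (A i).1).1 ⊆ (A j).1 := by
      have h2 : (A (i + 1)).1 ⊆ (A j).1 := hmono hij
      rw [hA i] at h2
      exact subset_union_right.trans h2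
    exact (hnx _ (A j).2.1 (A j).2.2).mono_left h1
  intro i j hij
  rcases lt_or_gt_of_ne hij with h | h
  · exact key i j h
  · exact (key j i h).symm

end Pool.Agent.Helper451.Reg
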