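import Pool.Agent.Helper451.Reg.R4

set_option autoImplicit false
set_option linter.unusedSectionVars false
set_option linter.unusedVariables false

open Set Filter Topology unitInterval

namespace Pool.Agent.Helper451.Reg
variable {X : Type*} [MetricSpace X] {l : I → X}

lemma one_sided {A J : Set I} (hA : IsClosed A) (hJ : J.OrdConnected) {u t0 : I} (hu : u ∈ A)
    (huJ : u ∈ J) (ht0 : t0 ∈ J) (ht0A : t0 ∉ A) :
    ∃ p ∈ A, p ∈ J ∧ ((∀ᶠ s in 𝓝 p, s < p → s ∉ A) ∨ (∀ᶠ s in 𝓝 p, p < s → s ∉ A)) := by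
  have hne : t0 ≠ u := fun h => ht0A (h ▸ hu)
  rcases lt_or_gt_of_ne hne with h | h
  · have hc : IsCompact (A ∩ Icc t0 u) := (isCompact_Icc).inter_left hA
    have hnem : (A ∩ Icc t0 u).Nonempty := ⟨u, hu, h.le, le_rfl⟩
    obtain ⟨p, hp⟩ := hc.exists_isLeast hnem
    have hpt : t0 < p := lt_of_le_of_ne hp.1.2.1 (fun h => ht0A (h ▸ hp.1.1))
    refine ⟨p, hp.1.1, hJ.out ht0 huJ hp.1.2, Or.inl ?_⟩
    filter_upwards [Ioi_mem_nhds hpt] with s hs hsp hsA
    exact absurd (hp.2 ⟨hsA, le_of_lt hs, hsp.le.trans hp.1.2.2⟩) (not_le.mpr hsp)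
  · have hc : IsCompact (A ∩ Icc u t0) := (isCompact_Icc).inter_left hA
    have hnem : (A ∩ Icc u t0).Nonempty := ⟨u, hu, le_rfl, le_of_lt h⟩
    obtain ⟨p, hp⟩ := hc.exists_isGreatest hnem
    have hpt : p < t0 := lt_of_le_of_ne hp.1.2.2 (fun h => ht0A (h ▸ hp.1.1))
    refine ⟨p, hp.1.1, hJ.out huJ ht0 hp.1.2, Or.inr ?_⟩
    filter_upwards [Iio_mem_nhds hpt] with s hs hsp hsA
    exact absurd (hp.2 ⟨hsA, hp.1.2.1.trans hsp.le, le_of_lt hs⟩) (not_le.mpr hsp)

/-- Lemma F -/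
lemma lemmaF [CompactSpace X] [LocallyConnectedSpace X] (hN : Null X) (hc : Continuous l)
    (h1 : L1 l) (hl : Light l) (hsep : Sep l) (hloc : Loc l) {D : Set X} (hD : IsOpen D)
    {P Q : Set I} (hP : IsOpen P) (hPQ : l ⁻¹' D ⊆ P ∪ Q) (hPD : P ⊆ l ⁻¹' D)
    (hdis : ∀ s ∈ P, ∀ t ∈ Q, l s ≠ l t) {V : Set X}
    (hVD : V ⊆ D) (hVL : Disjoint V (range l))
    (hVcomp : ∀ M : Set X, IsPreconnected M → M ⊆ D \ range l → (M ∩ V).Nonempty → M ⊆ V)
    {y0 : X} (hy0P : y0 ∈ l '' P) (hy0V : y0 ∈ closure V) :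
    ∃ x ∈ l '' P, ∃ g : Set X, IsCompact g ∧ IsPreconnected g ∧ x ∈ g ∧ g ⊆ V ∪ {x} ∧
      (g ∩ V).Nonempty ∧ Safe l g := by
  have hLc : IsClosed (range l) := (isCompact_range hc).isClosed
  obtain ⟨t00, ht00P, ht00⟩ := hy0P
  have hy0D : y0 ∈ D := by rw [← ht00]; exact hPD ht00P
  have hfib : ∀ t, l t = y0 → t ∈ P := by
    intro t ht
    rcases hPQ (show t ∈ l ⁻¹' D by rw [mem_preimage, ht]; exact hy0D) with h | h
    · exact h
    · exact absurd (ht00.trans ht.symm) (hdis t00 ht00P t h)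
  -- small intervals
  have hJ : ∀ t : I, ∃ δ : ℝ, ∃ ε : ℝ, 0 < δ ∧ 0 < ε ∧ (t ∈ P → Metric.ball t δ ⊆ P) ∧
      ∃ s ∈ Metric.ball t δ, ∃ s' ∈ Metric.ball t δ, ε ≤ dist (l s) (l s') := by
    intro t
    obtain ⟨δ, hδ, hδP⟩ : ∃ δ : ℝ, 0 < δ ∧ (t ∈ P → Metric.ball t δ ⊆ P) := by
      by_cases ht : t ∈ P
      · obtain ⟨δ, hδ, h⟩ := Metric.isOpen_iff.mp hP t ht
        exact ⟨δ, hδ, fun _ => h⟩
      · exact ⟨1, one_pos, fun h => absurd h ht⟩
    obtain ⟨s, hs, hse⟩ := hl (Metric.ball t δ) Metric.isOpen_ball ⟨t, Metric.mem_ball_self hδ⟩ (l t)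
    exact ⟨δ, dist (l s) (l t), hδ, dist_pos.mpr hse, hδP, s, hs, t, Metric.mem_ball_self hδ, le_rfl⟩
  choose δ ε hδ hε hδP hδε using hJ
  have hF0 : IsCompact (l ⁻¹' {y0}) := (isClosed_singleton.preimage hc).isCompact
  obtain ⟨T, hTsub, hTcov⟩ := hF0.elim_nhds_subcover (fun t => Metric.ball t (δ t))
    (fun t _ => Metric.ball_mem_nhds t (hδ t))
  set U0 : Set I := ⋃ t ∈ T, Metric.ball t (δ t) with hU0
  have hU0o : IsOpen U0 := isOpen_biUnion (fun t _ => Metric.isOpen_ball)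
  obtain ⟨ε0, hε0, hε0T⟩ : ∃ ε0 : ℝ, 0 < ε0 ∧ ∀ t ∈ T, ε0 ≤ ε t := by
    by_cases hTe : T.Nonempty
    · obtain ⟨t, ht, hmin⟩ := T.exists_min_image ε hTe
      exact ⟨ε t, hε t, hmin⟩
    · rw [Finset.not_nonempty_iff_eq_empty] at hTe
      exact ⟨1, one_pos, by rw [hTe]; simp⟩
  obtain ⟨η, hη, hsmall⟩ := small_near hN hLc hε0
  set O : Set X := D ∩ Metric.thickening η (range l) with hO
  have hOo : IsOpen O := hD.inter Metric.isOpen_thickening
  have hLO : ∀ x ∈ D, x ∈ range l → x ∈ O := fun x hx hxl => ⟨hx, Metric.self_subset_thickening hη _ hxl⟩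
  set B0 : Set X := (l '' U0ᶜ)ᶜ with hB0
  have hB0o : IsOpen B0 := ((hU0o.isClosed_compl.isCompact.image hc).isClosed).isOpen_compl
  have hy0B0 : y0 ∈ B0 := by
    rintro ⟨t, ht, hty⟩
    exact ht (hTcov hty)
  have hy0OB : y0 ∈ O ∩ B0 := ⟨hLO y0 hy0D ⟨t00, ht00⟩, hy0B0⟩
  set B : Set X := connectedComponentIn (O ∩ B0) y0 with hB
  have hBo : IsOpen B := (hOo.inter hB0o).connectedComponentIn
  have hBsub : B ⊆ O ∩ B0 := connectedComponentIn_subset _ _
  obtain ⟨v, hvB, hvV⟩ := mem_closure_iff.mp hy0V B hBo (mem_connectedComponentIn hy0OB)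
  have hvOL : v ∈ O \ range l := ⟨(hBsub hvB).1, disjoint_left.mp hVL hvV⟩
  set V' : Set X := connectedComponentIn (O \ range l) v with hV'
  have hV'o : IsOpen V' := (hOo.sdiff hLc).connectedComponentIn
  have hV'c : IsPreconnected V' := isPreconnected_connectedComponentIn
  have hV'sub : V' ⊆ O \ range l := connectedComponentIn_subset _ _
  have hvV' : v ∈ V' := mem_connectedComponentIn hvOL
  have hV'V : V' ⊆ V := hVcomp V' hV'c (fun x hx => ⟨(hV'sub hx).1.1, (hV'sub hx).2⟩) ⟨v, hvV', hvV⟩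
  have hV'L : Disjoint V' (range l) := hVL.mono_left hV'V
  have hV'diam : Metric.diam V' < ε0 :=
    hsmall V' hV'c (fun x hx => ⟨(hV'sub hx).1.2, (hV'sub hx).2⟩)
  -- points of the boundary of V' inside O are in L
  have hV'bd : ∀ y ∈ O, y ∈ closure V' → y ∉ V' → y ∈ range l := by
    intro y hyO hycl hyn
    by_contra hyL
    exact hyn (comp_closed_in hycl ⟨hyO, hyL⟩)
  obtain ⟨y1, hy1B, hy1cl, hy1n⟩ := meets_frontier (isPreconnected_connectedComponentIn : IsPreconnected B)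
    hV'o ⟨v, hvB, hvV'⟩ (fun h => disjoint_left.mp hV'L (h (mem_connectedComponentIn hy0OB)) ⟨t00, ht00⟩)
  have hy1L : y1 ∈ range l := hV'bd y1 (hBsub hy1B).1 hy1cl hy1n
  by_cases hcase : ∃ y ∈ l '' P, y ∈ closure V' ∧ ∀ t, l t = y → t ∉ Ad l V'
  · -- case 1
    obtain ⟨y, hyP, hycl, hyA⟩ := hcase
    have hyL : y ∈ range l := by obtain ⟨s, -, rfl⟩ := hyP; exact ⟨s, rfl⟩
    have hyV' : y ∉ V' := fun h => disjoint_left.mp hV'L h hyL
    obtain ⟨g, hg1, hg2, hg3, hg4, hg5, -⟩ := access hN hV'o hV'c hyV'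
      (E := fun n : ℕ => Metric.ball y (1 / ((n : ℝ) + 1)))
      (by
        intro m n hmn
        apply Metric.ball_subset_ball
        apply one_div_le_one_div_of_le (by positivity)
        have : (m : ℝ) ≤ n := by exact_mod_cast hmn
        linarith)
      (fun n => subset_rfl)
      (by
        intro n
        obtain ⟨w, hw1, hw2⟩ := mem_closure_iff.mp hycl _ Metric.isOpen_ball
          (Metric.mem_ball_self (by positivity : (0 : ℝ) < 1 / ((n : ℝ) + 1)))
        exact ⟨w, hw2, hw1⟩)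
    refine ⟨y, hyP, g, hg1, hg2, hg4, hg3.trans (union_subset_union_left _ hV'V),
      hg5.mono (inter_subset_inter_right _ hV'V), ?_⟩
    apply safe_of_harmless hl hg1.isClosed
    · apply (finite_singleton y).subset
      rintro z ⟨hz1, hz2⟩
      rcases hg3 hz1 with h | h
      · exact absurd hz2 (disjoint_left.mp hV'L h)
      · exact h
    · intro t
      by_cases hty : l t = y
      · have h2 := hyA t hty
        have h3 : ∃ r : ℝ, 0 < r ∧ V' ∩ Dc l r t = ∅ := by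
          by_contra hno
          push Not at hno
          exact h2 (fun r hr => hno r hr)
        obtain ⟨r, hr, hr2⟩ := h3
        refine ⟨r, hr, ?_⟩
        rw [disjoint_left]
        intro z hz hzD
        rcases hg3 hz with h | h
        · have : z ∈ V' ∩ Dc l r t := ⟨h, hzD⟩
          rw [hr2] at this; exact this
        · rw [mem_singleton_iff] at h
          exact (Dc_sub h1 hl t hr hzD).2 (by rw [h, hty]; rfl)
      · apply harmless_of_not_mem h1 hl hg1.isClosed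
        intro h
        rcases hg3 h with h | h
        · exact disjoint_left.mp hV'L h ⟨t, rfl⟩
        · exact hty h
  · -- case 2
    push Not at hcase
    have hy1P : ∀ t, l t = y1 → t ∈ U0 := by
      intro t ht
      by_contra h
      exact (hBsub hy1B).2 ⟨t, h, ht⟩
    have hU0P : U0 ⊆ P := by
      intro s hs
      rw [hU0, mem_iUnion₂] at hs
      obtain ⟨t, htT, hst⟩ := hs
      exact hδP t (hfib t (hTsub t htT)) hst
    obtain ⟨t1, ht1⟩ := hy1L
    obtain ⟨u, hu1, huA⟩ := hcase y1 ⟨t1, hU0P (hy1P t1 ht1), ht1⟩ hy1cl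
    have huU := hy1P u hu1
    rw [hU0, mem_iUnion₂] at huU
    obtain ⟨t2, ht2T, huJ⟩ := huU
    set J := Metric.ball t2 (δ t2) with hJdef
    have hJP : J ⊆ P := hδP t2 (hfib t2 (hTsub t2 ht2T))
    obtain ⟨t0, ht0J, ht0A⟩ : ∃ t0 ∈ J, t0 ∉ Ad l V' := by
      by_contra hno
      push Not at hno
      obtain ⟨s, hs, s', hs', hd⟩ := hδε t2
      have h2 := diam_of_mem (Ad_closure h1 hl (hno s hs)) (Ad_closure h1 hl (hno s' hs'))
      rw [Metric.diam_closure] at h2
      have := hε0T t2 ht2T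
      linarith
    obtain ⟨p, hpA, hpJ, hpside⟩ := one_sided (isClosed_Ad h1 hl V') (ball_ordConnected t2 (δ t2))
      huA huJ ht0J ht0A
    have hpP : p ∈ P := hJP hpJ
    have hxV' : l p ∉ V' := fun h => disjoint_left.mp hV'L h ⟨p, rfl⟩
    obtain ⟨g, hg1, hg2, hg3, hg4, hg5, hg6⟩ := access hN hV'o hV'c hxV'
      (E := fun n : ℕ => Dc l (1 / ((n : ℝ) + 1)) p)
      (by
        intro m n hmn
        apply Dc_mono h1 hl p (by positivity)
        apply one_div_le_one_div_of_le (by positivity)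
        have : (m : ℝ) ≤ n := by exact_mod_cast hmn
        linarith)
      (fun n => (Dc_sub h1 hl p (by positivity)).trans sdiff_subset)
      (fun n => hpA _ (by positivity))
    refine ⟨l p, ⟨p, hpP, rfl⟩, g, hg1, hg2, hg4, hg3.trans (union_subset_union_left _ hV'V),
      hg5.mono (inter_subset_inter_right _ hV'V), ?_⟩
    have hgfin : (g ∩ range l).Finite := by
      apply (finite_singleton (l p)).subset
      rintro z ⟨hz1, hz2⟩
      rcases hg3 hz1 with h | h
      · exact absurd hz2 (disjoint_left.mp hV'L h)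
      · exact h
    have hgh : ∀ t, t ≠ p → Harmless l g t := by
      intro t htp
      by_cases hlt : l t = l p
      · obtain ⟨r, hr, hrd⟩ := hsep t p htp hlt
        obtain ⟨n, hn⟩ := exists_nat_one_div_lt hr
        obtain ⟨ρ, hρ, W, hW1, hW2, hW3, hW4⟩ := hg6 n
        have hWD : W ⊆ Dc l r p := by
          refine Subset.trans ?_ (Dc_mono h1 hl p (by positivity : (0:ℝ) < 1 / ((n : ℝ) + 1)) hn.le)
          apply sub_Dc h1 hl p (by positivity) hW1 _ hW3
          intro w hw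
          exact ⟨(hW2 hw).2, fun h => hxV' (by rw [mem_singleton_iff] at h; rw [← h]; exact (hW2 hw).1)⟩
        refine ⟨min ρ r, lt_min hρ hr, ?_⟩
        rw [disjoint_left]
        intro z hz hzD
        have h2 := Dc_sub h1 hl t (lt_min hρ hr) hzD
        rw [hlt] at h2
        have h3 := hW4 ⟨hz, Metric.ball_subset_ball (min_le_left _ _) h2.1⟩
        rcases h3 with h3 | h3
        · exact disjoint_left.mp hrd (Dc_mono h1 hl t (lt_min hρ hr) (min_le_right _ _) hzD) (hWD h3)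
        · exact h2.2 h3
      · apply harmless_of_not_mem h1 hl hg1.isClosed
        intro h
        rcases hg3 h with h | h
        · exact disjoint_left.mp hV'L h ⟨t, rfl⟩
        · exact hlt h
    have hxO : l p ∈ O := hLO _ (hPD hpP) ⟨p, rfl⟩
    obtain ⟨r1, hr1, hr1O⟩ := Metric.isOpen_iff.mp hOo _ hxO
    have main : ∀ (S : Set I), (∀ᶠ s in 𝓝 p, s ≠ p → s ∉ S → s ∉ Ad l V') →
        ∃ r0 : ℝ, 0 < r0 ∧ ∀ y ∈ Dc l r0 p, y ∈ closure V' → y ∉ V' → y ∈ l '' S := by
      intro S hS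
      obtain ⟨r2, hr2, hr2loc⟩ := hloc p _ (hS.and (hP.mem_nhds hpP))
      refine ⟨min r1 r2, lt_min hr1 hr2, fun y hyD hycl hyn => ?_⟩
      have hyD' := Dc_sub h1 hl p (lt_min hr1 hr2) hyD
      have hyO : y ∈ O := hr1O (Metric.ball_subset_ball (min_le_left _ _) hyD'.1)
      obtain ⟨s1, hs1⟩ := hV'bd y hyO hycl hyn
      have hyD2 : y ∈ Dc l r2 p := Dc_mono h1 hl p (lt_min hr1 hr2) (min_le_right _ _) hyD
      have hs1P : s1 ∈ P := (hr2loc s1 (by rw [hs1]; exact hyD2)).2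
      obtain ⟨t, ht, htA⟩ := hcase y ⟨s1, hs1P, hs1⟩ hycl
      have htO := hr2loc t (by rw [ht]; exact hyD2)
      have htp : t ≠ p := by
        rintro rfl
        exact hyD'.2 ht.symm
      refine ⟨t, ?_, ht⟩
      by_contra htS
      exact htO.1 htp htS htA
    rcases hpside with h | h
    · obtain ⟨r0, hr0, hr0s⟩ := main (Ioi p) (by
        filter_upwards [h] with s hs hsp hsS
        exact hs (lt_of_le_of_ne (not_lt.mp hsS) hsp))
      exact lemmaT hc h1 hl hloc hg1.isClosed hgfin hgh hr0 hV'o hV'L (by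
        rintro z ⟨hz, hzD⟩
        rcases hg3 hz with h | h
        · exact h
        · exact absurd h (Dc_sub h1 hl p hr0 hzD).2) (Or.inl hr0s)
    · obtain ⟨r0, hr0, hr0s⟩ := main (Iio p) (by
        filter_upwards [h] with s hs hsp hsS
        exact hs (lt_of_le_of_ne (not_lt.mp hsS) hsp.symm))
      exact lemmaT hc h1 hl hloc hg1.isClosed hgfin hgh hr0 hV'o hV'L (by
        rintro z ⟨hz, hzD⟩
        rcases hg3 hz with h | h
        · exact h
        · exact absurd h (Dc_sub h1 hl p hr0 hzD).2) (Or.inr hr0s)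

end Pool.Agent.Helper451.Reg
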