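import Pool.Agent.Helper451.Reg.R5

set_option autoImplicit false
set_option linter.unusedSectionVars false
set_option linter.unusedVariables false

open Set Filter Topology unitInterval

namespace Pool.Agent.Helper451.Reg
variable {X : Type*} [MetricSpace X] {l : I → X}

lemma sep_lemma [LocallyConnectedSpace X] {D L A B : Set X} (hD : IsOpen D) (hDc : IsPreconnected D)
    (hL : IsClosed L) (hAD : A ⊆ D) (hBD : B ⊆ D) (hAB : Disjoint A B) (hA : A.Nonempty) (hB : B.Nonempty)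
    (hcov : D ∩ L = A ∪ B) (hAc : ∀ z ∈ D, z ∈ closure A → z ∈ A) (hBc : ∀ z ∈ D, z ∈ closure B → z ∈ B) :
    ∃ v ∈ D \ L, (A ∩ closure (connectedComponentIn (D \ L) v)).Nonempty ∧
      (B ∩ closure (connectedComponentIn (D \ L) v)).Nonempty := by
  by_contra hno
  push Not at hno
  have hDL : IsOpen (D \ L) := hD.sdiff hL
  have hAL : A ⊆ L := fun x hx => (hcov.symm.subset (Or.inl hx)).2
  have hBL : B ⊆ L := fun x hx => (hcov.symm.subset (Or.inr hx)).2
  set P : Set X := A ∪ {v | v ∈ D \ L ∧ (A ∩ closure (connectedComponentIn (D \ L) v)).Nonempty} with hP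
  set Q : Set X := B ∪ {v | v ∈ D \ L ∧ ¬ (A ∩ closure (connectedComponentIn (D \ L) v)).Nonempty} with hQ
  -- frontier argument
  have hfr : ∀ (U : Set X) (x : X), IsOpen U → x ∈ U → U ⊆ D → x ∈ L →
      ∀ v ∈ connectedComponentIn U x, v ∉ L → ∃ z ∈ U, z ∈ L ∧ z ∈ closure (connectedComponentIn (D \ L) v) := by
    intro U x hU hxU hUD hxL v hv hvL
    have hvU := connectedComponentIn_subset _ _ hv
    have hvDL : v ∈ D \ L := ⟨hUD hvU, hvL⟩
    obtain ⟨z, hz1, hz2, hz3⟩ := meets_frontier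
      (isPreconnected_connectedComponentIn : IsPreconnected (connectedComponentIn U x))
      (hDL.connectedComponentIn (x := v)) ⟨v, hv, mem_connectedComponentIn hvDL⟩
      (fun h => (connectedComponentIn_subset _ _ (h (mem_connectedComponentIn hxU))).2 hxL)
    refine ⟨z, connectedComponentIn_subset _ _ hz1, ?_, hz2⟩
    by_contra hzL
    exact hz3 (comp_closed_in hz2 ⟨hUD (connectedComponentIn_subset _ _ hz1), hzL⟩)
  have hPo : IsOpen P := by
    rw [isOpen_iff_mem_nhds]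
    rintro x (hx | ⟨hx, hx2⟩)
    · have hxB : x ∉ closure B := fun h => disjoint_left.mp hAB hx (hBc x (hAD hx) h)
      have hU : IsOpen (D ∩ (closure B)ᶜ) := hD.inter isClosed_closure.isOpen_compl
      filter_upwards [(hU.connectedComponentIn (x := x)).mem_nhds (mem_connectedComponentIn ⟨hAD hx, hxB⟩)]
        with v hv
      have hvU := connectedComponentIn_subset _ _ hv
      by_cases hvL : v ∈ L
      · rcases hcov.subset ⟨hvU.1, hvL⟩ with h | h
        · exact Or.inl h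
        · exact absurd (subset_closure h) hvU.2
      · right
        refine ⟨⟨hvU.1, hvL⟩, ?_⟩
        obtain ⟨z, hz1, hz2, hz3⟩ := hfr _ x hU ⟨hAD hx, hxB⟩ inter_subset_left (hAL hx) v hv hvL
        rcases hcov.subset ⟨hz1.1, hz2⟩ with h | h
        · exact ⟨z, h, hz3⟩
        · exact absurd (subset_closure h) hz1.2
    · filter_upwards [(hDL.connectedComponentIn (x := x)).mem_nhds (mem_connectedComponentIn hx)] with v hv
      right
      refine ⟨connectedComponentIn_subset _ _ hv, ?_⟩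
      rw [← connectedComponentIn_eq hv]; exact hx2
  have hQo : IsOpen Q := by
    rw [isOpen_iff_mem_nhds]
    rintro x (hx | ⟨hx, hx2⟩)
    · have hxA : x ∉ closure A := fun h => disjoint_left.mp hAB (hAc x (hBD hx) h) hx
      have hU : IsOpen (D ∩ (closure A)ᶜ) := hD.inter isClosed_closure.isOpen_compl
      filter_upwards [(hU.connectedComponentIn (x := x)).mem_nhds (mem_connectedComponentIn ⟨hBD hx, hxA⟩)]
        with v hv
      have hvU := connectedComponentIn_subset _ _ hv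
      by_cases hvL : v ∈ L
      · rcases hcov.subset ⟨hvU.1, hvL⟩ with h | h
        · exact absurd (subset_closure h) hvU.2
        · exact Or.inl h
      · right
        refine ⟨⟨hvU.1, hvL⟩, ?_⟩
        obtain ⟨z, hz1, hz2, hz3⟩ := hfr _ x hU ⟨hBD hx, hxA⟩ inter_subset_left (hBL hx) v hv hvL
        intro hcon
        rcases hcov.subset ⟨hz1.1, hz2⟩ with h | h
        · exact absurd (subset_closure h) hz1.2
        · have := hno v ⟨hvU.1, hvL⟩ hcon
          have hz : z ∈ B ∩ closure (connectedComponentIn (D \ L) v) := ⟨h, hz3⟩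
          rw [this] at hz; exact hz
    · filter_upwards [(hDL.connectedComponentIn (x := x)).mem_nhds (mem_connectedComponentIn hx)] with v hv
      right
      refine ⟨connectedComponentIn_subset _ _ hv, ?_⟩
      rw [← connectedComponentIn_eq hv]; exact hx2
  have hcov2 : D ⊆ P ∪ Q := by
    intro x hx
    by_cases hxL : x ∈ L
    · rcases hcov.subset ⟨hx, hxL⟩ with h | h
      · exact Or.inl (Or.inl h)
      · exact Or.inr (Or.inl h)
    · by_cases h : (A ∩ closure (connectedComponentIn (D \ L) x)).Nonempty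
      · exact Or.inl (Or.inr ⟨⟨hx, hxL⟩, h⟩)
      · exact Or.inr (Or.inr ⟨⟨hx, hxL⟩, h⟩)
  obtain ⟨a, ha⟩ := hA
  obtain ⟨b, hb⟩ := hB
  obtain ⟨x, -, hxP, hxQ⟩ := hDc P Q hPo hQo hcov2 ⟨a, hAD ha, Or.inl ha⟩ ⟨b, hBD hb, Or.inl hb⟩
  rcases hxP with h | ⟨h, h'⟩ <;> rcases hxQ with h2 | ⟨h2, h2'⟩
  · exact disjoint_left.mp hAB h h2
  · exact h2.2 (hAL h)
  · exact h.2 (hBL h2)
  · exact h2' h'

lemma Step.symm {G : Set (Set X)} {e : X} {J : Set I} {s t : I} (h : Step l G e J s t) :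
    Step l G e J t s := by
  obtain ⟨h1, h2, h3⟩ := h
  refine ⟨h2, h1, ?_⟩
  rcases h3 with h3 | ⟨g, hg, h4, h5⟩
  · left; rw [uIcc_comm]; exact h3
  · exact Or.inr ⟨g, hg, h5, h4⟩

lemma Chain.symm {G : Set (Set X)} {e : X} {J : Set I} {s t : I} (h : Chain l G e J s t) :
    Chain l G e J t s := by
  induction h with
  | refl => exact Relation.ReflTransGen.refl
  | tail _ h2 ih => exact Relation.ReflTransGen.head h2.symm ih

lemma Chain.mono {G G' : Set (Set X)} {e : X} {J J' : Set I} (hG : G ⊆ G') (hJ : J ⊆ J') {s t : I}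
    (h : Chain l G e J s t) : Chain l G' e J' s t := by
  have key : ∀ a b, Step l G e J a b → Step l G' e J' a b := by
    rintro a b ⟨h1, h2, h3⟩
    refine ⟨hJ h1, hJ h2, ?_⟩
    rcases h3 with ⟨h3, h4⟩ | ⟨g, hg, h4, h5⟩
    · exact Or.inl ⟨h3.trans hJ, h4⟩
    · exact Or.inr ⟨g, hG hg, h4, h5⟩
  induction h with
  | refl => exact Relation.ReflTransGen.refl
  | tail _ h2 ih => exact Relation.ReflTransGen.tail ih (key _ _ h2)

lemma Chain.finite {G : Set (Set X)} {e : X} {J : Set I} {s t : I}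
    (h : Chain l G e J s t) : ∃ G' ⊆ G, G'.Finite ∧ Chain l G' e J s t := by
  induction h with
  | refl => exact ⟨∅, empty_subset _, finite_empty, Relation.ReflTransGen.refl⟩
  | tail _ h2 ih =>
    obtain ⟨G', h3, h4, h5⟩ := ih
    obtain ⟨h6, h7, h8⟩ := h2
    rcases h8 with h8 | ⟨g, hg, h9, h10⟩
    · exact ⟨G', h3, h4, Relation.ReflTransGen.tail h5 ⟨h6, h7, Or.inl h8⟩⟩
    · refine ⟨insert g G', insert_subset hg h3, h4.insert g, ?_⟩
      refine Relation.ReflTransGen.tail (Chain.mono (subset_insert _ _) subset_rfl h5) ?_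
      exact ⟨h6, h7, Or.inr ⟨g, mem_insert _ _, h9, h10⟩⟩

/-- good connecting sets -/
def GG (l : I → X) (D : Set X) : Set (Set X) :=
  {g | IsConnected g ∧ IsCompact g ∧ Safe l g ∧ (g ∩ range l).Nonempty ∧ g ⊆ D}

lemma bridge [CompactSpace X] [LocallyConnectedSpace X] (hN : Null X) (hc : Continuous l)
    (h1 : L1 l) (hl : Light l) (hsep : Sep l) (hloc : Loc l) {D : Set X} (hD : IsOpen D)
    (hDc : IsPreconnected D) {e : X} (he : e ∉ D) {a b : I} (ha : l a ∈ D) (hb : l b ∈ D) :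
    Chain l (GG l D) e (l ⁻¹' D) a b := by
  have hLc : IsClosed (range l) := (isCompact_range hc).isClosed
  by_contra hab
  set P : Set I := {t | l t ∈ D ∧ Chain l (GG l D) e (l ⁻¹' D) a t} with hP
  set Q : Set I := {t | l t ∈ D ∧ ¬ Chain l (GG l D) e (l ⁻¹' D) a t} with hQ
  have hstep : ∀ t, l t ∈ D → ∀ᶠ s in 𝓝 t, l s ∈ D ∧ Step l (GG l D) e (l ⁻¹' D) t s := by
    intro t ht
    obtain ⟨δ, hδ, hδD⟩ := Metric.isOpen_iff.mp (hD.preimage hc) t ht
    filter_upwards [Metric.ball_mem_nhds t hδ] with s hs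
    have hu : uIcc t s ⊆ Metric.ball t δ :=
      (ball_ordConnected t δ).uIcc_subset (Metric.mem_ball_self hδ) hs
    refine ⟨hδD hs, ht, hδD hs, Or.inl ⟨hu.trans hδD, fun u hus h => he ?_⟩⟩
    rw [← h]; exact hδD (hu hus)
  have hPo : IsOpen P := by
    rw [isOpen_iff_mem_nhds]
    rintro t ⟨ht, hct⟩
    filter_upwards [hstep t ht] with s hs
    exact ⟨hs.1, Relation.ReflTransGen.tail hct hs.2⟩
  have hQo : IsOpen Q := by
    rw [isOpen_iff_mem_nhds]
    rintro t ⟨ht, hct⟩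
    filter_upwards [hstep t ht] with s hs
    exact ⟨hs.1, fun h => hct (Relation.ReflTransGen.tail h hs.2.symm)⟩
  have hdis : ∀ s ∈ P, ∀ t ∈ Q, l s ≠ l t := by
    rintro s ⟨hs1, hs2⟩ t ⟨ht1, ht2⟩ hst
    apply ht2
    refine Relation.ReflTransGen.tail hs2 ⟨hs1, ht1, Or.inr ⟨{l s}, ⟨isConnected_singleton,
      isCompact_singleton, safe_singleton h1 hl _, ⟨l s, rfl, s, rfl⟩, singleton_subset_iff.mpr hs1⟩,
      rfl, ?_⟩⟩
    rw [mem_singleton_iff]; exact hst.symm
  have hdis' : ∀ s ∈ Q, ∀ t ∈ P, l s ≠ l t := fun s hs t ht h => hdis t ht s hs h.symm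
  have hPD : P ⊆ l ⁻¹' D := fun t ht => ht.1
  have hQD : Q ⊆ l ⁻¹' D := fun t ht => ht.1
  have hcovt : l ⁻¹' D ⊆ P ∪ Q := by
    intro t ht
    by_cases h : Chain l (GG l D) e (l ⁻¹' D) a t
    · exact Or.inl ⟨ht, h⟩
    · exact Or.inr ⟨ht, h⟩
  have hclosed : ∀ P Q : Set I, IsOpen Q → Disjoint P Q → l ⁻¹' D ⊆ P ∪ Q → ∀ z ∈ D,
      z ∈ closure (l '' P) → z ∈ l '' P := by
    intro P Q hQo hPQ hcov z hzD hz
    have h2 : closure (l '' P) ⊆ l '' closure P := by
      apply closure_minimal (image_mono subset_closure)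
      exact (isClosed_closure.isCompact.image hc).isClosed
    obtain ⟨t, ht, rfl⟩ := h2 hz
    rcases hcov hzD with h | h
    · exact ⟨t, h, rfl⟩
    · obtain ⟨w, hw1, hw2⟩ := mem_closure_iff.mp ht Q hQo h
      exact absurd hw1 (disjoint_left.mp hPQ hw2)
  have hPQd : Disjoint P Q := by
    rw [disjoint_left]; rintro t ⟨_, h⟩ ⟨_, h'⟩; exact h' h
  have haP : a ∈ P := ⟨ha, Relation.ReflTransGen.refl⟩
  have hbQ : b ∈ Q := ⟨hb, hab⟩
  obtain ⟨v, hv, ⟨y, hy1, hy2⟩, ⟨y', hy1', hy2'⟩⟩ := sep_lemma hD hDc hLc (A := l '' P) (B := l '' Q)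
    (by rintro _ ⟨t, ht, rfl⟩; exact ht.1) (by rintro _ ⟨t, ht, rfl⟩; exact ht.1)
    (by rw [disjoint_left]; rintro _ ⟨s, hs, rfl⟩ ⟨t, ht, h⟩; exact hdis s hs t ht h.symm)
    ⟨l a, a, haP, rfl⟩ ⟨l b, b, hbQ, rfl⟩
    (by
      ext z
      constructor
      · rintro ⟨hz, t, rfl⟩
        rcases hcovt hz with h | h
        · exact Or.inl ⟨t, h, rfl⟩
        · exact Or.inr ⟨t, h, rfl⟩
      · rintro (⟨t, ht, rfl⟩ | ⟨t, ht, rfl⟩)
        · exact ⟨ht.1, t, rfl⟩
        · exact ⟨ht.1, t, rfl⟩)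
    (hclosed P Q hQo hPQd hcovt) (hclosed Q P hPo hPQd.symm (by rw [union_comm]; exact hcovt))
  set V := connectedComponentIn (D \ range l) v with hV
  have hVo : IsOpen V := (hD.sdiff hLc).connectedComponentIn
  have hVc : IsPreconnected V := isPreconnected_connectedComponentIn
  have hVsub : V ⊆ D \ range l := connectedComponentIn_subset _ _
  have hVD : V ⊆ D := fun z hz => (hVsub hz).1
  have hVL : Disjoint V (range l) := by
    rw [disjoint_left]; intro z hz; exact (hVsub hz).2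
  have hVcomp : ∀ M : Set X, IsPreconnected M → M ⊆ D \ range l → (M ∩ V).Nonempty → M ⊆ V := by
    rintro M hM hMs ⟨z, hzM, hzV⟩
    rw [hV, connectedComponentIn_eq hzV]
    exact hM.subset_connectedComponentIn hzM hMs
  obtain ⟨x, ⟨s, hs, hsx⟩, g, hg1, hg2, hg3, hg4, ⟨w, hwg, hwV⟩, hg6⟩ := lemmaF hN hc h1 hl hsep hloc hD hPo hcovt
    hPD hdis hVD hVL hVcomp hy1 hy2
  obtain ⟨x', ⟨t, ht, htx⟩, g', hg1', hg2', hg3', hg4', ⟨w', hwg', hwV'⟩, hg6'⟩ := lemmaF hN hc h1 hl hsep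
    hloc hD hQo (by rw [union_comm]; exact hcovt) hQD hdis' hVD hVL hVcomp hy1' hy2'
  obtain ⟨K, hK1, hK2, hK3, hK4, hK5⟩ := exists_cc hVo hVc hwV hwV'
  have hxD : x ∈ D := by rw [← hsx]; exact hs.1
  have hxD' : x' ∈ D := by rw [← htx]; exact ht.1
  apply ht.2
  refine Relation.ReflTransGen.tail hs.2 ⟨hs.1, ht.1, Or.inr ⟨(g ∪ K) ∪ g', ⟨⟨⟨x, Or.inl (Or.inl hg3)⟩, ?_⟩,
    (hg1.union hK1).union hg1', ?_, ⟨x, Or.inl (Or.inl hg3), s, hsx⟩, ?_⟩, ?_, ?_⟩⟩
  · exact (hg2.union w hwg hK4 hK2).union w' (Or.inr hK5) hwg' hg2'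
  · exact (hg6.union (safe_off h1 hl hK1.isClosed (hVL.mono_left hK3))).union hg6'
  · rintro z ((hz | hz) | hz)
    · rcases hg4 hz with h | h
      · exact hVD h
      · rw [mem_singleton_iff] at h; rw [h]; exact hxD
    · exact hVD (hK3 hz)
    · rcases hg4' hz with h | h
      · exact hVD h
      · rw [mem_singleton_iff] at h; rw [h]; exact hxD'
  · rw [hsx]; exact Or.inl (Or.inl hg3)
  · rw [htx]; exact Or.inr hg3'

lemma safe_sUnion {G : Set (Set X)} (hG : G.Finite) (hs : ∀ g ∈ G, Safe l g) :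
    ∀ Γ, H l Γ → H l (Γ ∪ ⋃₀ G) := by
  induction G, hG using Set.Finite.induction_on with
  | empty => intro Γ hΓ; rw [sUnion_empty, union_empty]; exact hΓ
  | @insert g G hg hGf ih =>
    intro Γ hΓ
    rw [sUnion_insert, ← union_assoc]
    exact ih (fun g' hg' => hs g' (mem_insert_of_mem _ hg')) _ ((hs g (mem_insert _ _)).2.2 Γ hΓ)

theorem chain_lemma [CompactSpace X] [LocallyConnectedSpace X] (hN : Null X) (hc : Continuous l)
    (hl : Light l) (hsep : Sep l) {Γ : Set X} (hΓ : H l Γ) {J : Set I} (hJ : IsOpen J)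
    (hJc : IsPreconnected J) {a b : I} (ha : a ∈ J) (hb : b ∈ J) {e : X} (hae : l a ≠ e) (hbe : l b ≠ e) :
    ∃ G : Set (Set X), G.Finite ∧
        (∀ g ∈ G, IsConnected g ∧ IsCompact g ∧ (g ∩ range l).Finite ∧ (g ∩ range l).Nonempty ∧
          Disjoint g Γ) ∧
        (∀ Γ' : Set X, H l Γ' → H l (Γ' ∪ ⋃₀ G)) ∧ Chain l G e J a b := by
  have h1 : L1 l := hΓ.L1
  have hloc : Loc l := hsep.loc hc h1 hl
  have key : Chain l (GG l Γᶜ) e J a b := by
    refine local_const hl hJ hJc e (Chain l (GG l Γᶜ) e J) (fun s t h => h.symm)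
      (fun s t u h h' => Relation.ReflTransGen.trans h h') ?_ ha hb hae hbe
    intro τ hτ
    by_cases hτe : l τ = e
    · obtain ⟨r, hr, hrloc⟩ := hloc τ J (hJ.mem_nhds hτ)
      obtain ⟨M, hM1, hM2, hM3, hM4⟩ := hΓ.2 τ r hr
      refine ⟨_, hM4, fun s hs s' hs' hsJ hsJ' hse hse' => ?_⟩
      have hsM : l s ∈ M := hs (by rw [hτe]; exact hse)
      have hsM' : l s' ∈ M := hs' (by rw [hτe]; exact hse')
      set D0 : Set X := Metric.ball (l τ) r \ ({l τ} ∪ Γ) with hD0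
      have hD0o : IsOpen D0 := Metric.isOpen_ball.sdiff (isClosed_singleton.union hΓ.1)
      have hMD0 : M ⊆ D0 := by
        intro z hz
        refine ⟨(hM2 hz).1, ?_⟩
        rintro (h | h)
        · exact (hM2 hz).2 h
        · exact disjoint_left.mp hM3 hz h
      set D : Set X := connectedComponentIn D0 (l s) with hD
      have hDo : IsOpen D := hD0o.connectedComponentIn
      have hDc : IsPreconnected D := isPreconnected_connectedComponentIn
      have hDD0 : D ⊆ D0 := connectedComponentIn_subset _ _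
      have hMD : M ⊆ D := hM1.subset_connectedComponentIn hsM hMD0
      have heD : e ∉ D := fun h => (hDD0 h).2 (Or.inl hτe.symm)
      have hDDc : D ⊆ Dc l r τ := by
        apply sub_Dc h1 hl τ hr hDc
        · intro z hz
          exact ⟨(hDD0 hz).1, fun h => (hDD0 hz).2 (Or.inl h)⟩
        · obtain ⟨u, hu, h5, h6⟩ := ((hl.freq τ (l τ)).and_eventually
            (hM4.and (Dc_mem h1 hl τ hr))).exists
          exact ⟨l u, hMD (h5 hu), h6 hu⟩
      have hbr := bridge hN hc h1 hl hsep hloc hDo hDc heD (hMD hsM) (hMD hsM')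
      refine Chain.mono ?_ ?_ hbr
      · rintro g ⟨h2, h3, h4, h5, h6⟩
        exact ⟨h2, h3, h4, h5, fun z hz hzΓ => (hDD0 (h6 hz)).2 (Or.inr hzΓ)⟩
      · intro u hu
        exact hrloc u (hDDc hu)
    · have hO : IsOpen (J ∩ l ⁻¹' {e}ᶜ) := hJ.inter (isOpen_compl_singleton.preimage hc)
      obtain ⟨δ, hδ, hδO⟩ := Metric.isOpen_iff.mp hO τ ⟨hτ, hτe⟩
      refine ⟨_, Metric.ball_mem_nhds τ hδ, fun s hs s' hs' _ _ _ _ => ?_⟩
      have hu : uIcc s s' ⊆ Metric.ball τ δ := (ball_ordConnected τ δ).uIcc_subset hs hs'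
      exact Relation.ReflTransGen.single ⟨(hδO hs).1, (hδO hs').1, Or.inl
        ⟨fun u hus => (hδO (hu hus)).1, fun u hus => (hδO (hu hus)).2⟩⟩
  obtain ⟨G, hG1, hG2, hG3⟩ := key.finite
  refine ⟨G, hG2, ?_, safe_sUnion hG2 (fun g hg => (hG1 hg).2.2.1), hG3⟩
  intro g hg
  obtain ⟨h2, h3, h4, h5, h6⟩ := hG1 hg
  refine ⟨h2, h3, h4.2.1, h5, ?_⟩
  rw [disjoint_left]
  intro z hz hzΓ
  exact h6 hz hzΓ

end Pool.Agent.Helper451.Reg
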