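import Pool.Agent.Helper451.Reg.R6

set_option autoImplicit false
set_option linter.unusedSectionVars false
set_option linter.unusedVariables false

open Set Filter Topology unitInterval

namespace Pool.Agent.Helper451.Reg
variable {X : Type*} [MetricSpace X] {l : I → X}

lemma Unp.L1 [LocallyConnectedSpace X] (hc : Continuous l) (h : Unp l) : L1 l := by
  intro t r hr
  have h1 : ∀ᶠ s in 𝓝 t, l s ∈ Metric.ball (l t) (r / 2) :=
    hc.continuousAt (Metric.ball_mem_nhds _ (half_pos hr))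
  obtain ⟨δ, hδ, hδ2⟩ := Metric.eventually_nhds_iff_ball.mp h1
  by_cases hex : ∃ s0 ∈ Metric.ball t δ, l s0 ≠ l t
  · obtain ⟨s0, hs0, hs0e⟩ := hex
    refine ⟨connectedComponentIn (Metric.ball (l t) r \ {l t}) (l s0),
      isPreconnected_connectedComponentIn, connectedComponentIn_subset _ _, ?_⟩
    filter_upwards [Metric.ball_mem_nhds t hδ] with s hs hse
    have key : ∀ a b, a ∈ Metric.ball t δ → b ∈ Metric.ball t δ → l a ≠ l t → l b ≠ l t → a < b →
        ∃ M : Set X, IsPreconnected M ∧ M ⊆ Metric.ball (l t) r \ {l t} ∧ l a ∈ M ∧ l b ∈ M := by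
      intro a b ha hb hae hbe hab
      obtain ⟨M, hM1, hM2, hM3, hM4, hM5⟩ := h a b hab (l t) hae hbe (r / 2) (half_pos hr)
      refine ⟨M, hM1, ?_, hM4, hM5⟩
      intro y hy
      refine ⟨?_, fun h => hM3 (by rw [mem_singleton_iff] at h; rw [← h]; exact hy)⟩
      have h3 := hM2 hy
      rw [Metric.mem_thickening_iff] at h3
      obtain ⟨z, ⟨u, hu, rfl⟩, hz⟩ := h3
      have h4 : u ∈ Metric.ball t δ := (ball_ordConnected t δ).out ha hb hu
      have h5 := hδ2 u h4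
      rw [Metric.mem_ball] at h5 ⊢
      have := dist_triangle y (l u) (l t)
      linarith
    have hs0m : l s0 ∈ Metric.ball (l t) r \ {l t} :=
      ⟨Metric.ball_subset_ball (by linarith) (hδ2 s0 hs0), hs0e⟩
    rcases lt_trichotomy s s0 with h | h | h
    · obtain ⟨M, hM1, hM2, hM3, hM4⟩ := key s s0 hs hs0 hse hs0e h
      exact hM1.subset_connectedComponentIn hM4 hM2 hM3
    · rw [h]; exact mem_connectedComponentIn hs0m
    · obtain ⟨M, hM1, hM2, hM3, hM4⟩ := key s0 s hs0 hs hs0e hse h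
      exact hM1.subset_connectedComponentIn hM3 hM2 hM4
  · push Not at hex
    refine ⟨∅, isPreconnected_empty, empty_subset _, ?_⟩
    filter_upwards [Metric.ball_mem_nhds t hδ] with s hs hse
    exact absurd (hex s hs) hse

/-- same point, same germ -/
def rel (l : I → X) (s t : I) : Prop := l s = l t ∧ ∀ r : ℝ, 0 < r → Dc l r s = Dc l r t

lemma Dc_eq_of_meet (h1 : L1 l) (hl : Light l) {s t : I} (hst : l s = l t) {r : ℝ} (hr : 0 < r)
    {x : X} (hx : x ∈ Dc l r s) (hx' : x ∈ Dc l r t) : Dc l r s = Dc l r t := by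
  apply Subset.antisymm
  · apply sub_Dc h1 hl t hr (Dc_preconn h1 hl s hr) _ ⟨x, hx, hx'⟩
    have := Dc_sub h1 hl s hr; rwa [hst] at this
  · apply sub_Dc h1 hl s hr (Dc_preconn h1 hl t hr) _ ⟨x, hx', hx⟩
    have := Dc_sub h1 hl t hr; rwa [← hst] at this

lemma rel_closed (hc : Continuous l) (h1 : L1 l) (hl : Light l) {s t : I}
    (h : ∀ U ∈ 𝓝 s, ∀ V ∈ 𝓝 t, ∃ s' ∈ U, ∃ t' ∈ V, rel l s' t') : rel l s t := by
  have hst : l s = l t := by
    by_contra hne
    obtain ⟨U, V, hU, hV, hsU, htV, hUV⟩ := t2_separation hne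
    obtain ⟨s', hs', t', ht', hr⟩ := h _ (hc.continuousAt.preimage_mem_nhds (hU.mem_nhds hsU)) _
      (hc.continuousAt.preimage_mem_nhds (hV.mem_nhds htV))
    have h2 : l s' ∈ U := hs'
    have h3 : l t' ∈ V := ht'
    rw [← hr.1] at h3
    exact disjoint_left.mp hUV h2 h3
  refine ⟨hst, fun r hr => ?_⟩
  obtain ⟨s', ⟨hs1, hs2⟩, t', ⟨ht1, ht2⟩, hr2⟩ := h _ ((Dc_mem h1 hl s hr).and (Dc_eq_near h1 hl s hr)) _
    ((Dc_mem h1 hl t hr).and (Dc_eq_near h1 hl t hr))
  by_cases he : l s' = l s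
  · have h3 := hs2 he
    have h4 := ht2 (by rw [← hr2.1, he, hst])
    rw [← h3, ← h4]; exact hr2.2 r hr
  · have h3 := hs1 he
    have h4 := ht1 (by rw [← hr2.1, ← hst]; exact he)
    rw [← hr2.1] at h4
    exact Dc_eq_of_meet h1 hl hst hr h3 h4

/-- closed sets whose gaps have related ends -/
def GapOK (l : I → X) : Set (Set I) :=
  {K | IsClosed K ∧ (0 : I) ∈ K ∧ (1 : I) ∈ K ∧ ∀ s ∈ K, ∀ t ∈ K, s < t → Ioo s t ∩ K = ∅ → rel l s t}

lemma exists_min_gap (hc : Continuous l) (h1 : L1 l) (hl : Light l) :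
    ∃ K, Minimal (· ∈ GapOK l) K := by
  apply zorn_superset
  intro c hcS hchain
  by_cases hcne : c.Nonempty
  · refine ⟨⋂₀ c, ⟨isClosed_sInter (fun K hK => (hcS hK).1), mem_sInter.mpr (fun K hK => (hcS hK).2.1),
      mem_sInter.mpr (fun K hK => (hcS hK).2.2.1), ?_⟩, fun K hK => sInter_subset_of_mem hK⟩
    intro s hs t ht hst hgap
    apply rel_closed hc h1 hl
    intro U hU V hV
    -- choose s < s1 < t1 < t
    obtain ⟨m, hm1, hm2⟩ := exists_between hst
    obtain ⟨s1, hs1, hs1U⟩ : ∃ s1, s < s1 ∧ s1 ≤ m ∧ Icc s s1 ⊆ U := by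
      obtain ⟨u, hu, huU⟩ := exists_Ico_subset_of_mem_nhds hU ⟨m, hm1⟩
      obtain ⟨v, hv1, hv2⟩ := exists_between (lt_min hu hm1)
      exact ⟨v, hv1, (hv2.trans_le (min_le_right _ _)).le, fun x hx => huU ⟨hx.1, hx.2.trans_lt (hv2.trans_le (min_le_left _ _))⟩⟩
    obtain ⟨t1, ht1, ht1V⟩ : ∃ t1, t1 < t ∧ m ≤ t1 ∧ Icc t1 t ⊆ V := by
      obtain ⟨u, hu, huV⟩ := exists_Ioc_subset_of_mem_nhds hV ⟨m, hm2⟩
      obtain ⟨v, hv1, hv2⟩ := exists_between (max_lt hu hm2)
      exact ⟨v, hv2, ((le_max_right _ _).trans_lt hv1).le, fun x hx => huV ⟨((le_max_left _ _).trans_lt hv1).trans_le hx.1, hx.2⟩⟩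
    have hex : ∃ K ∈ c, Icc s1 t1 ∩ K = ∅ := by
      by_contra hno
      push Not at hno
      obtain ⟨K0, hK0⟩ := hcne
      have hne : Nonempty c := ⟨⟨K0, hK0⟩⟩
      have h2 : (⋂ K : c, (Icc s1 t1 ∩ (K : Set I))).Nonempty := by
        apply IsCompact.nonempty_iInter_of_directed_nonempty_isCompact_isClosed
        · intro K1 K2
          rcases hchain.total K1.2 K2.2 with h | h
          · exact ⟨K1, subset_rfl, inter_subset_inter_right _ h⟩
          · exact ⟨K2, inter_subset_inter_right _ h, subset_rfl⟩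
        · intro K; exact hno K.1 K.2
        · intro K; exact isCompact_Icc.inter_right (hcS K.2).1
        · intro K; exact isClosed_Icc.inter (hcS K.2).1
      obtain ⟨x, hx⟩ := h2
      rw [mem_iInter] at hx
      have hx1 := (hx ⟨K0, hK0⟩).1
      have hx2 : x ∈ Ioo s t ∩ ⋂₀ c := by
        refine ⟨⟨hs1.trans_le hx1.1, hx1.2.trans_lt ht1⟩, mem_sInter.mpr (fun K hK => (hx ⟨K, hK⟩).2)⟩
      rw [hgap] at hx2; exact hx2
    obtain ⟨K, hK, hKe⟩ := hex
    have hsK : s ∈ K := mem_sInter.mp hs K hK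
    have htK : t ∈ K := mem_sInter.mp ht K hK
    obtain ⟨s', hs'⟩ := ((isCompact_Icc (a := s) (b := s1)).inter_left (hcS hK).1).exists_isGreatest
      ⟨s, hsK, le_rfl, hs1.le⟩
    obtain ⟨t', ht'⟩ := ((isCompact_Icc (a := t1) (b := t)).inter_left (hcS hK).1).exists_isLeast
      ⟨t, htK, ht1.le, le_rfl⟩
    refine ⟨s', hs1U.2 hs'.1.2, t', ht1V.2 ht'.1.2, ?_⟩
    have hlt : s' < t' := by
      have h2 : s' ≤ m := hs'.1.2.2.trans hs1U.1
      have h3 : m ≤ t' := ht1V.1.trans ht'.1.2.1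
      rcases (h2.trans h3).lt_or_eq with h | h
      · exact h
      · exfalso
        have h5 : s' = m := le_antisymm h2 (h ▸ h3)
        have h6 : m ∈ Icc s1 t1 ∩ K := ⟨⟨hs1U.1, ht1V.1⟩, h5 ▸ hs'.1.1⟩
        rw [hKe] at h6; exact h6
    apply (hcS hK).2.2.2 s' hs'.1.1 t' ht'.1.1 hlt
    rw [eq_empty_iff_forall_notMem]
    rintro u ⟨⟨hu1, hu2⟩, huK⟩
    by_cases hus1 : u ≤ s1
    · exact absurd (hs'.2 ⟨huK, hs'.1.2.1.trans hu1.le, hus1⟩) (not_le.mpr hu1)
    · by_cases hut1 : t1 ≤ u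
      · exact absurd (ht'.2 ⟨huK, hut1, hu2.le.trans ht'.1.2.2⟩) (not_le.mpr hu2)
      · push Not at hus1 hut1
        have : u ∈ Icc s1 t1 ∩ K := ⟨⟨hus1.le, hut1.le⟩, huK⟩
        rw [hKe] at this; exact this
  · rw [not_nonempty_iff_eq_empty] at hcne
    refine ⟨univ, ⟨isClosed_univ, mem_univ _, mem_univ _, ?_⟩, by rw [hcne]; simp⟩
    intro s _ t _ hst hgap
    obtain ⟨m, hm⟩ := exists_between hst
    have : m ∈ Ioo s t ∩ univ := ⟨hm, mem_univ _⟩
    rw [hgap] at this; exact absurd this (notMem_empty _)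

lemma min_gap_rel {K : Set I} (hK : Minimal (· ∈ GapOK l) K) {s t : I} (hs : s ∈ K) (ht : t ∈ K)
    (hst : s < t) (hr : rel l s t) : Ioo s t ∩ K = ∅ := by
  have hmem : K \ Ioo s t ∈ GapOK l := by
    refine ⟨hK.prop.1.sdiff isOpen_Ioo, ⟨hK.prop.2.1, fun h => not_lt.mpr bot_le h.1⟩,
      ⟨hK.prop.2.2.1, fun h => not_lt.mpr le_top h.2⟩, ?_⟩
    intro a ha b hb hab hgap
    by_cases hgap2 : Ioo a b ∩ K = ∅
    · exact hK.prop.2.2.2 a ha.1 b hb.1 hab hgap2
    · rw [← Ne, ← nonempty_iff_ne_empty] at hgap2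
      obtain ⟨u, ⟨hu1, hu2⟩, huK⟩ := hgap2
      have hust : u ∈ Ioo s t := by
        by_contra h
        have : u ∈ Ioo a b ∩ (K \ Ioo s t) := ⟨⟨hu1, hu2⟩, huK, h⟩
        rw [hgap] at this; exact this
      have has : a ≤ s := by
        by_contra h
        push Not at h
        exact ha.2 ⟨h, hu1.trans hust.2⟩
      have hbt : t ≤ b := by
        by_contra h
        push Not at h
        exact hb.2 ⟨hust.1.trans hu2, h⟩
      have has' : a = s := by
        rcases has.lt_or_eq with h | h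
        · exfalso
          have : s ∈ Ioo a b ∩ (K \ Ioo s t) := ⟨⟨h, hust.1.trans hu2⟩, hs, fun h => lt_irrefl _ h.1⟩
          rw [hgap] at this; exact this
        · exact h
      have hbt' : b = t := by
        rcases hbt.lt_or_eq with h | h
        · exfalso
          have : t ∈ Ioo a b ∩ (K \ Ioo s t) := ⟨⟨hu1.trans hust.2, h⟩, ht, fun h => lt_irrefl _ h.2⟩
          rw [hgap] at this; exact this
        · exact h.symm
      rw [has', hbt']; exact hr
  have hsub := hK.le_of_le hmem sdiff_subset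
  rw [eq_empty_iff_forall_notMem]
  rintro u ⟨hu, huK⟩
  exact (hsub huK).2 hu

end Pool.Agent.Helper451.Reg
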