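import Pool.Agent.Helper451.Reg.R7

set_option autoImplicit false
set_option linter.unusedSectionVars false
set_option linter.unusedVariables false

open Set Filter Topology unitInterval

namespace Pool.Agent.Helper451.Reg
variable {X : Type*} [MetricSpace X] {l : I → X}

/-- the greatest element of K below u -/
lemma exists_ret {K : Set I} (hK : IsClosed K) (h0 : (0 : I) ∈ K) :
    ∃ r : I → I, ∀ u, IsGreatest (K ∩ Iic u) (r u) := by
  have : ∀ u : I, ∃ v, IsGreatest (K ∩ Iic u) v := by
    intro u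
    exact (((isClosed_Iic (a := u)).isCompact).inter_left hK).exists_isGreatest ⟨0, h0, mem_Iic.mpr bot_le⟩
  choose r hr using this
  exact ⟨r, hr⟩

section ret
variable {K : Set I} {r : I → I}

lemma ret_self (hr : ∀ u, IsGreatest (K ∩ Iic u) (r u)) {u : I} (hu : u ∈ K) : r u = u :=
  le_antisymm (hr u).1.2 ((hr u).2 ⟨hu, mem_Iic.mpr le_rfl⟩)

lemma ret_mono (hr : ∀ u, IsGreatest (K ∩ Iic u) (r u)) {u v : I} (huv : u ≤ v) : r u ≤ r v :=
  (hr v).2 ⟨(hr u).1.1, (hr u).1.2.trans huv⟩

/-- behaviour of the retraction near a point -/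
lemma ret_near (hK : K ∈ GapOK l) (hr : ∀ u, IsGreatest (K ∩ Iic u) (r u)) (u : I) {U : Set I}
    (hU : U ∈ 𝓝 (r u)) : ∀ᶠ v in 𝓝 u, r v ∈ U ∨ rel l (r v) (r u) := by
  by_cases huK : u ∈ K
  · have hru : r u = u := ret_self hr huK
    rw [hru] at hU ⊢
    -- right side
    have hright : ∀ᶠ v in 𝓝 u, u ≤ v → r v ∈ U := by
      by_cases hu1 : ∃ m, u < m
      · obtain ⟨w, hw, hwU⟩ := exists_Ico_subset_of_mem_nhds hU hu1
        filter_upwards [Iio_mem_nhds hw] with v hv huv
        apply hwU
        exact ⟨by rw [← hru]; exact ret_mono hr huv, (hr v).1.2.trans_lt hv⟩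
      · push Not at hu1
        filter_upwards with v huv
        have : v = u := le_antisymm (hu1 v) huv
        rw [this, hru]; exact mem_of_mem_nhds hU
    have hleft : ∀ᶠ v in 𝓝 u, v < u → r v ∈ U ∨ rel l (r v) u := by
      by_cases hu0 : ∃ m, m < u
      · obtain ⟨w, hw, hwU⟩ := exists_Ioc_subset_of_mem_nhds hU hu0
        by_cases hacc : (K ∩ Ioo w u).Nonempty
        · obtain ⟨k, hkK, hk1, hk2⟩ := hacc
          filter_upwards [Ioi_mem_nhds hk2] with v hv hvu
          left
          apply hwU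
          refine ⟨hk1.trans_le ((hr v).2 ⟨hkK, mem_Iic.mpr (le_of_lt hv)⟩), (hr v).1.2.trans hvu.le⟩
        · rw [not_nonempty_iff_eq_empty] at hacc
          -- left end of the gap
          obtain ⟨m, hm⟩ := exists_between hw
          have hs := hr m
          set s := r m with hsdef
          have hsw : s ≤ w := by
            by_contra h
            push Not at h
            have : s ∈ K ∩ Ioo w u := ⟨hs.1.1, h, hs.1.2.trans_lt hm.2⟩
            rw [hacc] at this; exact this
          have hsu : s < u := hsw.trans_lt hw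
          have hgap : Ioo s u ∩ K = ∅ := by
            rw [eq_empty_iff_forall_notMem]
            rintro x ⟨⟨hx1, hx2⟩, hxK⟩
            by_cases hxm : x ≤ m
            · exact absurd (hs.2 ⟨hxK, hxm⟩) (not_le.mpr hx1)
            · push Not at hxm
              have : x ∈ K ∩ Ioo w u := ⟨hxK, hm.1.trans hxm, hx2⟩
              rw [hacc] at this; exact this
          have hrel : rel l s u := hK.2.2.2 s hs.1.1 u huK hsu hgap
          filter_upwards [Ioi_mem_nhds hsu] with v hv hvu
          right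
          have : r v = s := by
            apply le_antisymm
            · by_contra h
              push Not at h
              have : r v ∈ Ioo s u ∩ K := ⟨⟨h, (hr v).1.2.trans_lt hvu⟩, (hr v).1.1⟩
              rw [hgap] at this; exact this
            · exact (hr v).2 ⟨hs.1.1, mem_Iic.mpr (le_of_lt hv)⟩
          rw [this]; exact hrel
      · push Not at hu0
        filter_upwards with v hvu
        exact absurd hvu (not_lt.mpr (hu0 v))
    filter_upwards [hright, hleft] with v h1 h2
    rcases le_or_gt u v with h | h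
    · exact Or.inl (h1 h)
    · exact h2 h
  · -- u not in K: locally constant
    filter_upwards [hK.1.isOpen_compl.mem_nhds huK, (by
      obtain ⟨δ, hδ, h⟩ := Metric.isOpen_iff.mp hK.1.isOpen_compl u huK
      filter_upwards [Metric.ball_mem_nhds u hδ] with v hv
      exact (show uIcc u v ⊆ Kᶜ from ((ball_ordConnected u δ).uIcc_subset (Metric.mem_ball_self hδ) hv).trans h) :
      ∀ᶠ v in 𝓝 u, uIcc u v ⊆ Kᶜ)] with v hv1 hv2
    left
    have : r v = r u := by
      rcases le_total u v with h | h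
      · apply le_antisymm _ (ret_mono hr h)
        apply (hr u).2
        refine ⟨(hr v).1.1, ?_⟩
        by_contra hc
        rw [mem_Iic, not_le] at hc
        exact hv2 (by rw [uIcc_of_le h]; exact ⟨hc.le, (hr v).1.2⟩) (hr v).1.1
      · apply le_antisymm (ret_mono hr h)
        apply (hr v).2
        refine ⟨(hr u).1.1, ?_⟩
        by_contra hc
        rw [mem_Iic, not_le] at hc
        exact hv2 (by rw [uIcc_of_ge h]; exact ⟨hc.le, (hr u).1.2⟩) (hr u).1.1
    rw [this]; exact mem_of_mem_nhds hU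

lemma ret_continuous (hc : Continuous l) (hK : K ∈ GapOK l) (hr : ∀ u, IsGreatest (K ∩ Iic u) (r u)) :
    Continuous (fun u => l (r u)) := by
  rw [continuous_iff_continuousAt]
  intro u
  rw [ContinuousAt, tendsto_def]
  intro W hW
  filter_upwards [ret_near hK hr u (hc.continuousAt.preimage_mem_nhds hW)] with v hv
  rcases hv with h | h
  · exact h
  · show l (r v) ∈ W
    rw [h.1]; exact mem_of_mem_nhds hW

/-- the property (U) for the shortened path -/
lemma ret_unp [LocallyConnectedSpace X] (hc : Continuous l) (h1 : L1 l) (hl : Light l) (hK : K ∈ GapOK l)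
    (hr : ∀ u, IsGreatest (K ∩ Iic u) (r u)) : Unp (fun u => l (r u)) := by
  intro a b hab e hae hbe η hη
  set Y : Set X := (fun u => l (r u)) '' Icc a b with hY
  set W : Set X := Metric.thickening η Y \ {e} with hW
  have hWo : IsOpen W := Metric.isOpen_thickening.sdiff isClosed_singleton
  have hYt : Y ⊆ Metric.thickening η Y := Metric.self_subset_thickening hη Y
  have haY : l (r a) ∈ Y := ⟨a, ⟨le_rfl, hab.le⟩, rfl⟩
  have hbY : l (r b) ∈ Y := ⟨b, ⟨hab.le, le_rfl⟩, rfl⟩
  have haW : l (r a) ∈ W := ⟨hYt haY, hae⟩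
  set C0 : Set X := connectedComponentIn W (l (r a)) with hC0
  have hC0o : IsOpen C0 := hWo.connectedComponentIn
  let Nr : I → Prop := fun τ => ∀ᶠ s in 𝓝 τ, l s ≠ e → l s ∈ C0
  have hball : ∀ τ, l τ ∈ Y → Metric.ball (l τ) η ⊆ Metric.thickening η Y := by
    intro τ hτ z hz
    rw [Metric.mem_thickening_iff]
    exact ⟨l τ, hτ, hz⟩
  -- local class
  have hcls : ∀ τ, l τ ∈ Y → ∃ C : Set X, IsPreconnected C ∧ C ⊆ W ∧ ∀ᶠ s in 𝓝 τ, l s ≠ e → l s ∈ C := by
    intro τ hτ
    by_cases hτe : l τ = e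
    · obtain ⟨M, hM1, hM2, hM3⟩ := h1 τ η hη
      refine ⟨M, hM1, ?_, ?_⟩
      · intro z hz
        have := hM2 hz
        rw [hτe] at this
        exact ⟨hball τ hτ (by rw [hτe]; exact this.1), this.2⟩
      · rw [hτe] at hM3; exact hM3
    · refine ⟨connectedComponentIn W (l τ), isPreconnected_connectedComponentIn,
        connectedComponentIn_subset _ _, ?_⟩
      have h2 : l ⁻¹' (connectedComponentIn W (l τ)) ∈ 𝓝 τ :=
        hc.continuousAt.preimage_mem_nhds ((hWo.connectedComponentIn).mem_nhds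
          (mem_connectedComponentIn ⟨hYt hτ, hτe⟩))
      filter_upwards [h2] with s hs _
      exact hs
  have hCsub : ∀ C : Set X, IsPreconnected C → C ⊆ W → (C ∩ C0).Nonempty → C ⊆ C0 := by
    rintro C hC hCW ⟨z, hz1, hz2⟩
    rw [hC0, connectedComponentIn_eq hz2]
    exact hC.subset_connectedComponentIn hz1 hCW
  have hN1 : ∀ τ, l τ ∈ Y → ∀ᶠ τ' in 𝓝 τ, (Nr τ' ↔ Nr τ) := by
    intro τ hτ
    obtain ⟨C, hC1, hC2, hC3⟩ := hcls τ hτ
    filter_upwards [hC3.eventually_nhds] with τ' hτ'
    constructor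
    · intro hN
      obtain ⟨s, hs, h4, h5⟩ := ((hl.freq τ' e).and_eventually (hτ'.and hN)).exists
      have hs2 := hCsub C hC1 hC2 ⟨l s, h4 hs, h5 hs⟩
      filter_upwards [hC3] with s' hs' hse
      exact hs2 (hs' hse)
    · intro hN
      obtain ⟨s, hs, h4, h5⟩ := ((hl.freq τ e).and_eventually (hC3.and hN)).exists
      have hs2 := hCsub C hC1 hC2 ⟨l s, h4 hs, h5 hs⟩
      filter_upwards [hτ'] with s' hs' hse
      exact hs2 (hs' hse)
  have hN2 : ∀ τ τ', l τ ∈ Y → rel l τ' τ → Nr τ → Nr τ' := by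
    intro τ τ' hτ hrel hN
    by_cases hτe : l τ = e
    · -- use the germ
      have hD : Dc l η τ ⊆ W := by
        intro z hz
        have h3 := Dc_sub h1 hl τ hη hz
        rw [hτe] at h3
        exact ⟨hball τ hτ (by rw [hτe]; exact h3.1), h3.2⟩
      obtain ⟨s, hs, h4, h5⟩ := ((hl.freq τ e).and_eventually (hN.and (Dc_mem h1 hl τ hη))).exists
      have h6 : Dc l η τ ⊆ C0 := hCsub _ (Dc_preconn h1 hl τ hη) hD ⟨l s, h5 (by rw [hτe]; exact hs), h4 hs⟩
      rw [← hrel.2 η hη] at h6
      show ∀ᶠ s in 𝓝 τ', l s ≠ e → l s ∈ C0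
      filter_upwards [Dc_mem h1 hl τ' hη] with s' hs' hse
      exact h6 (hs' (by rw [hrel.1, hτe]; exact hse))
    · have h3 : l τ ∈ C0 := hN.self_of_nhds hτe
      rw [← hrel.1] at h3
      have h2 : l ⁻¹' C0 ∈ 𝓝 τ' := hc.continuousAt.preimage_mem_nhds (hC0o.mem_nhds h3)
      show ∀ᶠ s in 𝓝 τ', l s ≠ e → l s ∈ C0
      filter_upwards [h2] with s hs _
      exact hs
  have hrelsymm : ∀ τ τ', rel l τ τ' → rel l τ' τ := fun τ τ' h => ⟨h.1.symm, fun r hr => (h.2 r hr).symm⟩
  have hloc : ∀ u ∈ Icc a b, ∀ᶠ v in 𝓝 u, v ∈ Icc a b → (Nr (r v) ↔ Nr (r u)) := by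
    intro u hu
    have huY : l (r u) ∈ Y := ⟨u, hu, rfl⟩
    filter_upwards [ret_near hK hr u (hN1 (r u) huY)] with v hv hvab
    have hvY : l (r v) ∈ Y := ⟨v, hvab, rfl⟩
    rcases hv with h | h
    · exact h
    · exact ⟨fun hn => hN2 (r v) (r u) hvY (hrelsymm _ _ h) hn, fun hn => hN2 (r u) (r v) huY h hn⟩
  -- propagate
  have hNa : Nr (r a) := by
    have h2 : l ⁻¹' C0 ∈ 𝓝 (r a) :=
      hc.continuousAt.preimage_mem_nhds (hC0o.mem_nhds (mem_connectedComponentIn haW))
    show ∀ᶠ s in 𝓝 (r a), l s ≠ e → l s ∈ C0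
    filter_upwards [h2] with s hs _
    exact hs
  have hNb : Nr (r b) := by
    by_contra hNb
    have hpre : IsPreconnected (Icc a b) := isPreconnected_Icc
    set A : Set I := {u | ∀ᶠ v in 𝓝 u, v ∈ Icc a b → Nr (r v)} with hA
    set B : Set I := {u | ∀ᶠ v in 𝓝 u, v ∈ Icc a b → ¬ Nr (r v)} with hB
    have hAo : IsOpen A := by
      rw [isOpen_iff_mem_nhds]; intro u hu; exact Eventually.eventually_nhds hu
    have hBo : IsOpen B := by
      rw [isOpen_iff_mem_nhds]; intro u hu; exact Eventually.eventually_nhds hu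
    have hcov : Icc a b ⊆ A ∪ B := by
      intro u hu
      by_cases h : Nr (r u)
      · left
        filter_upwards [hloc u hu] with v hv hvab
        exact (hv hvab).mpr h
      · right
        filter_upwards [hloc u hu] with v hv hvab hn
        exact h ((hv hvab).mp hn)
    have haI : a ∈ Icc a b := ⟨le_rfl, hab.le⟩
    have hbI : b ∈ Icc a b := ⟨hab.le, le_rfl⟩
    have haA : a ∈ A := by
      rcases hcov haI with h | h
      · exact h
      · exact absurd hNa (h.self_of_nhds haI)
    have hbB : b ∈ B := by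
      rcases hcov hbI with h | h
      · exact absurd (h.self_of_nhds hbI) hNb
      · exact h
    obtain ⟨u, huI, huA, huB⟩ := hpre A B hAo hBo hcov ⟨a, haI, haA⟩ ⟨b, hbI, hbB⟩
    exact huB.self_of_nhds huI (huA.self_of_nhds huI)
  refine ⟨C0, isPreconnected_connectedComponentIn, ?_, ?_, mem_connectedComponentIn haW, ?_⟩
  · exact (connectedComponentIn_subset _ _).trans sdiff_subset
  · intro he; exact (connectedComponentIn_subset _ _ he).2 rfl
  · exact hNb.self_of_nhds hbe

end ret

/-- transfer of (U) along a reparametrisation -/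
lemma Unp.reparam {m : I → X} {p : I → I} (hp : Continuous p) (hpm : Monotone p)
    (hps : Function.Surjective p) (hlm : ∀ t, l t = m (p t)) (h : Unp l) : Unp m := by
  intro a b hab e hae hbe η hη
  obtain ⟨a', ha'⟩ := hps a
  obtain ⟨b', hb'⟩ := hps b
  have hab' : a' < b' := by
    by_contra hcon
    push Not at hcon
    have := hpm hcon
    rw [ha', hb'] at this
    exact absurd hab (not_lt.mpr this)
  obtain ⟨M, h1, h2, h3, h4, h5⟩ := h a' b' hab' e (by rw [hlm, ha']; exact hae) (by rw [hlm, hb']; exact hbe) η hη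
  refine ⟨M, h1, h2.trans (Metric.thickening_subset_of_subset η ?_), h3, by rw [hlm, ha'] at h4; exact h4,
    by rw [hlm, hb'] at h5; exact h5⟩
  rintro _ ⟨u, hu, rfl⟩
  refine ⟨p u, ⟨?_, ?_⟩, (hlm u).symm⟩
  · rw [← ha']; exact hpm hu.1
  · rw [← hb']; exact hpm hu.2

end Pool.Agent.Helper451.Reg
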