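import Pool.Agent.Helper451.Reg.R8

set_option autoImplicit false
set_option linter.unusedSectionVars false
set_option linter.unusedVariables false

open Set Filter Topology unitInterval

namespace Pool.Agent.Helper451.Reg
variable {X : Type*} [MetricSpace X] {l : I → X}

def RepProp (X : Type*) [MetricSpace X] : Prop :=
  ∀ l : I → X, Continuous l → l 0 ≠ l 1 →
    ∃ (m : I → X) (p : I → I), Continuous m ∧ Continuous p ∧ Monotone p ∧ Function.Surjective p ∧
      (∀ t, l t = m (p t)) ∧ Light m

theorem good_path_of [LocallyConnectedSpace X] (hrep : RepProp X) (hc : Continuous l) (hl : Light l)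
    (hU : Unp l) (h01 : l 0 ≠ l 1) :
    ∃ m : I → X, Continuous m ∧ Light m ∧ H m ∅ ∧ Sep m := by
  have h1 : L1 l := hU.L1 hc
  obtain ⟨K, hKmin⟩ := exists_min_gap hc h1 hl
  have hK : K ∈ GapOK l := hKmin.prop
  obtain ⟨r, hr⟩ := exists_ret hK.1 hK.2.1
  have hr0 : r 0 = 0 := ret_self hr hK.2.1
  have hr1 : r 1 = 1 := ret_self hr hK.2.2.1
  obtain ⟨m, p, hm, hp, hpm, hps, hlm, hml⟩ := hrep (fun u => l (r u)) (ret_continuous hc hK hr)
    (by show l (r 0) ≠ l (r 1); rw [hr0, hr1]; exact h01)
  have hUm : Unp m := Unp.reparam hp hpm hps hlm (ret_unp hc h1 hl hK hr)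
  have hm1 : L1 m := hUm.L1 hm
  refine ⟨m, hm, hml, H_empty hm1, ?_⟩
  -- separation
  have main : ∀ α β : I, α < β → m α = m β → ∃ ρ : ℝ, 0 < ρ ∧ Disjoint (Dc m ρ α) (Dc m ρ β) := by
    intro α β hαβ hmeq
    by_contra hno
    push Not at hno
    have hDeq : ∀ ρ : ℝ, 0 < ρ → Dc m ρ α = Dc m ρ β := by
      intro ρ hρ
      obtain ⟨x, hx1, hx2⟩ := not_disjoint_iff.mp (hno ρ hρ)
      exact Dc_eq_of_meet hm1 hml hmeq hρ hx1 hx2
    -- ends
    obtain ⟨d, hd⟩ := ((isClosed_singleton.preimage hp).isCompact (X := I)).exists_isGreatest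
      (s := p ⁻¹' {α}) (hps α)
    obtain ⟨c, hcc⟩ := ((isClosed_singleton.preimage hp).isCompact (X := I)).exists_isLeast
      (s := p ⁻¹' {β}) (hps β)
    have hpd : p d = α := hd.1
    have hpc : p c = β := hcc.1
    have hdc : d < c := by
      by_contra h
      push Not at h
      have := hpm h
      rw [hpd, hpc] at this
      exact absurd hαβ (not_lt.mpr this)
    -- if the path l o r is constant between two times then p agrees
    have hconst : ∀ a b, a ≤ b → (∀ u ∈ Icc a b, l (r u) = l (r a)) → p a = p b := by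
      intro a b hab hcon
      by_contra hne
      have hlt : p a < p b := lt_of_le_of_ne (hpm hab) hne
      obtain ⟨s, hs, hse⟩ := hml (Ioo (p a) (p b)) isOpen_Ioo (nonempty_Ioo.mpr hlt) (l (r a))
      obtain ⟨u, hu⟩ := hps s
      have hu1 : a ≤ u := by
        by_contra h
        push Not at h
        have := hpm h.le
        rw [hu] at this
        exact absurd hs.1 (not_lt.mpr this)
      have hu2 : u ≤ b := by
        by_contra h
        push Not at h
        have := hpm h.le
        rw [hu] at this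
        exact absurd hs.2 (not_lt.mpr this)
      apply hse
      rw [← hu, ← hlm u]
      exact hcon u ⟨hu1, hu2⟩
    -- points with values different from e between
    have hdiff : ∀ a b, a < b → p a < p b → ∃ u ∈ Ioo a b, l (r u) ≠ m α := by
      intro a b hab hlt
      obtain ⟨s, hs, hse⟩ := hml (Ioo (p a) (p b)) isOpen_Ioo (nonempty_Ioo.mpr hlt) (m α)
      obtain ⟨u, hu⟩ := hps s
      refine ⟨u, ⟨?_, ?_⟩, by rw [show l (r u) = m (p u) from hlm u, hu]; exact hse⟩
      · by_contra h
        push Not at h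
        have := hpm h
        rw [hu] at this
        exact absurd hs.1 (not_lt.mpr this)
      · by_contra h
        push Not at h
        have := hpm h
        rw [hu] at this
        exact absurd hs.2 (not_lt.mpr this)
    have hpgt : ∀ b, d < b → p d < p b := by
      intro b hb
      rcases (hpm hb.le).lt_or_eq with h | h
      · exact h
      · exact absurd (hd.2 (show b ∈ p ⁻¹' {α} by rw [mem_preimage, mem_singleton_iff, ← h, hpd]))
          (not_le.mpr hb)
    have hplt : ∀ b, b < c → p b < p c := by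
      intro b hb
      rcases (hpm hb.le).lt_or_eq with h | h
      · exact h
      · exact absurd (hcc.2 (show b ∈ p ⁻¹' {β} by rw [mem_preimage, mem_singleton_iff, h, hpc]))
          (not_le.mpr hb)
    have hrle : ∀ u, r u ≤ u := fun u => (hr u).1.2
    have hrK : ∀ u, r u ∈ K := fun u => (hr u).1.1
    -- d is in K
    have hdK : d ∈ K := by
      by_contra hdK
      obtain ⟨δ, hδ, hδK⟩ := Metric.isOpen_iff.mp hK.1.isOpen_compl d hdK
      have hb : ∃ b, d < b ∧ b ∈ Metric.ball d δ := by
        have hne : (𝓝[>] d).NeBot := nhdsGT_neBot_of_exists_gt ⟨c, hdc⟩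
        have hev : ∀ᶠ b in 𝓝[>] d, b ∈ Metric.ball d δ :=
          mem_nhdsWithin_of_mem_nhds (Metric.ball_mem_nhds d hδ)
        obtain ⟨b, hb1, hb2⟩ := (hev.and self_mem_nhdsWithin).exists
        exact ⟨b, hb2, hb1⟩
      obtain ⟨b, hb1, hb2⟩ := hb
      have hIcc : Icc d b ⊆ Kᶜ := ((ball_ordConnected d δ).out (Metric.mem_ball_self hδ) hb2).trans hδK
      have := hconst d b hb1.le (by
        intro u hu
        have : r u = r d := by
          apply le_antisymm
          · apply (hr d).2
            refine ⟨hrK u, ?_⟩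
            by_contra h
            rw [mem_Iic, not_le] at h
            exact hIcc ⟨h.le, (hrle u).trans hu.2⟩ (hrK u)
          · exact ret_mono hr hu.1
        rw [this])
      exact absurd this (hpgt b hb1).ne
    have hcK : c ∈ K := by
      by_contra hcK
      obtain ⟨δ, hδ, hδK⟩ := Metric.isOpen_iff.mp hK.1.isOpen_compl c hcK
      have hb : ∃ b, b < c ∧ b ∈ Metric.ball c δ := by
        have hne : (𝓝[<] c).NeBot := nhdsLT_neBot_of_exists_lt ⟨d, hdc⟩
        have hev : ∀ᶠ b in 𝓝[<] c, b ∈ Metric.ball c δ :=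
          mem_nhdsWithin_of_mem_nhds (Metric.ball_mem_nhds c hδ)
        obtain ⟨b, hb1, hb2⟩ := (hev.and self_mem_nhdsWithin).exists
        exact ⟨b, hb2, hb1⟩
      obtain ⟨b, hb1, hb2⟩ := hb
      have hIcc : Icc b c ⊆ Kᶜ := ((ball_ordConnected c δ).out hb2 (Metric.mem_ball_self hδ)).trans hδK
      have := hconst b c hb1.le (by
        intro u hu
        have : r u = r b := by
          apply le_antisymm
          · apply (hr b).2
            refine ⟨hrK u, ?_⟩
            by_contra h
            rw [mem_Iic, not_le] at h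
            exact hIcc ⟨h.le, (hrle u).trans hu.2⟩ (hrK u)
          · exact ret_mono hr hu.1
        rw [this])
      exact absurd this (hplt b hb1).ne
    have hrd : r d = d := ret_self hr hdK
    have hrc : r c = c := ret_self hr hcK
    have hld : l d = m α := by
      have := hlm d
      rw [hrd, hpd] at this; exact this
    have hlc : l c = m α := by
      have := hlm c
      rw [hrc, hpc] at this; rw [this, hmeq]
    -- times of K just right of d
    have hright : ∀ U ∈ 𝓝 d, ∃ k ∈ U, k ∈ K ∧ d < k ∧ k < c ∧ l k ≠ m α ∧ l k = m (p k) := by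
      intro U hU'
      obtain ⟨w, hw, hwU⟩ := exists_Ico_subset_of_mem_nhds hU' ⟨c, hdc⟩
      obtain ⟨u, hu, hue⟩ := hdiff d (min w c) (lt_min hw hdc) (hpgt _ (lt_min hw hdc))
      have hdle : d ≤ r u := by rw [← hrd]; exact ret_mono hr hu.1.le
      have hne : r u ≠ d := fun h => hue (by rw [h]; exact hld)
      refine ⟨r u, hwU ⟨hdle, (hrle u).trans_lt (hu.2.trans_le (min_le_left _ _))⟩, hrK u,
        lt_of_le_of_ne hdle hne.symm, (hrle u).trans_lt (hu.2.trans_le (min_le_right _ _)), hue, ?_⟩
      have := hlm (r u)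
      rw [ret_self hr (hrK u)] at this
      exact this
    have hleft : ∀ U ∈ 𝓝 c, ∃ k ∈ U, l k ≠ m α ∧ l k = m (p k) := by
      intro U hU'
      obtain ⟨w, hw, hwU⟩ := exists_Ioc_subset_of_mem_nhds hU' ⟨d, hdc⟩
      -- K accumulates at c from the left
      have hacc : (K ∩ Ioo w c).Nonempty := by
        by_contra hemp
        rw [not_nonempty_iff_eq_empty] at hemp
        obtain ⟨a, ha⟩ := exists_between hw
        have hra : ∀ u ∈ Ico a c, r u = r a := by
          intro u hu
          apply le_antisymm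
          · apply (hr a).2
            refine ⟨hrK u, ?_⟩
            by_contra h
            rw [mem_Iic, not_le] at h
            have : r u ∈ K ∩ Ioo w c := ⟨hrK u, ha.1.trans h, (hrle u).trans_lt hu.2⟩
            rw [hemp] at this; exact this
          · exact ret_mono hr hu.1
        -- then constant on [a, c] by continuity
        have hcl : l (r c) = l (r a) := by
          have hcont := ret_continuous hc hK hr
          have h2 : c ∈ closure (Ico a c) := by
            rw [closure_Ico ha.2.ne]; exact ⟨ha.2.le, le_rfl⟩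
          have h3 : IsClosed {u | l (r u) = l (r a)} := isClosed_eq hcont continuous_const
          exact h3.closure_subset_iff.mpr (fun u hu => by show l (r u) = l (r a); rw [hra u hu]) h2
        have := hconst a c ha.2.le (by
          intro u hu
          rcases hu.2.lt_or_eq with h | h
          · rw [hra u ⟨hu.1, h⟩]
          · rw [h]; exact hcl)
        exact absurd this (hplt a ha.2).ne
      obtain ⟨k0, hk0K, hk0⟩ := hacc
      obtain ⟨u, hu, hue⟩ := hdiff k0 c hk0.2 (hplt k0 hk0.2)
      have hk0le : k0 ≤ r u := (hr u).2 ⟨hk0K, mem_Iic.mpr hu.1.le⟩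
      refine ⟨r u, hwU ⟨hk0.1.trans_le hk0le, (hrle u).trans hu.2.le⟩, hue, ?_⟩
      have := hlm (r u)
      rw [ret_self hr (hrK u)] at this
      exact this
    have hDd : ∀ ρ : ℝ, 0 < ρ → Dc l ρ d = Dc m ρ α := by
      intro ρ hρ
      have hpcont : ∀ᶠ k in 𝓝 d, m (p k) ≠ m α → m (p k) ∈ Dc m ρ α := by
        have := hp.continuousAt (x := d)
        rw [ContinuousAt, hpd] at this
        exact this.eventually (Dc_mem hm1 hml α hρ)
      obtain ⟨k, ⟨hk1, hk2⟩, hkK, hdk, hkc, hke, hkm⟩ := hright _ ((Dc_mem h1 hl d hρ).and hpcont)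
      have h5 : l k ∈ Dc l ρ d := hk1 (by rw [hld]; exact hke)
      have h6 : l k ∈ Dc m ρ α := by rw [hkm]; exact hk2 (by rw [← hkm]; exact hke)
      apply Subset.antisymm
      · apply sub_Dc hm1 hml α hρ (Dc_preconn h1 hl d hρ) _ ⟨_, h5, h6⟩
        rw [← hld]; exact Dc_sub h1 hl d hρ
      · apply sub_Dc h1 hl d hρ (Dc_preconn hm1 hml α hρ) _ ⟨_, h6, h5⟩
        rw [hld]; exact Dc_sub hm1 hml α hρ
    have hDc' : ∀ ρ : ℝ, 0 < ρ → Dc l ρ c = Dc m ρ β := by
      intro ρ hρ
      have hpcont : ∀ᶠ k in 𝓝 c, m (p k) ≠ m β → m (p k) ∈ Dc m ρ β := by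
        have := hp.continuousAt (x := c)
        rw [ContinuousAt, hpc] at this
        exact this.eventually (Dc_mem hm1 hml β hρ)
      obtain ⟨k, ⟨hk1, hk2⟩, hke, hkm⟩ := hleft _ ((Dc_mem h1 hl c hρ).and hpcont)
      have h5 : l k ∈ Dc l ρ c := hk1 (by rw [hlc]; exact hke)
      have h6 : l k ∈ Dc m ρ β := by rw [hkm]; exact hk2 (by rw [← hkm, ← hmeq]; exact hke)
      apply Subset.antisymm
      · apply sub_Dc hm1 hml β hρ (Dc_preconn h1 hl c hρ) _ ⟨_, h5, h6⟩
        rw [← hmeq, ← hlc]; exact Dc_sub h1 hl c hρ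
      · apply sub_Dc h1 hl c hρ (Dc_preconn hm1 hml β hρ) _ ⟨_, h6, h5⟩
        rw [hlc, hmeq]; exact Dc_sub hm1 hml β hρ
    have hrel : rel l d c := ⟨by rw [hld, hlc], fun ρ hρ => by rw [hDd ρ hρ, hDc' ρ hρ]; exact hDeq ρ hρ⟩
    have hgap := min_gap_rel hKmin hdK hcK hdc hrel
    obtain ⟨k, -, hkK, hdk, hkc, -, -⟩ := hright univ univ_mem
    have : k ∈ Ioo d c ∩ K := ⟨⟨hdk, hkc⟩, hkK⟩
    rw [hgap] at this; exact this
  intro s t hst hlst
  rcases lt_or_gt_of_ne hst with h | h
  · exact main s t h hlst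
  · obtain ⟨ρ, hρ, hd⟩ := main t s h hlst.symm
    exact ⟨ρ, hρ, hd.symm⟩

end Pool.Agent.Helper451.Reg
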